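import Mathlib

set_option autoImplicit false

/-!
# One-variable part: lacunary polynomials over a prime field
-/

namespace Pool.Agent.H43.Aff

open Finset Polynomial

variable {p : ℕ} [hp : Fact p.Prime]

/-- Two nonzero polynomials of degree less than `p` with vanishing Wronskian have equal degree. -/
theorem natDegree_eq_of_wronskian {B H : (ZMod p)[X]} (hB : B ≠ 0) (hH : H ≠ 0)
    (dB : B.natDegree < p) (dH : H.natDegree < p)
    (h : derivative B * H = B * derivative H) : B.natDegree = H.natDegree := by
  have hX : (X * derivative B) * H = B * (X * derivative H) := by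
    calc (X * derivative B) * H = X * (derivative B * H) := by ring
      _ = X * (B * derivative H) := by rw [h]
      _ = B * (X * derivative H) := by ring
  have key : ∀ Q : (ZMod p)[X], (X * derivative Q).natDegree ≤ Q.natDegree ∧
      (X * derivative Q).coeff Q.natDegree = Q.natDegree * Q.coeff Q.natDegree := by
    intro Q
    have hc : ∀ n, (X * derivative Q).coeff n = n * Q.coeff n := by
      intro n
      rcases n with _ | n
      · simp
      · rw [coeff_X_mul, coeff_derivative]
        push_cast
        ring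
    refine ⟨?_, hc _⟩
    rw [natDegree_le_iff_coeff_eq_zero]
    intro N hN
    rw [hc, coeff_eq_zero_of_natDegree_lt hN, mul_zero]
  have h1 : ((X * derivative B) * H).coeff (B.natDegree + H.natDegree) =
      (B.natDegree * B.coeff B.natDegree) * H.coeff H.natDegree := by
    rw [coeff_mul_add_eq_of_natDegree_le (key B).1 le_rfl, (key B).2]
  have h2 : (B * (X * derivative H)).coeff (B.natDegree + H.natDegree) =
      B.coeff B.natDegree * (H.natDegree * H.coeff H.natDegree) := by
    rw [coeff_mul_add_eq_of_natDegree_le le_rfl (key H).1, (key H).2]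
  rw [hX, h2] at h1
  have hb : B.coeff B.natDegree ≠ 0 := leadingCoeff_ne_zero.2 hB
  have hh : H.coeff H.natDegree ≠ 0 := leadingCoeff_ne_zero.2 hH
  have h3 : ((B.natDegree : ZMod p)) = (H.natDegree : ZMod p) := by
    have h4 : ((H.natDegree : ZMod p) - B.natDegree) * (B.coeff B.natDegree *
        H.coeff H.natDegree) = 0 := by
      linear_combination h1
    rcases mul_eq_zero.1 h4 with h5 | h5
    · exact (sub_eq_zero.1 h5).symm
    · exact absurd h5 (mul_ne_zero hb hh)
  rw [ZMod.natCast_eq_natCast_iff'] at h3
  rwa [Nat.mod_eq_of_lt dB, Nat.mod_eq_of_lt dH] at h3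

theorem exists_C_mul_of_wronskian {B H : (ZMod p)[X]} (hB : B ≠ 0)
    (dB : B.natDegree < p) (dH : H.natDegree < p)
    (h : derivative B * H = B * derivative H) : ∃ c : ZMod p, H = C c * B := by
  by_cases hH : H = 0
  · exact ⟨0, by rw [hH]; simp⟩
  have hd := natDegree_eq_of_wronskian hB hH dB dH h
  have hb : B.coeff B.natDegree ≠ 0 := leadingCoeff_ne_zero.2 hB
  refine ⟨H.coeff B.natDegree / B.coeff B.natDegree, ?_⟩
  set c := H.coeff B.natDegree / B.coeff B.natDegree with hc
  by_contra hne
  have hne' : H - C c * B ≠ 0 := fun h0 => hne (sub_eq_zero.1 h0)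
  have hle : (H - C c * B).natDegree ≤ B.natDegree := by
    refine (natDegree_sub_le _ _).trans ?_
    rw [max_le_iff]
    exact ⟨hd.ge, natDegree_C_mul_le _ _⟩
  have h2 : derivative B * (H - C c * B) = B * derivative (H - C c * B) := by
    rw [derivative_sub, derivative_C_mul]
    linear_combination h
  have h3 := natDegree_eq_of_wronskian hB hne' dB (lt_of_le_of_lt hle dB) h2
  have h4 : (H - C c * B).coeff (H - C c * B).natDegree ≠ 0 := leadingCoeff_ne_zero.2 hne'
  apply h4
  rw [← h3, coeff_sub, coeff_C_mul, hc]
  field_simp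
  ring

/-- The number of linear factors vanishing at `t`. -/
def mlt {ι : Type*} (J : Finset ι) (x y : ι → ZMod p) (t : ZMod p) : ℕ :=
  (J.filter fun i => x i * t + y i = 0).card

/-- The product of linear factors. -/
noncomputable def fpol {ι : Type*} (J : Finset ι) (x y : ι → ZMod p) : (ZMod p)[X] :=
  ∏ i ∈ J, (C (x i) * X + C (y i))

theorem fpol_factor {ι : Type*} (J : Finset ι) (x y : ι → ZMod p) (t : ZMod p) :
    fpol J x y = (X - C t) ^ mlt J x y t *
      ((∏ i ∈ J.filter (fun i => x i * t + y i = 0), C (x i)) *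
        ∏ i ∈ J.filter (fun i => ¬ (x i * t + y i = 0)), (C (x i) * X + C (y i))) := by
  classical
  unfold fpol mlt
  rw [← Finset.prod_filter_mul_prod_filter_not J (fun i => x i * t + y i = 0), ← mul_assoc]
  congr 1
  rw [mul_comm, ← Finset.prod_const, ← Finset.prod_mul_distrib]
  apply Finset.prod_congr rfl
  intro i hi
  have h := (Finset.mem_filter.1 hi).2
  have h2 : y i = - (x i * t) := by linear_combination h
  rw [h2]
  simp only [C_neg, C_mul]
  ring

theorem fpol_ne_zero {ι : Type*} {J : Finset ι} {x y : ι → ZMod p} (hx : ∀ i ∈ J, x i ≠ 0) :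
    fpol J x y ≠ 0 := by
  unfold fpol
  rw [Finset.prod_ne_zero_iff]
  intro i hi h0
  have := congrArg (fun q => coeff q 1) h0
  simp at this
  exact hx i hi this

theorem natDegree_fpol {ι : Type*} {J : Finset ι} {x y : ι → ZMod p} (hx : ∀ i ∈ J, x i ≠ 0) :
    (fpol J x y).natDegree = J.card := by
  unfold fpol
  rw [natDegree_prod]
  · rw [Finset.sum_congr rfl (fun i hi => natDegree_linear (hx i hi))]
    simp
  · intro i hi h0
    have := congrArg (fun q => coeff q 1) h0
    simp at this
    exact hx i hi this

/-- If `f * A` is a multiple of `(X - c)^p` then `f` has a large multiplicity at `c`. -/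
theorem mult_of_pow_mul {ι : Type*} {J : Finset ι} {x y : ι → ZMod p} (hx : ∀ i ∈ J, x i ≠ 0)
    {k : ℕ} {A B : (ZMod p)[X]} (hA : A ≠ 0) (dA : A.natDegree ≤ k) {c : ZMod p}
    (h2 : fpol J x y * A = (X - C c) ^ p * B) : p ≤ mlt J x y c + k := by
  classical
  by_contra hlt
  push Not at hlt
  obtain ⟨g, hfac, hcop⟩ : ∃ g : (ZMod p)[X], fpol J x y = (X - C c) ^ mlt J x y c * g ∧
      IsCoprime (X - C c) g := by
    refine ⟨_, fpol_factor J x y c, ?_⟩
    apply IsCoprime.mul_right
    · apply IsCoprime.prod_right
      intro i hi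
      have h1 : x i ≠ 0 := hx i (Finset.mem_filter.1 hi).1
      refine ⟨0, C ((x i)⁻¹), ?_⟩
      rw [zero_mul, zero_add, ← C_mul, inv_mul_cancel₀ h1, C_1]
    · apply IsCoprime.prod_right
      intro i hi
      have h6 := (Finset.mem_filter.1 hi).2
      refine ⟨-C ((x i * c + y i)⁻¹) * C (x i), C ((x i * c + y i)⁻¹), ?_⟩
      have h7 : C ((x i * c + y i)⁻¹) * C (x i * c + y i) = (1 : (ZMod p)[X]) := by
        rw [← C_mul, inv_mul_cancel₀ h6, C_1]
      calc -C ((x i * c + y i)⁻¹) * C (x i) * (X - C c) +
            C ((x i * c + y i)⁻¹) * (C (x i) * X + C (y i))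
          = C ((x i * c + y i)⁻¹) * C (x i * c + y i) := by
            simp only [C_add, C_mul]; ring
        _ = 1 := h7
  have hsplit : (X - C c) ^ p = (X - C c) ^ mlt J x y c * (X - C c) ^ (p - mlt J x y c) := by
    rw [← pow_add]; congr 1; omega
  have hX0 : (X - C c) ^ mlt J x y c ≠ 0 := pow_ne_zero _ (X_sub_C_ne_zero _)
  generalize mlt J x y c = m at *
  rw [hfac, hsplit] at h2
  have h2' : (X - C c) ^ m * (g * A) = (X - C c) ^ m * ((X - C c) ^ (p - m) * B) := by
    rw [← mul_assoc, ← mul_assoc]; exact h2
  have h3 : g * A = (X - C c) ^ (p - m) * B := mul_left_cancel₀ hX0 h2'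
  have h4 : (X - C c) ^ (p - m) ∣ g * A := ⟨B, h3⟩
  have h6 : (X - C c) ^ (p - m) ∣ A := (hcop.pow_left).dvd_of_dvd_mul_left h4
  have h7 := natDegree_le_of_dvd h6 hA
  rw [natDegree_pow, natDegree_X_sub_C, mul_one] at h7
  omega

/-- The one-variable statement. -/
theorem one_var {ι : Type*} {J : Finset ι} {x y : ι → ZMod p} (hx : ∀ i ∈ J, x i ≠ 0)
    {s e k : ℕ} (hJ : J.card = s * e) (hpe : p = s * e + 1)
    (hs : 1 ≤ s)
    (hm : ∀ t, mlt J x y t = 0 ∨ s ≤ mlt J x y t)
    {A B H : (ZMod p)[X]} (hA : A ≠ 0) (dA : A.natDegree ≤ k)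
    (dB : ∀ n, k ≤ n → B.coeff n = 0) (dH : ∀ n, k ≤ n → H.coeff n = 0)
    (hk : 2 * k ≤ (s - 1) * e + 2) (hkp : k < p)
    (hf : fpol J x y * A = X ^ p * B + H) :
    ∃ t, p ≤ mlt J x y t + k := by
  classical
  have hf0 := fpol_ne_zero (y := y) hx
  have hk1 : 1 ≤ k := by
    by_contra hk0
    have hk0' : k = 0 := by omega
    subst hk0'
    have hB0 : B = 0 := by ext n; simpa using dB n (Nat.zero_le _)
    have hH0 : H = 0 := by ext n; simpa using dH n (Nat.zero_le _)
    rw [hB0, hH0, mul_zero, add_zero] at hf
    exact (mul_ne_zero hf0 hA) hf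
  have nB : B.natDegree ≤ k - 1 := by
    rw [natDegree_le_iff_coeff_eq_zero]
    intro N hN
    exact dB N (by omega)
  have nH : H.natDegree ≤ k - 1 := by
    rw [natDegree_le_iff_coeff_eq_zero]
    intro N hN
    exact dH N (by omega)
  have hB0 : B ≠ 0 := by
    intro hB0
    rw [hB0, mul_zero, zero_add] at hf
    have h1 := congrArg natDegree hf
    rw [natDegree_mul hf0 hA, natDegree_fpol hx] at h1
    omega
  have hder : derivative (fpol J x y * A) = X ^ p * derivative B + derivative H := by
    rw [hf, derivative_add, derivative_mul, derivative_X_pow]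
    simp
  by_cases hW : derivative B * H - B * derivative H = 0
  · -- the Wronskian vanishes
    obtain ⟨c, hc⟩ := exists_C_mul_of_wronskian hB0 (by omega) (by omega) (sub_eq_zero.1 hW)
    have h1 : (X - C (-c)) ^ p = X ^ p + C c := by
      rw [sub_pow_char, ← C_pow, ZMod.pow_card, C_neg, sub_neg_eq_add]
    have h2 : fpol J x y * A = (X - C (-c)) ^ p * B := by
      rw [hf, hc, h1]; ring
    exact ⟨-c, mult_of_pow_mul hx hA dA h2⟩
  · -- the Wronskian does not vanish
    exfalso
    set W := derivative B * H - B * derivative H with hWdef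
    have hWeq : W = derivative B * (fpol J x y * A) - B * derivative (fpol J x y * A) := by
      rw [hder, hf, hWdef]; ring
    let T : Finset (ZMod p) := Finset.univ.filter fun t => mlt J x y t ≠ 0
    have hdvd : ∀ t ∈ T, (X - C t) ^ (mlt J x y t - 1) ∣ W := by
      intro t _
      have h1 : (X - C t) ^ mlt J x y t ∣ fpol J x y * A :=
        Dvd.dvd.mul_right (Dvd.intro _ (fpol_factor J x y t).symm) _
      have h2 : (X - C t) ^ (mlt J x y t - 1) ∣ derivative (fpol J x y * A) :=
        pow_sub_one_dvd_derivative_of_pow_dvd h1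
      have h3 : (X - C t) ^ (mlt J x y t - 1) ∣ fpol J x y * A :=
        (pow_dvd_pow _ (Nat.sub_le _ _)).trans h1
      rw [hWeq]
      exact dvd_sub (Dvd.dvd.mul_left h3 _) (Dvd.dvd.mul_left h2 _)
    have hprod : (∏ t ∈ T, (X - C t) ^ (mlt J x y t - 1)) ∣ W := by
      apply Finset.prod_dvd_of_coprime _ hdvd
      intro a _ b _ hab
      exact IsCoprime.pow (isCoprime_X_sub_C_of_isUnit_sub (sub_ne_zero.2 hab).isUnit)
    have h1 := natDegree_le_of_dvd hprod hW
    rw [natDegree_prod _ _ (fun t _ => pow_ne_zero _ (X_sub_C_ne_zero _))] at h1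
    simp only [natDegree_pow, natDegree_X_sub_C, mul_one] at h1
    -- the sum of multiplicities
    have hsum : ∑ t ∈ T, mlt J x y t = s * e := by
      have h2 : ∑ t ∈ T, mlt J x y t = ∑ t : ZMod p, mlt J x y t := by
        apply Finset.sum_subset (Finset.subset_univ _)
        intro t _ ht
        simpa [T] using ht
      rw [h2, ← hJ]
      unfold mlt
      rw [Finset.card_eq_sum_card_fiberwise (f := fun i => - (y i / x i))
        (t := (Finset.univ : Finset (ZMod p))) (fun i _ => Finset.mem_coe.2 (Finset.mem_univ _))]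
      apply Finset.sum_congr rfl
      intro t _
      congr 1
      apply Finset.filter_congr
      intro i hi
      have := hx i hi
      constructor
      · intro h
        field_simp
        linear_combination -h
      · intro h
        rw [← h]
        field_simp
        ring
    have hTs : s * T.card ≤ s * e := by
      rw [← hsum, mul_comm, ← smul_eq_mul, ← Finset.sum_const]
      apply Finset.sum_le_sum
      intro t ht
      rcases hm t with h | h
      · exact absurd h (Finset.mem_filter.1 ht).2
      · exact h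
    have hTe : T.card ≤ e := Nat.le_of_mul_le_mul_left hTs hs
    have hsum2 : ∑ t ∈ T, (mlt J x y t - 1) + T.card = s * e := by
      rw [← hsum, Finset.card_eq_sum_ones, ← Finset.sum_add_distrib]
      apply Finset.sum_congr rfl
      intro t ht
      have := (Finset.mem_filter.1 ht).2
      omega
    -- the degree of the Wronskian
    have hk2 : 2 ≤ k := by
      by_contra hk2
      have hk1' : k = 1 := by omega
      apply hW
      rw [hWdef]
      have e1 : derivative B = 0 := by
        rw [natDegree_eq_zero.1 (show B.natDegree = 0 by omega) |>.choose_spec.symm]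
        exact derivative_C
      have e2 : derivative H = 0 := by
        rw [natDegree_eq_zero.1 (show H.natDegree = 0 by omega) |>.choose_spec.symm]
        exact derivative_C
      rw [e1, e2]; simp
    have hWd : W.natDegree ≤ (k - 2) + (k - 1) := by
      rw [hWdef]
      refine (natDegree_sub_le _ _).trans ?_
      rw [max_le_iff]
      constructor
      · refine natDegree_mul_le.trans ?_
        have := natDegree_derivative_le B
        omega
      · refine natDegree_mul_le.trans ?_
        have := natDegree_derivative_le H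
        omega
    have h3 : s * e = (s - 1) * e + e := by
      obtain ⟨s', rfl⟩ := Nat.exists_eq_add_of_le' hs
      simp [Nat.succ_mul]
    omega

end Pool.Agent.H43.Aff
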