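import Pool.Agent.H43.AffTwo

set_option autoImplicit false

/-!
# Plane part: a set of `p` points without short secants is a line
-/

namespace Pool.Agent.H43.Aff

open Finset

variable {p : ℕ} [hp : Fact p.Prime]

section counting

variable {ι : Type*} [DecidableEq ι]

theorem card_line (a b : ZMod p) (ha : a ≠ 0) (c : ZMod p) :
    (Finset.univ.filter fun z : ZMod p × ZMod p => z.1 * a + z.2 * b = c).card = p := by
  have h : (Finset.univ.filter fun z : ZMod p × ZMod p => z.1 * a + z.2 * b = c) =
      (Finset.univ : Finset (ZMod p)).image fun t => ((c - t * b) / a, t) := by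
    ext z
    simp only [Finset.mem_filter, Finset.mem_univ, true_and, Finset.mem_image]
    constructor
    · intro h
      refine ⟨z.2, ?_⟩
      apply Prod.ext
      · simp only
        rw [← h]
        field_simp
        ring
      · rfl
    · rintro ⟨t, rfl⟩
      simp only
      field_simp
      ring
  rw [h, Finset.card_image_of_injective]
  · rw [Finset.card_univ, ZMod.card]
  · intro t t' h
    exact congrArg Prod.snd h

theorem card_E_le (J : Finset ι) (x y : ι → ZMod p) {s : ℕ}
    (hJ : J.card = p - 1) (hx : ∀ i ∈ J, x i ≠ 0)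
    (hinj : ∀ i ∈ J, ∀ j ∈ J, x i = x j → y i = y j → i = j)
    (hN : ∀ z : ZMod p × ZMod p, (J.filter fun i => z.1 * x i + z.2 * y i = 1).card ≤ 1 ∨
      s + 1 ≤ (J.filter fun i => z.1 * x i + z.2 * y i = 1).card)
    (E : Finset (ZMod p × ZMod p))
    (hE : ∀ z : ZMod p × ZMod p, z ∈ E ↔ ∀ i ∈ J, z.1 * x i + z.2 * y i ≠ 1) :
    (s + 1) * E.card ≤ s * (p - 1) + s + (p - 1) * (p - 1) + 1 := by
  classical
  have hp1 : 1 ≤ p := hp.1.one_le
  obtain ⟨q, hq⟩ : ∃ q, p = q + 1 := ⟨p - 1, by omega⟩
  let n : ZMod p × ZMod p → ℕ := fun z => (J.filter fun i => z.1 * x i + z.2 * y i = 1).card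
  have hsum1 : ∑ z, n z = J.card * p := by
    simp only [n, Finset.card_filter]
    rw [Finset.sum_comm]
    rw [← smul_eq_mul, ← Finset.sum_const]
    apply Finset.sum_congr rfl
    intro i hi
    rw [← Finset.card_filter]
    exact card_line (x i) (y i) (hx i hi) 1
  have hsum2 : ∑ z, n z * n z ≤ J.card * p + J.card * (J.card - 1) := by
    have h1 : ∑ z, n z * n z = ∑ i ∈ J, ∑ j ∈ J, (Finset.univ.filter fun z : ZMod p × ZMod p =>
        z.1 * x i + z.2 * y i = 1 ∧ z.1 * x j + z.2 * y j = 1).card := by
      simp only [n, Finset.card_filter]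
      simp only [Finset.sum_mul_sum]
      rw [Finset.sum_comm]
      apply Finset.sum_congr rfl
      intro i _
      rw [Finset.sum_comm]
      apply Finset.sum_congr rfl
      intro j _
      apply Finset.sum_congr rfl
      intro z _
      by_cases h1 : z.1 * x i + z.2 * y i = 1 <;> by_cases h2 : z.1 * x j + z.2 * y j = 1 <;>
        simp [h1, h2]
    rw [h1]
    have h2 : ∀ i ∈ J, ∑ j ∈ J, (Finset.univ.filter fun z : ZMod p × ZMod p =>
        z.1 * x i + z.2 * y i = 1 ∧ z.1 * x j + z.2 * y j = 1).card ≤ p + (J.card - 1) := by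
      intro i hi
      rw [← Finset.add_sum_erase J _ hi]
      apply Nat.add_le_add
      · refine le_trans (Finset.card_le_card ?_) (card_line (x i) (y i) (hx i hi) 1).le
        intro z hz
        simp only [Finset.mem_filter, Finset.mem_univ, true_and] at hz ⊢
        exact hz.1
      · rw [← Finset.card_erase_of_mem hi, Finset.card_eq_sum_ones (J.erase i)]
        apply Finset.sum_le_sum
        intro j hj
        rw [Finset.mem_erase] at hj
        rw [Finset.card_le_one]
        intro z hz z' hz'
        simp only [Finset.mem_filter, Finset.mem_univ, true_and] at hz hz'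
        have hxi := hx i hi
        have e1 : (z.1 - z'.1) * x i + (z.2 - z'.2) * y i = 0 := by
          linear_combination hz.1 - hz'.1
        have e2 : (z.1 - z'.1) * x j + (z.2 - z'.2) * y j = 0 := by
          linear_combination hz.2 - hz'.2
        by_cases hd : z.2 - z'.2 = 0
        · rw [hd, zero_mul, add_zero] at e1
          have e3 : z.1 - z'.1 = 0 := (mul_eq_zero.1 e1).resolve_right hxi
          exact Prod.ext (sub_eq_zero.1 e3) (sub_eq_zero.1 hd)
        · exfalso
          apply hj.1
          set d1 := z.1 - z'.1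
          set d2 := z.2 - z'.2
          have f1 : y i = - (d1 / d2) * x i := by
            field_simp
            linear_combination e1
          have f2 : y j = - (d1 / d2) * x j := by
            field_simp
            linear_combination e2
          have g1 : x i * (z.1 - z.2 * (d1 / d2)) = 1 := by
            have := hz.1
            rw [f1] at this
            linear_combination this
          have g2 : x j * (z.1 - z.2 * (d1 / d2)) = 1 := by
            have := hz.2
            rw [f2] at this
            linear_combination this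
          have g3 : (z.1 - z.2 * (d1 / d2)) ≠ 0 := right_ne_zero_of_mul_eq_one g1
          have g4 : x i = x j := mul_right_cancel₀ g3 (g1.trans g2.symm)
          refine (hinj i hi j hj.2 g4 ?_).symm
          rw [f1, f2, g4]
    refine (Finset.sum_le_sum h2).trans ?_
    rw [Finset.sum_const, smul_eq_mul, mul_add]
  have hpt : ∀ z, (s + 2) * n z ≤ n z * n z + (s + 1) * (if z ∈ E then 0 else 1) := by
    intro z
    have h1 : z ∈ E ↔ n z = 0 := by
      simp only [hE, n, Finset.card_eq_zero, Finset.filter_eq_empty_iff, ne_eq]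
    by_cases hz : z ∈ E
    · rw [h1.1 hz]; simp
    · rw [if_neg hz]
      have h2 : n z ≠ 0 := fun h => hz (h1.2 h)
      rcases hN z with h3 | h3
      · have h4 : n z = 1 := by
          have : n z ≤ 1 := h3
          omega
        rw [h4]
        omega
      · have h4 : s + 1 ≤ n z := h3
        nlinarith
  have htot := Finset.sum_le_sum (fun z (_ : z ∈ (Finset.univ : Finset (ZMod p × ZMod p))) => hpt z)
  rw [← Finset.mul_sum, Finset.sum_add_distrib, ← Finset.mul_sum, hsum1] at htot
  have hU : ∑ z : ZMod p × ZMod p, (if z ∈ E then 0 else 1) + E.card = p * p := by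
    have h1 : ∑ z : ZMod p × ZMod p, (if z ∈ E then 0 else 1) = (Eᶜ).card := by
      have h2 : Eᶜ = Finset.univ.filter (fun z => z ∉ E) := by ext z; simp
      rw [h2, Finset.card_filter]
      apply Finset.sum_congr rfl
      intro z _
      by_cases hz : z ∈ E <;> simp [hz]
    rw [h1, add_comm, Finset.card_add_card_compl, Fintype.card_prod, ZMod.card]
  rw [hJ] at htot hsum2
  subst hq
  simp only [Nat.add_sub_cancel] at *
  set U := ∑ z : ZMod (q + 1) × ZMod (q + 1), (if z ∈ E then 0 else 1) with hUdef
  rcases q with _ | q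
  · exact absurd hp.1 (by norm_num)
  · simp only [Nat.add_sub_cancel] at *
    nlinarith

/-- A line missing a point of the set contains few points of the set. -/
theorem card_secant_le [Fintype ι] (x y : ι → ZMod p) {s : ℕ}
    (hinj : ∀ i j, x i = x j → y i = y j → i = j)
    (hN : ∀ α β γ : ZMod p, (α ≠ 0 ∨ β ≠ 0) →
      (Finset.univ.filter fun i => α * x i + β * y i = γ).card ≤ 1 ∨
      s + 1 ≤ (Finset.univ.filter fun i => α * x i + β * y i = γ).card)
    (α β γ : ZMod p) (i₁ : ι) (h₁ : α * x i₁ + β * y i₁ ≠ γ) :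
    (Finset.univ.filter fun i => α * x i + β * y i = γ).card * s ≤ Fintype.card ι - 1 := by
  classical
  set Λ := Finset.univ.filter fun i => α * x i + β * y i = γ with hΛ
  let C : ι → Finset ι := fun j => (Finset.univ.erase i₁).filter fun i =>
    (y j - y i₁) * x i + (-(x j - x i₁)) * y i = (y j - y i₁) * x i₁ + (-(x j - x i₁)) * y i₁
  have hC : ∀ j ∈ Λ, s ≤ (C j).card := by
    intro j hj
    have hj' : α * x j + β * y j = γ := (Finset.mem_filter.1 hj).2
    have hne : j ≠ i₁ := by
      rintro rfl
      exact h₁ hj'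
    have hnz : y j - y i₁ ≠ 0 ∨ -(x j - x i₁) ≠ 0 := by
      by_contra hcon
      push Not at hcon
      apply hne
      apply hinj
      · linear_combination -hcon.2
      · linear_combination hcon.1
    have hfull : (Finset.univ.filter fun i =>
        (y j - y i₁) * x i + (-(x j - x i₁)) * y i =
          (y j - y i₁) * x i₁ + (-(x j - x i₁)) * y i₁) = insert i₁ (C j) := by
      ext i
      simp only [C, Finset.mem_filter, Finset.mem_univ, true_and, Finset.mem_insert,
        Finset.mem_erase]
      constructor
      · intro h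
        by_cases hi : i = i₁
        · exact Or.inl hi
        · exact Or.inr ⟨⟨hi, trivial⟩, h⟩
      · rintro (rfl | h)
        · rfl
        · exact h.2
    have hnot : i₁ ∉ C j := by simp [C]
    have hjC : j ∈ C j := by
      simp only [C, Finset.mem_filter, Finset.mem_erase, Finset.mem_univ]
      refine ⟨⟨hne, trivial⟩, ?_⟩
      ring
    have h2 := hN (y j - y i₁) (-(x j - x i₁)) ((y j - y i₁) * x i₁ + (-(x j - x i₁)) * y i₁) hnz
    rw [hfull, Finset.card_insert_of_notMem hnot] at h2
    have h3 : 0 < (C j).card := Finset.card_pos.2 ⟨j, hjC⟩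
    omega
  have hdisj : ∀ j ∈ Λ, ∀ j' ∈ Λ, j ≠ j' → Disjoint (C j) (C j') := by
    intro j hj j' hj' hjj
    rw [Finset.disjoint_left]
    intro i hi hi'
    simp only [C, Finset.mem_filter, Finset.mem_erase, Finset.mem_univ, and_true] at hi hi'
    have a1 : α * x j + β * y j = γ := (Finset.mem_filter.1 hj).2
    have a2 : α * x j' + β * y j' = γ := (Finset.mem_filter.1 hj').2
    apply hjj
    -- the vector from `i₁` to `i`
    set u := x i - x i₁ with hu
    set v := y i - y i₁ with hv
    have b1 : (y j - y i₁) * u = (x j - x i₁) * v := by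
      linear_combination hi.2
    have b2 : (y j' - y i₁) * u = (x j' - x i₁) * v := by
      linear_combination hi'.2
    have c1 : α * (x j - x i₁) + β * (y j - y i₁) ≠ 0 := by
      intro h
      apply h₁
      linear_combination a1 - h
    have c12 : α * (x j - x i₁) + β * (y j - y i₁) = α * (x j' - x i₁) + β * (y j' - y i₁) := by
      linear_combination a1 - a2
    have hw : α * u + β * v ≠ 0 := by
      intro hw
      by_cases hu0 : u = 0
      · have hv0 : v ≠ 0 := by
          intro hv0
          exact hi.1 (hinj _ _ (sub_eq_zero.1 hu0) (sub_eq_zero.1 hv0))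
        rw [hu0, mul_zero] at b1
        have hxj : x j - x i₁ = 0 := by
          rcases mul_eq_zero.1 b1.symm with h | h
          · exact h
          · exact absurd h hv0
        rw [hu0, mul_zero, zero_add] at hw
        have hβ : β = 0 := (mul_eq_zero.1 hw).resolve_right hv0
        apply c1
        rw [hxj, hβ]; ring
      · apply c1
        have h5 : u * (α * (x j - x i₁) + β * (y j - y i₁)) = 0 := by
          linear_combination (x j - x i₁) * hw + β * b1
        exact (mul_eq_zero.1 h5).resolve_left hu0
    have d1 : (α * u + β * v) * (x j - x i₁) = u * (α * (x j - x i₁) + β * (y j - y i₁)) := by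
      linear_combination -β * b1
    have d2 : (α * u + β * v) * (x j' - x i₁) = u * (α * (x j' - x i₁) + β * (y j' - y i₁)) := by
      linear_combination -β * b2
    have d3 : (α * u + β * v) * (y j - y i₁) = v * (α * (x j - x i₁) + β * (y j - y i₁)) := by
      linear_combination α * b1
    have d4 : (α * u + β * v) * (y j' - y i₁) = v * (α * (x j' - x i₁) + β * (y j' - y i₁)) := by
      linear_combination α * b2
    apply hinj
    · have : x j - x i₁ = x j' - x i₁ := by
        apply mul_left_cancel₀ hw
        rw [d1, d2, c12]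
      linear_combination this
    · have : y j - y i₁ = y j' - y i₁ := by
        apply mul_left_cancel₀ hw
        rw [d3, d4, c12]
      linear_combination this
  calc Λ.card * s = ∑ j ∈ Λ, s := by rw [Finset.sum_const, smul_eq_mul]
    _ ≤ ∑ j ∈ Λ, (C j).card := Finset.sum_le_sum hC
    _ = (Λ.biUnion C).card := (Finset.card_biUnion hdisj).symm
    _ ≤ (Finset.univ.erase i₁).card := by
      apply Finset.card_le_card
      intro i hi
      rw [Finset.mem_biUnion] at hi
      obtain ⟨j, _, hij⟩ := hi
      exact (Finset.mem_filter.1 hij).1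
    _ = Fintype.card ι - 1 := by
      rw [Finset.card_erase_of_mem (Finset.mem_univ _), Finset.card_univ]

theorem arith_key {s e N : ℕ} (hs : 10 ≤ s)
    (h : (s + 1) * N ≤ s * (s * e) + s + (s * e) * (s * e) + 1) :
    2 * N < (((s - 1) * e + 2) / 2 + 1) * (((s - 1) * e + 2) / 2 + 2) := by
  obtain ⟨r, rfl⟩ : ∃ r, s = r + 10 := ⟨s - 10, by omega⟩
  have h1 : r + 10 - 1 = r + 9 := by omega
  rw [h1]
  set k := ((r + 9) * e + 2) / 2 with hk
  have hk2 : (r + 9) * e + 1 ≤ 2 * k := by omega
  have h3 : ((r + 9) * e + 3) * ((r + 9) * e + 5) ≤ 4 * ((k + 1) * (k + 2)) := by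
    have a1 : (r + 9) * e + 3 ≤ 2 * (k + 1) := by omega
    have a2 : (r + 9) * e + 5 ≤ 2 * (k + 2) := by omega
    calc ((r + 9) * e + 3) * ((r + 9) * e + 5) ≤ (2 * (k + 1)) * (2 * (k + 2)) :=
          Nat.mul_le_mul a1 a2
      _ = 4 * ((k + 1) * (k + 2)) := by ring
  by_contra hcon
  push Not at hcon
  have h4 : (r + 11) * (((r + 9) * e + 3) * ((r + 9) * e + 5)) ≤
      8 * ((r + 10) * ((r + 10) * e) + (r + 10) + ((r + 10) * e) * ((r + 10) * e) + 1) := by
    calc (r + 11) * (((r + 9) * e + 3) * ((r + 9) * e + 5)) ≤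
          (r + 11) * (4 * ((k + 1) * (k + 2))) := Nat.mul_le_mul_left _ h3
      _ ≤ (r + 11) * (4 * (2 * N)) := by gcongr
      _ = 8 * ((r + 10 + 1) * N) := by ring
      _ ≤ _ := Nat.mul_le_mul_left _ h
  rcases e with _ | e
  · nlinarith
  · have h5 : (r + 11) * (((r + 9) * (e + 1) + 3) * ((r + 9) * (e + 1) + 5)) =
      8 * ((r + 10) * ((r + 10) * (e + 1)) + (r + 10) +
        ((r + 10) * (e + 1)) * ((r + 10) * (e + 1)) + 1) +
      ((r ^ 3 + 21 * r ^ 2 + 119 * r + 91) * (e ^ 2 + 2 * e + 1) + 7 * (r + 11)) - 8 * (e + 1) := by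
      apply Nat.eq_sub_of_add_eq
      ring
    have h6 : 8 * (e + 1) < (r ^ 3 + 21 * r ^ 2 + 119 * r + 91) * (e ^ 2 + 2 * e + 1) := by
      have : 91 * (e ^ 2 + 2 * e + 1) ≤
          (r ^ 3 + 21 * r ^ 2 + 119 * r + 91) * (e ^ 2 + 2 * e + 1) :=
        Nat.mul_le_mul_right _ (by omega)
      nlinarith
    omega

/-- The plane theorem in adapted coordinates. -/
theorem plane_aux [Fintype ι] (x y : ι → ZMod p) (hcard : Fintype.card ι = p) {s e : ℕ}
    (hs : 10 ≤ s) (hpe : p = s * e + 1)
    (hinj : ∀ i j, x i = x j → y i = y j → i = j)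
    (hN : ∀ α β γ : ZMod p, (α ≠ 0 ∨ β ≠ 0) →
      (Finset.univ.filter fun i => α * x i + β * y i = γ).card ≤ 1 ∨
      s + 1 ≤ (Finset.univ.filter fun i => α * x i + β * y i = γ).card)
    (i₀ : ι) (hx0 : x i₀ = 0) (hy0 : y i₀ = 0) (hx : ∀ i, i ≠ i₀ → x i ≠ 0) :
    ∃ α β γ : ZMod p, (α ≠ 0 ∨ β ≠ 0) ∧ ∀ i, α * x i + β * y i = γ := by
  classical
  set J := (Finset.univ : Finset ι).erase i₀ with hJdef
  have hJ : J.card = p - 1 := by
    rw [hJdef, Finset.card_erase_of_mem (Finset.mem_univ _), Finset.card_univ, hcard]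
  have hJse : J.card = s * e := by rw [hJ, hpe]; omega
  have hxJ : ∀ i ∈ J, x i ≠ 0 := fun i hi => hx i (Finset.mem_erase.1 hi).1
  -- filters over `J` and over everything
  have hfil0 : ∀ α β : ZMod p, (Finset.univ.filter fun i => α * x i + β * y i = 0).card =
      (J.filter fun i => α * x i + β * y i = 0).card + 1 := by
    intro α β
    rw [hJdef, Finset.filter_erase, Finset.card_erase_of_mem]
    · have : 0 < (Finset.univ.filter fun i => α * x i + β * y i = 0).card := by
        apply Finset.card_pos.2
        exact ⟨i₀, by simp [hx0, hy0]⟩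
      omega
    · simp [hx0, hy0]
  have hfil1 : ∀ α β : ZMod p, (Finset.univ.filter fun i => α * x i + β * y i = 1) =
      (J.filter fun i => α * x i + β * y i = 1) := by
    intro α β
    rw [hJdef, Finset.filter_erase, Finset.erase_eq_of_notMem]
    simp [hx0, hy0]
  obtain ⟨E, hE⟩ : ∃ E : Finset (ZMod p × ZMod p), ∀ z : ZMod p × ZMod p,
      z ∈ E ↔ ∀ i ∈ J, z.1 * x i + z.2 * y i ≠ 1 :=
    ⟨Finset.univ.filter fun z : ZMod p × ZMod p => ∀ i ∈ J, z.1 * x i + z.2 * y i ≠ 1,
      fun z => by simp⟩
  have hcE := card_E_le J x y (s := s) hJ hxJ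
    (fun i _ j _ h1 h2 => hinj i j h1 h2) (by
      intro z
      by_cases hz : z.1 ≠ 0 ∨ z.2 ≠ 0
      · rw [← hfil1]
        exact hN _ _ _ hz
      · push Not at hz
        left
        rw [hz.1, hz.2]
        simp) E hE
  have hpse : p - 1 = s * e := by omega
  rw [hpse] at hcE
  have hkey := arith_key hs hcE
  set k := ((s - 1) * e + 2) / 2 with hk
  have hk2 : 2 * k ≤ (s - 1) * e + 2 := by omega
  have hse : s * e = (s - 1) * e + e := by
    obtain ⟨s', rfl⟩ := Nat.exists_eq_add_of_le' (show 1 ≤ s by omega)
    simp [Nat.succ_mul]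
  have he : 1 ≤ e := by
    rcases e with _ | e
    · have := hp.1.two_le
      omega
    · omega
  have h9 : 9 * e ≤ (s - 1) * e := Nat.mul_le_mul_right _ (by omega)
  have hkp : k < p := by omega
  obtain ⟨k', A, B, H, hk', hA, dA, dB, dH, hf⟩ := exists_lacunary J x y hJ E (by
    intro z hz
    rw [hE] at hz
    push Not at hz
    exact hz) k hkey hkp
  obtain ⟨t, ht⟩ := one_var hxJ hJse hpe (by omega) (by
    intro t
    unfold mlt
    have h1 : (J.filter fun i => x i * t + y i = 0) = (J.filter fun i => t * x i + 1 * y i = 0) := by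
      apply Finset.filter_congr
      intro i _
      rw [mul_comm, one_mul]
    rw [h1]
    have h2 := hN t 1 0 (Or.inr one_ne_zero)
    rw [hfil0] at h2
    omega) hA dA dB dH (by omega) (by omega) hf
  refine ⟨t, 1, 0, Or.inr one_ne_zero, ?_⟩
  by_contra hcon
  push Not at hcon
  obtain ⟨i₁, h₁⟩ := hcon
  have h3 := card_secant_le x y hinj hN t 1 0 i₁ h₁
  rw [hfil0, hcard, hpse] at h3
  have h4 : (J.filter fun i => t * x i + 1 * y i = 0).card = mlt J x y t := by
    unfold mlt
    congr 1
    apply Finset.filter_congr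
    intro i _
    rw [mul_comm, one_mul]
  rw [h4, mul_comm] at h3
  have h5 : mlt J x y t + 1 ≤ e := Nat.le_of_mul_le_mul_left h3 (by omega)
  omega

end counting

/-- **The plane theorem.** A set of `p` points of the affine plane over the prime field with `p`
elements, such that every line meets it in at most one or in at least `s + 1` points, where
`s` divides `p - 1` and `s ≥ 10`, is a line. -/
theorem plane {ι : Type*} [Fintype ι] (x y : ι → ZMod p) (hcard : Fintype.card ι = p) {s e : ℕ}
    (hs : 10 ≤ s) (hpe : p = s * e + 1)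
    (hinj : ∀ i j, x i = x j → y i = y j → i = j)
    (hN : ∀ α β γ : ZMod p, (α ≠ 0 ∨ β ≠ 0) →
      (Finset.univ.filter fun i => α * x i + β * y i = γ).card ≤ 1 ∨
      s + 1 ≤ (Finset.univ.filter fun i => α * x i + β * y i = γ).card) :
    ∃ α β γ : ZMod p, (α ≠ 0 ∨ β ≠ 0) ∧ ∀ i, α * x i + β * y i = γ := by
  classical
  have hp0 : 0 < Fintype.card ι := by rw [hcard]; exact hp.1.pos
  obtain ⟨i₀⟩ := Fintype.card_pos_iff.1 hp0
  -- a good first coordinate
  obtain ⟨a, b, hab⟩ : ∃ a b : ZMod p, ∀ i, i ≠ i₀ → a * (x i - x i₀) + b * (y i - y i₀) ≠ 0 := by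
    by_contra hcon
    push Not at hcon
    have h1 : (Finset.univ : Finset (ZMod p × ZMod p)) ⊆
        (Finset.univ.erase i₀).biUnion fun i => Finset.univ.filter fun z : ZMod p × ZMod p =>
          z.1 * (x i - x i₀) + z.2 * (y i - y i₀) = 0 := by
      intro z _
      obtain ⟨i, hi, h⟩ := hcon z.1 z.2
      rw [Finset.mem_biUnion]
      exact ⟨i, Finset.mem_erase.2 ⟨hi, Finset.mem_univ _⟩, by simp [h]⟩
    have h2 := Finset.card_le_card h1
    have h3 : ∀ i ∈ Finset.univ.erase i₀, (Finset.univ.filter fun z : ZMod p × ZMod p =>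
          z.1 * (x i - x i₀) + z.2 * (y i - y i₀) = 0).card ≤ p := by
      intro i hi
      have hi' := (Finset.mem_erase.1 hi).1
      by_cases hxi : x i - x i₀ = 0
      · have hyi : y i - y i₀ ≠ 0 := by
          intro hyi
          exact hi' (hinj _ _ (sub_eq_zero.1 hxi) (sub_eq_zero.1 hyi))
        have h4 : (Finset.univ.filter fun z : ZMod p × ZMod p =>
          z.1 * (x i - x i₀) + z.2 * (y i - y i₀) = 0) ⊆
          (Finset.univ : Finset (ZMod p)).image fun t => (t, 0) := by
          intro z hz
          simp only [Finset.mem_filter, Finset.mem_univ, true_and, hxi, mul_zero, zero_add] at hz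
          have := (mul_eq_zero.1 hz).resolve_right hyi
          rw [Finset.mem_image]
          exact ⟨z.1, Finset.mem_univ _, by rw [← this]⟩
        refine (Finset.card_le_card h4).trans ?_
        refine Finset.card_image_le.trans ?_
        rw [Finset.card_univ, ZMod.card]
      · exact (card_line _ _ hxi 0).le
    have h5 := h2.trans (Finset.card_biUnion_le_card_mul _ _ p h3)
    rw [Finset.card_univ, Fintype.card_prod, ZMod.card, Finset.card_erase_of_mem
      (Finset.mem_univ _), Finset.card_univ, hcard] at h5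
    have h6 := hp.1.pos
    have h7 : (p - 1) * p < p * p := Nat.mul_lt_mul_of_pos_right (by omega) h6
    omega
  have hab0 : a ≠ 0 ∨ b ≠ 0 := by
    have h1 : 1 < Fintype.card ι := by rw [hcard]; exact hp.1.one_lt
    obtain ⟨i, hi⟩ := Fintype.exists_ne_of_one_lt_card h1 i₀
    have := hab i hi
    by_contra hcon
    push Not at hcon
    rw [hcon.1, hcon.2] at this
    simp at this
  obtain ⟨c, d, hdet⟩ : ∃ c d : ZMod p, a * d - b * c ≠ 0 := by
    rcases hab0 with h | h
    · exact ⟨0, 1, by simpa using h⟩
    · exact ⟨1, 0, by simpa using h⟩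
  have hlin : ∀ α β : ZMod p, (α ≠ 0 ∨ β ≠ 0) → (α * a + β * c ≠ 0 ∨ α * b + β * d ≠ 0) := by
    intro α β h
    by_contra hcon
    push Not at hcon
    have h1 : α * (a * d - b * c) = 0 := by
      linear_combination d * hcon.1 - c * hcon.2
    have h2 : β * (a * d - b * c) = 0 := by
      linear_combination a * hcon.2 - b * hcon.1
    rcases h with h | h
    · exact h ((mul_eq_zero.1 h1).resolve_right hdet)
    · exact h ((mul_eq_zero.1 h2).resolve_right hdet)
  obtain ⟨α, β, γ, h0, h⟩ := plane_aux
    (fun i => a * (x i - x i₀) + b * (y i - y i₀)) (fun i => c * (x i - x i₀) + d * (y i - y i₀))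
    hcard hs hpe (by
      intro i j h1 h2
      apply hinj
      · have : (a * d - b * c) * (x i - x j) = 0 := by
          linear_combination d * h1 - b * h2
        exact sub_eq_zero.1 ((mul_eq_zero.1 this).resolve_left hdet)
      · have : (a * d - b * c) * (y i - y j) = 0 := by
          linear_combination a * h2 - c * h1
        exact sub_eq_zero.1 ((mul_eq_zero.1 this).resolve_left hdet))
    (by
      intro α β γ h
      have h1 := hN _ _ (γ + (α * a + β * c) * x i₀ + (α * b + β * d) * y i₀) (hlin α β h)
      have h2 : (Finset.univ.filter fun i => α * (a * (x i - x i₀) + b * (y i - y i₀)) +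
          β * (c * (x i - x i₀) + d * (y i - y i₀)) = γ) =
          (Finset.univ.filter fun i => (α * a + β * c) * x i + (α * b + β * d) * y i =
            γ + (α * a + β * c) * x i₀ + (α * b + β * d) * y i₀) := by
        apply Finset.filter_congr
        intro i _
        constructor
        · intro h
          linear_combination h
        · intro h
          linear_combination h
      rw [h2]
      exact h1) i₀ (by simp) (by simp) hab
  refine ⟨α * a + β * c, α * b + β * d, γ + (α * a + β * c) * x i₀ + (α * b + β * d) * y i₀,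
    hlin α β h0, ?_⟩
  intro i
  linear_combination h i

end Pool.Agent.H43.Aff
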