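import Pool.Agent.H43.AffPlane

set_option autoImplicit false

/-!
# Space part: a set of `p` points without short hyperplane sections is a line
-/

namespace Pool.Agent.H43.Aff

open Finset

variable {p : ℕ} [hp : Fact p.Prime] {d : ℕ}

theorem mul_card_dot (v : Fin d → ZMod p) (hv : v ≠ 0) :
    p * (Finset.univ.filter fun c : Fin d → ZMod p => c ⬝ᵥ v = 0).card = p ^ d := by
  classical
  obtain ⟨l, hl⟩ : ∃ l, v l ≠ 0 := by
    by_contra hcon
    push Not at hcon
    exact hv (funext hcon)
  have h1 : ∀ γ : ZMod p, (Finset.univ.filter fun c : Fin d → ZMod p => c ⬝ᵥ v = γ).card =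
      (Finset.univ.filter fun c : Fin d → ZMod p => c ⬝ᵥ v = 0).card := by
    intro γ
    have hw : (Pi.single l (γ / v l) : Fin d → ZMod p) ⬝ᵥ v = γ := by
      rw [single_dotProduct]
      field_simp
    apply Finset.card_bij (fun c _ => c - Pi.single l (γ / v l))
    · intro c hc
      simp only [Finset.mem_filter, Finset.mem_univ, true_and] at hc ⊢
      rw [sub_dotProduct, hc, hw, sub_self]
    · intro c _ c' _ h
      exact sub_left_injective h
    · intro c hc
      simp only [Finset.mem_filter, Finset.mem_univ, true_and] at hc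
      refine ⟨c + Pi.single l (γ / v l), ?_, by simp⟩
      simp only [Finset.mem_filter, Finset.mem_univ, true_and]
      rw [add_dotProduct, hc, hw, zero_add]
  have h2 : (Finset.univ : Finset (Fin d → ZMod p)).card =
      ∑ γ : ZMod p, (Finset.univ.filter fun c : Fin d → ZMod p => c ⬝ᵥ v = γ).card :=
    Finset.card_eq_sum_card_fiberwise (fun _ _ => Finset.mem_coe.2 (Finset.mem_univ _))
  rw [Finset.sum_congr rfl (fun γ _ => h1 γ), Finset.sum_const, Finset.card_univ, Finset.card_univ,
    ZMod.card, smul_eq_mul] at h2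
  rw [← h2, Fintype.card_fun, ZMod.card, Fintype.card_fin]

/-- The set of colliding ordered pairs of `S` under the functional `c`. -/
def coll (S : Finset (Fin d → ZMod p)) (c : Fin d → ZMod p) :
    Finset ((Fin d → ZMod p) × (Fin d → ZMod p)) :=
  (S ×ˢ S).filter fun z => z.1 ≠ z.2 ∧ c ⬝ᵥ z.1 = c ⬝ᵥ z.2

theorem exists_few_coll (S : Finset (Fin d → ZMod p)) (hS : S.card = p) :
    ∃ c : Fin d → ZMod p, (coll S c).card < p - 1 := by
  classical
  have hp2 := hp.1.two_le
  by_contra hcon
  push Not at hcon
  have hoff : ((S ×ˢ S).filter fun z => z.1 ≠ z.2).card = p * (p - 1) := by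
    have h1 : ((S ×ˢ S).filter fun z => z.1 ≠ z.2) = S.offDiag := by
      ext z
      simp only [Finset.mem_filter, Finset.mem_product, Finset.mem_offDiag, and_assoc]
    rw [h1, Finset.offDiag_card, hS, Nat.mul_sub, mul_one]
  have h0 : (coll S 0).card = p * (p - 1) := by
    rw [← hoff]
    unfold coll
    congr 1
    apply Finset.filter_congr
    intro z _
    simp
  have hsum : p * ∑ c, (coll S c).card = p * ((p - 1) * p ^ d) := by
    have h1 : ∑ c, (coll S c).card = ∑ z ∈ (S ×ˢ S).filter (fun z => z.1 ≠ z.2),
        (Finset.univ.filter fun c : Fin d → ZMod p => c ⬝ᵥ (z.1 - z.2) = 0).card := by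
      have h2 : ∀ c : Fin d → ZMod p, (coll S c).card =
          ∑ z ∈ (S ×ˢ S).filter (fun z => z.1 ≠ z.2), if c ⬝ᵥ (z.1 - z.2) = 0 then 1 else 0 := by
        intro c
        rw [← Finset.card_filter, Finset.filter_filter]
        unfold coll
        congr 1
        apply Finset.filter_congr
        intro z _
        rw [dotProduct_sub, sub_eq_zero]
      rw [Finset.sum_congr rfl (fun c _ => h2 c), Finset.sum_comm]
      apply Finset.sum_congr rfl
      intro z _
      rw [Finset.card_filter]
    rw [h1, Finset.mul_sum]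
    have h3 : ∀ z ∈ (S ×ˢ S).filter (fun z => z.1 ≠ z.2),
        p * (Finset.univ.filter fun c : Fin d → ZMod p => c ⬝ᵥ (z.1 - z.2) = 0).card = p ^ d := by
      intro z hz
      exact mul_card_dot _ (sub_ne_zero.2 (Finset.mem_filter.1 hz).2)
    rw [Finset.sum_congr rfl h3, Finset.sum_const, hoff, smul_eq_mul]
    ring
  have hsum' : ∑ c, (coll S c).card = (p - 1) * p ^ d := Nat.eq_of_mul_eq_mul_left hp.1.pos hsum
  have hlt : ∑ _c : Fin d → ZMod p, (p - 1) < ∑ c, (coll S c).card := by
    apply Finset.sum_lt_sum (fun c _ => hcon c)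
    refine ⟨0, Finset.mem_univ _, ?_⟩
    rw [h0]
    have : 1 * (p - 1) < p * (p - 1) := Nat.mul_lt_mul_of_pos_right (by omega) (by omega)
    omega
  rw [hsum', Finset.sum_const, Finset.card_univ, Fintype.card_fun, ZMod.card, Fintype.card_fin,
    smul_eq_mul, mul_comm] at hlt
  exact lt_irrefl _ hlt

/-- **The space theorem.** A set `S` of `p` points of `F_p^d` such that every hyperplane meets it in
at most one or at least `s + 1` points (`s ≥ 10` a divisor of `p - 1`) is a line. -/
theorem space (S : Finset (Fin d → ZMod p)) (hS : S.card = p) {s e : ℕ}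
    (hs : 10 ≤ s) (hpe : p = s * e + 1)
    (hH : ∀ c : Fin d → ZMod p, c ≠ 0 → ∀ γ : ZMod p, (S.filter fun v => c ⬝ᵥ v = γ).card ≤ 1 ∨
      s + 1 ≤ (S.filter fun v => c ⬝ᵥ v = γ).card) :
    ∃ a b : Fin d → ZMod p, a ≠ 0 ∧ (S : Set (Fin d → ZMod p)) = {x | ∃ τ : ZMod p, x = b + τ • a} := by
  classical
  have hp2 := hp.1.two_le
  obtain ⟨c, hc⟩ := exists_few_coll S hS
  -- the submodule of functionals which are affine functions of `c` on `S`
  let W : Submodule (ZMod p) (Fin d → ZMod p) :=
    { carrier := {c' | ∃ a b : ZMod p, ∀ u ∈ S, c' ⬝ᵥ u = a * (c ⬝ᵥ u) + b}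
      add_mem' := by
        rintro c₁ c₂ ⟨a, b, h⟩ ⟨a', b', h'⟩
        refine ⟨a + a', b + b', fun u hu => ?_⟩
        rw [add_dotProduct, h u hu, h' u hu]
        ring
      zero_mem' := ⟨0, 0, fun u _ => by simp⟩
      smul_mem' := by
        rintro r c₁ ⟨a, b, h⟩
        refine ⟨r * a, r * b, fun u hu => ?_⟩
        rw [smul_dotProduct, h u hu, smul_eq_mul]
        ring }
  let Γ : Finset (Fin d → ZMod p) := Finset.univ.filter fun c' =>
    ∀ z ∈ coll S c, c' ⬝ᵥ (z.1 - z.2) ≠ 0
  -- good functionals lie in `W`
  have hΓW : ∀ c' ∈ Γ, c' ∈ W := by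
    intro c' hc'
    have hc'' : ∀ z ∈ coll S c, c' ⬝ᵥ (z.1 - z.2) ≠ 0 := (Finset.mem_filter.1 hc').2
    obtain ⟨α, β, γ, h0, h⟩ := plane (ι := S) (fun u => c ⬝ᵥ u.1) (fun u => c' ⬝ᵥ u.1)
      (by rw [Fintype.card_coe, hS]) hs hpe (by
        intro u v h1 h2
        by_contra hne
        apply hc'' (u.1, v.1)
        · simp only [coll, Finset.mem_filter, Finset.mem_product]
          exact ⟨⟨u.2, v.2⟩, fun h => hne (Subtype.ext h), h1⟩
        · rw [dotProduct_sub, sub_eq_zero]
          exact h2)
      (by
        intro α β γ hαβ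
        have h1 : (Finset.univ.filter fun u : S => α * (c ⬝ᵥ u.1) + β * (c' ⬝ᵥ u.1) = γ).card =
            (S.filter fun v => (α • c + β • c') ⬝ᵥ v = γ).card := by
          apply Finset.card_bij (fun u _ => u.1)
          · intro u hu
            simp only [Finset.mem_filter, Finset.mem_univ, true_and] at hu ⊢
            refine ⟨u.2, ?_⟩
            rw [add_dotProduct, smul_dotProduct, smul_dotProduct, smul_eq_mul, smul_eq_mul]
            exact hu
          · intro u _ v _ h
            exact Subtype.ext h
          · intro v hv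
            rw [Finset.mem_filter] at hv
            refine ⟨⟨v, hv.1⟩, ?_, rfl⟩
            simp only [Finset.mem_filter, Finset.mem_univ, true_and]
            have := hv.2
            rw [add_dotProduct, smul_dotProduct, smul_dotProduct, smul_eq_mul, smul_eq_mul] at this
            exact this
        rw [h1]
        by_cases h2 : α • c + β • c' = 0
        · rw [h2]
          by_cases hγ : γ = 0
          · right
            have h3 : (S.filter fun v => (0 : Fin d → ZMod p) ⬝ᵥ v = γ) = S := by
              apply Finset.filter_true_of_mem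
              intro v _
              rw [zero_dotProduct, hγ]
            rw [h3, hS, hpe]
            have : 1 ≤ e := by
              rcases e with _ | e
              · omega
              · omega
            nlinarith
          · left
            have h3 : (S.filter fun v => (0 : Fin d → ZMod p) ⬝ᵥ v = γ) = ∅ := by
              apply Finset.filter_false_of_mem
              intro v _
              rw [zero_dotProduct]
              exact fun h => hγ h.symm
            rw [h3]
            simp
        · exact hH _ h2 γ)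
    have hβ : β ≠ 0 := by
      intro hβ
      have hα : α ≠ 0 := by
        rcases h0 with h0 | h0
        · exact h0
        · exact absurd hβ h0
      -- `c` is constant on `S`
      have h1 : ∀ u ∈ S, ∀ v ∈ S, c ⬝ᵥ u = c ⬝ᵥ v := by
        intro u hu v hv
        have e1 := h ⟨u, hu⟩
        have e2 := h ⟨v, hv⟩
        rw [hβ] at e1 e2
        simp only [zero_mul, add_zero] at e1 e2
        exact mul_left_cancel₀ hα (e1.trans e2.symm)
      have h2 : coll S c = S.offDiag := by
        ext z
        simp only [coll, Finset.mem_filter, Finset.mem_product, Finset.mem_offDiag]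
        constructor
        · rintro ⟨⟨h3, h4⟩, h5, _⟩
          exact ⟨h3, h4, h5⟩
        · rintro ⟨h3, h4, h5⟩
          exact ⟨⟨h3, h4⟩, h5, h1 _ h3 _ h4⟩
      rw [h2, Finset.offDiag_card, hS] at hc
      have h3 : p * p - p = p * (p - 1) := by rw [Nat.mul_sub, mul_one]
      rw [h3] at hc
      have h4 : 1 * (p - 1) ≤ p * (p - 1) := Nat.mul_le_mul_right _ (by omega)
      omega
    refine ⟨-(α / β), γ / β, fun u hu => ?_⟩
    have e1 := h ⟨u, hu⟩
    simp only at e1
    field_simp
    linear_combination e1
  -- there are many good functionals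
  have hcompl : p * (Γᶜ).card ≤ (p - 2) * p ^ d := by
    have h1 : Γᶜ ⊆ (coll S c).biUnion fun z =>
        Finset.univ.filter fun c' : Fin d → ZMod p => c' ⬝ᵥ (z.1 - z.2) = 0 := by
      intro c' hc'
      simp only [Γ, Finset.mem_compl, Finset.mem_filter, Finset.mem_univ, true_and] at hc'
      push Not at hc'
      obtain ⟨z, hz, h⟩ := hc'
      rw [Finset.mem_biUnion]
      exact ⟨z, hz, by simpa using h⟩
    calc p * (Γᶜ).card ≤ p * ∑ z ∈ coll S c, (Finset.univ.filter
          fun c' : Fin d → ZMod p => c' ⬝ᵥ (z.1 - z.2) = 0).card :=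
          Nat.mul_le_mul_left _ ((Finset.card_le_card h1).trans Finset.card_biUnion_le)
      _ = ∑ z ∈ coll S c, p ^ d := by
        rw [Finset.mul_sum]
        apply Finset.sum_congr rfl
        intro z hz
        apply mul_card_dot
        simp only [coll, Finset.mem_filter] at hz
        exact sub_ne_zero.2 hz.2.1
      _ = (coll S c).card * p ^ d := by rw [Finset.sum_const, smul_eq_mul]
      _ ≤ (p - 2) * p ^ d := Nat.mul_le_mul_right _ (by omega)
  have hΓcard : p ^ d < p * Γ.card := by
    have h1 : Γ.card + (Γᶜ).card = p ^ d := by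
      rw [Finset.card_add_card_compl, Fintype.card_fun, ZMod.card, Fintype.card_fin]
    have h2 : p * Γ.card + p * (Γᶜ).card = p * p ^ d := by rw [← mul_add, h1]
    have h3 : (p - 2) * p ^ d + 2 * p ^ d = p * p ^ d := by
      rw [← add_mul]; congr 1; omega
    have h4 : 0 < p ^ d := pow_pos hp.1.pos _
    omega
  have hWtop : W = ⊤ := by
    by_contra hne
    have h1 : Module.finrank (ZMod p) W < d := by
      have := Submodule.finrank_lt hne
      rwa [Module.finrank_fin_fun] at this
    have h2 : Γ.card ≤ Fintype.card W := by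
      rw [← Fintype.card_coe]
      exact Fintype.card_le_of_injective (fun c' : Γ => (⟨c'.1, hΓW _ c'.2⟩ : W)) (by
        intro a b h
        apply Subtype.ext
        exact congrArg (fun w : W => w.1) h)
    have h3 : Fintype.card W = p ^ Module.finrank (ZMod p) W := by
      rw [Module.card_eq_pow_finrank (K := ZMod p), ZMod.card]
    have h4 : p * p ^ Module.finrank (ZMod p) W ≤ p ^ d := by
      rw [← pow_succ']
      exact Nat.pow_le_pow_right hp.1.pos h1
    have h5 : p * Γ.card ≤ p * p ^ Module.finrank (ZMod p) W :=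
      Nat.mul_le_mul_left _ (h2.trans h3.le)
    omega
  -- conclusion
  have hcoord : ∀ l : Fin d, ∃ a b : ZMod p, ∀ u ∈ S, u l = a * (c ⬝ᵥ u) + b := by
    intro l
    have h1 : (Pi.single l 1 : Fin d → ZMod p) ∈ W := by rw [hWtop]; trivial
    obtain ⟨a, b, h⟩ := h1
    refine ⟨a, b, fun u hu => ?_⟩
    rw [← h u hu, single_dotProduct, one_mul]
  choose a b hab using hcoord
  have hsub : S ⊆ (Finset.univ : Finset (ZMod p)).image fun τ => b + τ • a := by
    intro u hu
    rw [Finset.mem_image]
    refine ⟨c ⬝ᵥ u, Finset.mem_univ _, ?_⟩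
    funext l
    rw [Pi.add_apply, Pi.smul_apply, smul_eq_mul, hab l u hu]
    ring
  have hcardim : ((Finset.univ : Finset (ZMod p)).image fun τ => b + τ • a).card ≤ p := by
    refine Finset.card_image_le.trans ?_
    rw [Finset.card_univ, ZMod.card]
  have heq : S = (Finset.univ : Finset (ZMod p)).image fun τ => b + τ • a :=
    Finset.eq_of_subset_of_card_le hsub (by rw [hS]; exact hcardim)
  refine ⟨a, b, ?_, ?_⟩
  · rintro rfl
    have h1 : S.card ≤ 1 := by
      rw [heq, Finset.card_le_one]
      intro u hu v hv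
      rw [Finset.mem_image] at hu hv
      obtain ⟨τ, _, rfl⟩ := hu
      obtain ⟨τ', _, rfl⟩ := hv
      simp
    omega
  · ext x
    rw [heq]
    simp only [Finset.coe_image, Finset.coe_univ, Set.image_univ, Set.mem_range, Set.mem_ofPred_eq]
    constructor
    · rintro ⟨τ, rfl⟩
      exact ⟨τ, rfl⟩
    · rintro ⟨τ, rfl⟩
      exact ⟨τ, rfl⟩

end Pool.Agent.H43.Aff
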