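import Pool.Agent.H43.AffOne

set_option autoImplicit false

/-!
# Two-variable part: interpolation and the combinatorial Nullstellensatz
-/

namespace Pool.Agent.H43.Aff

open Finset

variable {p : ℕ} [hp : Fact p.Prime]

/-- the exponent vector `(i, j)` -/
noncomputable def mono (i j : ℕ) : Fin 2 →₀ ℕ := Finsupp.single 0 i + Finsupp.single 1 j

theorem mono_zero (i j : ℕ) : mono i j 0 = i := by simp [mono]
theorem mono_one (i j : ℕ) : mono i j 1 = j := by simp [mono]

theorem eq_mono (m : Fin 2 →₀ ℕ) : m = mono (m 0) (m 1) := by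
  ext l
  fin_cases l
  · exact (mono_zero _ _).symm
  · exact (mono_one _ _).symm

theorem mono_inj {i j i' j' : ℕ} (h : mono i j = mono i' j') : i = i' ∧ j = j' := by
  constructor
  · rw [← mono_zero i j, h, mono_zero]
  · rw [← mono_one i j, h, mono_one]

theorem sum_mono (m : Fin 2 →₀ ℕ) : (m.sum fun _ e => e) = m 0 + m 1 := by
  rw [Finsupp.sum_fintype _ _ (fun _ => rfl)]
  simp [Fin.sum_univ_two]

theorem degree_mono (i j : ℕ) : (mono i j).degree = i + j := by
  rw [Finsupp.degree_apply, Finset.sum_subset (Finset.subset_univ _)]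
  · rw [Fin.sum_univ_two, mono_zero, mono_one]
  · intro l _ hl
    simpa using hl

/-- The substitution `α = T β`, `β = β`. -/
noncomputable def Phi : MvPolynomial (Fin 2) (ZMod p) →ₐ[ZMod p] Polynomial (Polynomial (ZMod p)) :=
  MvPolynomial.aeval ![Polynomial.C Polynomial.X * Polynomial.X, Polynomial.X]

theorem coeff_Phi (G : MvPolynomial (Fin 2) (ZMod p)) (n i : ℕ) :
    ((Phi G).coeff n).coeff i = if i ≤ n then G.coeff (mono i (n - i)) else 0 := by
  induction G using MvPolynomial.induction_on' with
  | monomial m c =>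
    have h1 : Phi (MvPolynomial.monomial m c) =
        Polynomial.C (Polynomial.C c * Polynomial.X ^ (m 0)) * Polynomial.X ^ (m 0 + m 1) := by
      unfold Phi
      rw [MvPolynomial.aeval_monomial, Finsupp.prod_fintype _ _ (fun _ => pow_zero _),
        Fin.prod_univ_two]
      simp only [Matrix.cons_val_zero, Matrix.cons_val_one, Polynomial.C_mul, Polynomial.C_pow]
      have h2 : (algebraMap (ZMod p) (Polynomial (Polynomial (ZMod p)))) c =
          Polynomial.C (Polynomial.C c) := rfl
      rw [h2]
      ring
    rw [h1, Polynomial.coeff_C_mul, Polynomial.coeff_X_pow, MvPolynomial.coeff_monomial]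
    by_cases hn : n = m 0 + m 1
    · rw [if_pos hn, mul_one, Polynomial.coeff_C_mul, Polynomial.coeff_X_pow]
      by_cases hi : i = m 0
      · have h3 : m = mono i (n - i) := by
          rw [hi, hn, Nat.add_sub_cancel_left]; exact eq_mono m
        rw [if_pos hi, if_pos (by omega), if_pos h3, mul_one]
      · rw [if_neg hi, mul_zero]
        split_ifs with h3 h4
        · exfalso
          apply hi
          rw [h4, mono_zero]
        · rfl
        · rfl
    · rw [if_neg hn, mul_zero, Polynomial.coeff_zero]
      split_ifs with h3 h4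
      · exfalso
        apply hn
        rw [h4, mono_zero, mono_one]
        omega
      · rfl
      · rfl
  | add P Q hP hQ =>
    rw [map_add, Polynomial.coeff_add, Polynomial.coeff_add, hP, hQ, MvPolynomial.coeff_add]
    split_ifs
    · rfl
    · simp

/-- The homogeneous top part. -/
noncomputable def Rpol {ι : Type*} (J : Finset ι) (x y : ι → ZMod p) :
    MvPolynomial (Fin 2) (ZMod p) :=
  ∏ i ∈ J, (MvPolynomial.C (x i) * MvPolynomial.X 0 + MvPolynomial.C (y i) * MvPolynomial.X 1 - 1)

theorem Phi_Rpol {ι : Type*} (J : Finset ι) (x y : ι → ZMod p) :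
    Phi (Rpol J x y) =
      ∏ i ∈ J, (Polynomial.C (Polynomial.C (x i) * Polynomial.X + Polynomial.C (y i)) *
        Polynomial.X - 1) := by
  unfold Rpol
  rw [map_prod]
  apply Finset.prod_congr rfl
  intro i _
  have hC : ∀ c : ZMod p, Phi (MvPolynomial.C c) = Polynomial.C (Polynomial.C c) := by
    intro c
    unfold Phi
    rw [MvPolynomial.aeval_C]
    rfl
  have h0 : Phi (p := p) (MvPolynomial.X 0) = Polynomial.C Polynomial.X * Polynomial.X := by
    unfold Phi
    rw [MvPolynomial.aeval_X]
    rfl
  have h1 : Phi (p := p) (MvPolynomial.X 1) = Polynomial.X := by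
    unfold Phi
    rw [MvPolynomial.aeval_X]
    rfl
  rw [map_sub, map_add, map_mul, map_mul, map_one, hC, hC, h0, h1]
  simp only [Polynomial.C_add, Polynomial.C_mul]
  ring

theorem Phi_Rpol_factor (a : Polynomial (ZMod p)) :
    (Polynomial.C a * Polynomial.X - 1 : Polynomial (Polynomial (ZMod p))).natDegree ≤ 1 ∧
    (Polynomial.C a * Polynomial.X - 1 : Polynomial (Polynomial (ZMod p))).coeff 1 = a := by
  constructor
  · rw [Polynomial.natDegree_le_iff_coeff_eq_zero]
    intro N hN
    rw [Polynomial.coeff_sub, Polynomial.coeff_C_mul, Polynomial.coeff_X, Polynomial.coeff_one,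
      if_neg (by omega), if_neg (by omega)]
    simp
  · rw [Polynomial.coeff_sub, Polynomial.coeff_C_mul, Polynomial.coeff_X, Polynomial.coeff_one,
      if_pos rfl, if_neg (by omega)]
    simp

theorem natDegree_Phi_Rpol {ι : Type*} (J : Finset ι) (x y : ι → ZMod p) :
    (Phi (Rpol J x y)).natDegree ≤ J.card := by
  rw [Phi_Rpol]
  refine (Polynomial.natDegree_prod_le _ _).trans ?_
  rw [Finset.card_eq_sum_ones]
  exact Finset.sum_le_sum fun i _ => (Phi_Rpol_factor _).1

theorem coeff_Phi_Rpol {ι : Type*} (J : Finset ι) (x y : ι → ZMod p) :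
    (Phi (Rpol J x y)).coeff J.card = fpol J x y := by
  rw [Phi_Rpol]
  have h := Polynomial.coeff_prod_of_natDegree_le (s := J)
    (fun i => (Polynomial.C (Polynomial.C (x i) * Polynomial.X + Polynomial.C (y i)) *
        Polynomial.X - 1 : Polynomial (Polynomial (ZMod p)))) 1
    (fun i _ => (Phi_Rpol_factor _).1)
  rw [mul_one] at h
  rw [h]
  unfold fpol
  exact Finset.prod_congr rfl fun i _ => (Phi_Rpol_factor _).2

theorem totalDegree_Rpol {ι : Type*} (J : Finset ι) (x y : ι → ZMod p) :
    (Rpol J x y).totalDegree ≤ J.card := by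
  unfold Rpol
  refine (MvPolynomial.totalDegree_finsetProd _ _).trans ?_
  rw [Finset.card_eq_sum_ones]
  apply Finset.sum_le_sum
  intro i _
  refine (MvPolynomial.totalDegree_sub _ _).trans ?_
  rw [max_le_iff]
  constructor
  · refine (MvPolynomial.totalDegree_add _ _).trans ?_
    rw [max_le_iff]
    constructor
    · refine (MvPolynomial.totalDegree_mul _ _).trans ?_
      simp
    · refine (MvPolynomial.totalDegree_mul _ _).trans ?_
      simp
  · simp

/-- The number of monomials of degree at most `k`. -/
theorem card_idx (k : ℕ) :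
    2 * Fintype.card (Σ n : Fin (k + 1), Fin ((n : ℕ) + 1)) = (k + 1) * (k + 2) := by
  rw [Fintype.card_sigma]
  simp only [Fintype.card_fin]
  rw [Fin.sum_univ_eq_sum_range (fun n => n + 1) (k + 1)]
  induction k with
  | zero => simp
  | succ k ih =>
    rw [Finset.sum_range_succ, mul_add, ih]
    ring

/-- Interpolation. -/
theorem exists_interp (E : Finset (ZMod p × ZMod p)) (k : ℕ)
    (hE : 2 * E.card < (k + 1) * (k + 2)) :
    ∃ a : MvPolynomial (Fin 2) (ZMod p), a ≠ 0 ∧ a.totalDegree ≤ k ∧
      ∀ z ∈ E, MvPolynomial.eval ![z.1, z.2] a = 0 := by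
  classical
  let I := Σ n : Fin (k + 1), Fin ((n : ℕ) + 1)
  let L : (I → ZMod p) →ₗ[ZMod p] (E → ZMod p) :=
    { toFun := fun c z => ∑ u : I, c u * (z.1.1 ^ (u.2 : ℕ) * z.1.2 ^ ((u.1 : ℕ) - (u.2 : ℕ)))
      map_add' := by
        intro c d
        funext z
        simp only [Pi.add_apply, add_mul, Finset.sum_add_distrib]
      map_smul' := by
        intro r c
        funext z
        simp only [Pi.smul_apply, smul_eq_mul, RingHom.id_apply, Finset.mul_sum, mul_assoc] }
  have hker : LinearMap.ker L ≠ ⊥ := by
    apply LinearMap.ker_ne_bot_of_finrank_lt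
    rw [Module.finrank_fintype_fun_eq_card, Module.finrank_fintype_fun_eq_card]
    have h1 := card_idx k
    have h2 : Fintype.card E = E.card := Fintype.card_coe E
    rw [h2]
    show E.card < Fintype.card (Σ n : Fin (k + 1), Fin ((n : ℕ) + 1))
    omega
  obtain ⟨c, hc, hc0⟩ := (Submodule.ne_bot_iff _).1 hker
  rw [LinearMap.mem_ker] at hc
  refine ⟨∑ u : I, MvPolynomial.monomial (mono (u.2 : ℕ) ((u.1 : ℕ) - (u.2 : ℕ))) (c u),
    ?_, ?_, ?_⟩
  · intro h0
    apply hc0
    funext u
    have h1 := congrArg (MvPolynomial.coeff (mono (u.2 : ℕ) ((u.1 : ℕ) - (u.2 : ℕ)))) h0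
    rw [MvPolynomial.coeff_sum, MvPolynomial.coeff_zero,
      Finset.sum_eq_single u] at h1
    · rw [MvPolynomial.coeff_monomial, if_pos rfl] at h1
      exact h1
    · intro v _ hvu
      rw [MvPolynomial.coeff_monomial, if_neg]
      intro h2
      apply hvu
      obtain ⟨h3, h4⟩ := mono_inj h2
      obtain ⟨⟨n, hn⟩, ⟨i, hi⟩⟩ := u
      obtain ⟨⟨n', hn'⟩, ⟨i', hi'⟩⟩ := v
      simp only at h3 h4 hi hi'
      have h5 : n' = n := by omega
      subst h5
      subst h3
      rfl
    · intro hu
      exact absurd (Finset.mem_univ _) hu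
  · apply MvPolynomial.totalDegree_finsetSum_le
    intro u _
    by_cases hcu : c u = 0
    · rw [hcu]; simp
    · rw [MvPolynomial.totalDegree_monomial _ hcu, sum_mono, mono_zero, mono_one]
      have h1 := u.2.2
      have h2 := u.1.2
      omega
  · intro z hz
    have h1 := congrFun hc ⟨z, hz⟩
    rw [map_sum]
    have h2 : ∀ u : I, MvPolynomial.eval ![z.1, z.2]
        (MvPolynomial.monomial (mono (u.2 : ℕ) ((u.1 : ℕ) - (u.2 : ℕ))) (c u)) =
        c u * (z.1 ^ (u.2 : ℕ) * z.2 ^ ((u.1 : ℕ) - (u.2 : ℕ))) := by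
      intro u
      rw [MvPolynomial.eval_monomial, Finsupp.prod_fintype _ _ (fun _ => pow_zero _),
        Fin.prod_univ_two, mono_zero, mono_one]
      rfl
    rw [Finset.sum_congr rfl (fun u _ => h2 u)]
    exact h1

/-- The lacunary polynomial. -/
theorem exists_lacunary {ι : Type*} (J : Finset ι) (x y : ι → ZMod p)
    (hJ : J.card = p - 1) (E : Finset (ZMod p × ZMod p))
    (hE : ∀ z : ZMod p × ZMod p, z ∉ E → ∃ i ∈ J, z.1 * x i + z.2 * y i = 1) (k : ℕ)
    (hEk : 2 * E.card < (k + 1) * (k + 2)) (hkp : k < p) :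
    ∃ (k' : ℕ) (A B H : Polynomial (ZMod p)), k' ≤ k ∧ A ≠ 0 ∧ A.natDegree ≤ k' ∧
      (∀ n, k' ≤ n → B.coeff n = 0) ∧ (∀ n, k' ≤ n → H.coeff n = 0) ∧
      fpol J x y * A = Polynomial.X ^ p * B + H := by
  classical
  obtain ⟨a, ha0, hak, haE⟩ := exists_interp E k hEk
  have hp1 : 1 ≤ p := hp.1.one_le
  set k' := a.totalDegree with hk'
  set G := Rpol J x y * a with hG
  -- `G` vanishes everywhere
  have hGv : ∀ v : Fin 2 → ZMod p, MvPolynomial.eval v G = 0 := by
    intro v
    have hv : v = ![v 0, v 1] := by
      funext l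
      fin_cases l <;> rfl
    rw [hG, map_mul]
    by_cases hz : ((v 0, v 1) : ZMod p × ZMod p) ∈ E
    · have := haE _ hz
      rw [hv]
      simp only at this
      rw [this, mul_zero]
    · obtain ⟨i, hi, h1⟩ := hE _ hz
      have : MvPolynomial.eval v (Rpol J x y) = 0 := by
        unfold Rpol
        rw [map_prod]
        apply Finset.prod_eq_zero hi
        simp only [map_sub, map_add, map_mul, MvPolynomial.eval_C, MvPolynomial.eval_X, map_one]
        simp only at h1
        linear_combination h1
      rw [this, zero_mul]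
  have hGt : G.totalDegree ≤ (p - 1) + k' := by
    refine (MvPolynomial.totalDegree_mul _ _).trans ?_
    exact Nat.add_le_add ((totalDegree_Rpol J x y).trans hJ.le) le_rfl
  -- vanishing of middle coefficients
  have hmid : ∀ i j : ℕ, i + j = (p - 1) + k' → i ≤ p - 1 → j ≤ p - 1 →
      G.coeff (mono i j) = 0 := by
    intro i j hij hi hj
    by_contra hne
    have h1 : G.totalDegree = (mono i j).degree := by
      apply le_antisymm
      · rw [degree_mono, hij]; exact hGt
      · have h2 := MvPolynomial.le_totalDegree (MvPolynomial.mem_support_iff.2 hne)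
        rw [sum_mono, mono_zero, mono_one] at h2
        rw [degree_mono]; exact h2
    obtain ⟨v, _, hv⟩ := MvPolynomial.combinatorial_nullstellensatz_exists_eval_nonzero G
      (mono i j) hne h1 (fun _ => Finset.univ) (by
        intro l
        rw [Finset.card_univ, ZMod.card]
        fin_cases l
        · show mono i j 0 < p
          rw [mono_zero]; omega
        · show mono i j 1 < p
          rw [mono_one]; omega)
    exact hv (hGv v)
  -- the polynomial `A`
  set A := (Phi a).coeff k' with hA
  have hA0 : A ≠ 0 := by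
    have hs : a.support.Nonempty := MvPolynomial.support_nonempty.2 ha0
    obtain ⟨m, hm, hm2⟩ := Finset.exists_mem_eq_sup a.support hs (fun s => s.sum fun _ e => e)
    have h2 : k' = m 0 + m 1 := by
      rw [← sum_mono, ← hm2]; rfl
    intro h0
    have h3 := coeff_Phi a k' (m 0)
    rw [← hA, h0, Polynomial.coeff_zero, if_pos (by omega)] at h3
    have h4 : mono (m 0) (k' - m 0) = m := by
      rw [h2, Nat.add_sub_cancel_left]; exact (eq_mono m).symm
    rw [h4] at h3
    exact (MvPolynomial.mem_support_iff.1 hm) h3.symm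
  have hAd : A.natDegree ≤ k' := by
    rw [Polynomial.natDegree_le_iff_coeff_eq_zero]
    intro N hN
    rw [hA, coeff_Phi, if_neg (by omega)]
  have had : (Phi a).natDegree ≤ k' := by
    rw [Polynomial.natDegree_le_iff_coeff_eq_zero]
    intro N hN
    ext i
    rw [coeff_Phi, Polynomial.coeff_zero]
    split_ifs with h1
    · by_contra hne
      have h2 := MvPolynomial.le_totalDegree (MvPolynomial.mem_support_iff.2 hne)
      rw [sum_mono, mono_zero, mono_one] at h2
      omega
    · rfl
  have hfA : (Phi G).coeff (J.card + k') = fpol J x y * A := by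
    rw [hG, map_mul, Polynomial.coeff_mul_add_eq_of_natDegree_le (natDegree_Phi_Rpol J x y) had,
      coeff_Phi_Rpol]
  have hcoef : ∀ i, (fpol J x y * A).coeff i =
      if i ≤ J.card + k' then G.coeff (mono i (J.card + k' - i)) else 0 := by
    intro i
    rw [← hfA, coeff_Phi]
  -- the decomposition
  let B : Polynomial (ZMod p) := ∑ n ∈ Finset.range k',
    Polynomial.monomial n ((fpol J x y * A).coeff (p + n))
  let H : Polynomial (ZMod p) := ∑ n ∈ Finset.range k',
    Polynomial.monomial n ((fpol J x y * A).coeff n)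
  have hBc : ∀ n, B.coeff n = if n < k' then (fpol J x y * A).coeff (p + n) else 0 := by
    intro n
    simp only [B, Polynomial.finsetSum_coeff, Polynomial.coeff_monomial]
    rw [Finset.sum_ite_eq']
    simp only [Finset.mem_range]
  have hHc : ∀ n, H.coeff n = if n < k' then (fpol J x y * A).coeff n else 0 := by
    intro n
    simp only [H, Polynomial.finsetSum_coeff, Polynomial.coeff_monomial]
    rw [Finset.sum_ite_eq']
    simp only [Finset.mem_range]
  refine ⟨k', A, B, H, hak, hA0, hAd, ?_, ?_, ?_⟩
  · intro n hn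
    rw [hBc, if_neg (by omega)]
  · intro n hn
    rw [hHc, if_neg (by omega)]
  · ext i
    rw [Polynomial.coeff_add, Polynomial.coeff_X_pow_mul', hHc]
    by_cases hi : i < k'
    · rw [if_pos hi]
      by_cases hpi : p ≤ i
      · exact absurd hpi (by omega)
      · rw [if_neg hpi, zero_add]
    · rw [if_neg hi, add_zero]
      by_cases hpi : p ≤ i
      · rw [if_pos hpi, hBc]
        by_cases h2 : i - p < k'
        · rw [if_pos h2]
          congr 1
          omega
        · rw [if_neg h2, hcoef]
          rw [if_neg (by omega)]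
      · rw [if_neg hpi, hcoef, if_pos (by omega)]
        apply hmid
        · omega
        · omega
        · omega

end Pool.Agent.H43.Aff
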