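import Mathlib

/-!
Noncrossing equivalence relations on `Fin n`, encoded by their successor functions, and the
involution which toggles the short arcs.
-/

namespace Pool.Agent.H43

open Finset Function

variable {n : ℕ}

/-- Noncrossing condition for an equivalence relation on `Fin n`. -/
def NonCr (r : Setoid (Fin n)) : Prop :=
  ∀ a b c d : Fin n, a < b → b < c → c < d → r a c → r b d → r a b

/-- Successor functions of noncrossing equivalence relations. -/
structure IsNext (f : Fin n → Fin n) : Prop where
  le : ∀ a, a ≤ f a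
  nest : ∀ a b, a < b → b < f a → f b < f a

open Classical in
/-- The successor of `a` in its class (or `a` if `a` is the largest element of its class). -/
noncomputable def nextOf (r : Setoid (Fin n)) (a : Fin n) : Fin n :=
  if h : (univ.filter fun c : Fin n => a < c ∧ r a c).Nonempty then
    (univ.filter fun c : Fin n => a < c ∧ r a c).min' h
  else a

theorem le_nextOf (r : Setoid (Fin n)) (a : Fin n) : a ≤ nextOf r a := by
  classical
  unfold nextOf
  split_ifs with h
  · have := Finset.min'_mem _ h
    rw [Finset.mem_filter] at this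
    exact this.2.1.le
  · exact le_rfl

theorem rel_nextOf (r : Setoid (Fin n)) (a : Fin n) : r a (nextOf r a) := by
  classical
  unfold nextOf
  split_ifs with h
  · have := Finset.min'_mem _ h
    rw [Finset.mem_filter] at this
    exact this.2.2
  · exact r.refl a

theorem nextOf_le (r : Setoid (Fin n)) {a c : Fin n} (hac : a < c) (h : r a c) :
    nextOf r a ≤ c := by
  classical
  have hm : c ∈ univ.filter fun c : Fin n => a < c ∧ r a c := by simp [hac, h]
  unfold nextOf
  rw [dif_pos ⟨c, hm⟩]
  exact Finset.min'_le _ _ hm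

theorem lt_nextOf (r : Setoid (Fin n)) {a c : Fin n} (hac : a < c) (h : r a c) :
    a < nextOf r a := by
  classical
  have hm : c ∈ univ.filter fun c : Fin n => a < c ∧ r a c := by simp [hac, h]
  unfold nextOf
  rw [dif_pos ⟨c, hm⟩]
  have := Finset.min'_mem _ ⟨c, hm⟩
  rw [Finset.mem_filter] at this
  exact this.2.1

/-- Characterization of the successor. -/
theorem nextOf_eq_of (r : Setoid (Fin n)) {a c : Fin n} (hac : a < c) (h : r a c)
    (hb : ∀ b, a < b → b < c → ¬ r a b) : nextOf r a = c := by
  refine le_antisymm (nextOf_le r hac h) ?_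
  by_contra hlt
  push Not at hlt
  exact hb _ (lt_nextOf r hac h) hlt (rel_nextOf r a)

theorem nextOf_eq_self (r : Setoid (Fin n)) {a : Fin n} (h : ∀ c, a < c → ¬ r a c) :
    nextOf r a = a := by
  by_contra hne
  have hlt : a < nextOf r a := lt_of_le_of_ne (le_nextOf r a) (Ne.symm hne)
  exact h _ hlt (rel_nextOf r a)

theorem not_rel_between (r : Setoid (Fin n)) {a b : Fin n} (h1 : a < b) (h2 : b < nextOf r a) :
    ¬ r a b := by
  intro h
  exact absurd (nextOf_le r h1 h) (not_le.mpr h2)

theorem isNext_nextOf {r : Setoid (Fin n)} (hr : NonCr r) : IsNext (nextOf r) := by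
  refine ⟨le_nextOf r, ?_⟩
  intro a b hab hb
  by_contra hcon
  push Not at hcon
  have hna : r a (nextOf r a) := rel_nextOf r a
  have hnb : r b (nextOf r b) := rel_nextOf r b
  rcases lt_or_eq_of_le hcon with h | h
  · exact not_rel_between r hab hb (hr a b _ _ hab hb h hna hnb)
  · rw [← h] at hnb
    exact not_rel_between r hab hb (r.trans hna (r.symm hnb))

/-- The equivalence relation encoded by a successor function. -/
def ofNext (f : Fin n → Fin n) : Setoid (Fin n) where
  r a c := ∃ k l : ℕ, f^[k] a = f^[l] c
  iseqv :=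
    { refl := fun a => ⟨0, 0, rfl⟩
      symm := fun {a c} ⟨k, l, h⟩ => ⟨l, k, h.symm⟩
      trans := fun {a b c} ⟨k, l, h⟩ ⟨p, q, h'⟩ => by
        refine ⟨p + k, l + q, ?_⟩
        rw [Function.iterate_add_apply, h, ← Function.iterate_add_apply,
          add_comm p l, Function.iterate_add_apply, h', ← Function.iterate_add_apply] }

theorem ofNext_rel {f : Fin n → Fin n} {a c : Fin n} :
    ofNext f a c ↔ ∃ k l : ℕ, f^[k] a = f^[l] c := Iff.rfl

theorem IsNext.le_iter {f : Fin n → Fin n} (hf : IsNext f) (a : Fin n) (k : ℕ) :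
    a ≤ f^[k] a := by
  induction k with
  | zero => exact le_rfl
  | succ k ih =>
    rw [Function.iterate_succ_apply']
    exact ih.trans (hf.le _)

theorem IsNext.iter_lt {f : Fin n → Fin n} (hf : IsNext f) {a b : Fin n} (hab : a < b)
    (hb : b < f a) (k : ℕ) : f^[k] b < f a := by
  induction k with
  | zero => exact hb
  | succ k ih =>
    rw [Function.iterate_succ_apply']
    exact hf.nest a _ (lt_of_lt_of_le hab (hf.le_iter b k)) ih

theorem IsNext.not_rel {f : Fin n → Fin n} (hf : IsNext f) {a b : Fin n} (hab : a < b)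
    (hb : b < f a) : ¬ ofNext f a b := by
  rintro ⟨k, l, h⟩
  have h1 := hf.iter_lt hab hb l
  rcases k with _ | k
  · have h2 := hf.le_iter b l
    rw [← h] at h2
    exact absurd h2 (not_le.mpr hab)
  · rw [Function.iterate_succ_apply] at h
    have h2 := hf.le_iter (f a) k
    rw [h] at h2
    exact absurd h2 (not_le.mpr h1)

theorem IsNext.not_rel_fix {f : Fin n → Fin n} (hf : IsNext f) {a b : Fin n} (hab : a < b)
    (ha : f a = a) : ¬ ofNext f a b := by
  rintro ⟨k, l, h⟩
  rw [Function.iterate_fixed ha] at h
  have h2 := hf.le_iter b l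
  rw [← h] at h2
  exact absurd h2 (not_le.mpr hab)

theorem nextOf_ofNext {f : Fin n → Fin n} (hf : IsNext f) : nextOf (ofNext f) = f := by
  funext a
  rcases lt_or_eq_of_le (hf.le a) with h | h
  · exact nextOf_eq_of _ h ⟨1, 0, rfl⟩ fun b h1 h2 => hf.not_rel h1 h2
  · rw [nextOf_eq_self _ (fun c hc => hf.not_rel_fix hc h.symm)]
    exact h

/-- In a relation given by a successor function, a later related element is an iterate. -/
theorem IsNext.exists_iter {f : Fin n → Fin n} (hf : IsNext f) : ∀ (m : ℕ) {a c : Fin n},
    c.val - a.val ≤ m → a < c → ofNext f a c → ∃ k, f^[k] a = c := by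
  intro m
  induction m with
  | zero =>
    intro a c h1 h2 _
    have : a.val < c.val := h2
    omega
  | succ m ih =>
    intro a c h1 h2 h3
    have hlt : a < f a := by
      rcases lt_or_eq_of_le (hf.le a) with h | h
      · exact h
      · exact absurd h3 (hf.not_rel_fix h2 h.symm)
    have hle : f a ≤ c := by
      by_contra hcon
      push Not at hcon
      exact hf.not_rel h2 hcon h3
    rcases lt_or_eq_of_le hle with h | h
    · have h4 : ofNext f (f a) c := (ofNext f).trans ((ofNext f).symm ⟨1, 0, rfl⟩) h3
      have h5 : a.val < (f a).val := hlt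
      obtain ⟨k, hk⟩ := ih (by omega) h h4
      exact ⟨k + 1, by rw [Function.iterate_succ_apply]; exact hk⟩
    · exact ⟨1, h⟩

/-- Between `a` and a later iterate `c`, an element `b` is either an iterate of `a`, or is
strictly covered by an arc between iterates. -/
theorem IsNext.exists_cover {f : Fin n → Fin n} (hf : IsNext f) : ∀ (k : ℕ) {a b c : Fin n},
    f^[k] a = c → a ≤ b → b < c →
      (∃ j, f^[j] a = b) ∨ ∃ j, f^[j] a < b ∧ b < f^[j + 1] a ∧ f^[j + 1] a ≤ c := by
  intro k
  induction k with
  | zero =>
    intro a b c h1 h2 h3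
    subst h1
    exact absurd h2 (not_le.mpr h3)
  | succ k ih =>
    intro a b c h1 h2 h3
    rw [Function.iterate_succ_apply] at h1
    rcases lt_or_eq_of_le h2 with h | h
    · rcases lt_or_ge b (f a) with h' | h'
      · right
        refine ⟨0, h, h', ?_⟩
        have := hf.le_iter (f a) k
        rw [h1] at this
        exact this
      · rcases ih h1 h' h3 with ⟨j, hj⟩ | ⟨j, hj1, hj2, hj3⟩
        · exact Or.inl ⟨j + 1, by rw [Function.iterate_succ_apply]; exact hj⟩
        · right
          refine ⟨j + 1, ?_, ?_, ?_⟩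
          · rw [Function.iterate_succ_apply]; exact hj1
          · rw [Function.iterate_succ_apply]; exact hj2
          · rw [Function.iterate_succ_apply]; exact hj3
    · exact Or.inl ⟨0, h⟩

theorem nonCr_ofNext {f : Fin n → Fin n} (hf : IsNext f) : NonCr (ofNext f) := by
  intro a b c d hab hbc hcd hac hbd
  obtain ⟨k, hk⟩ := hf.exists_iter _ le_rfl (hab.trans hbc) hac
  rcases hf.exists_cover k hk hab.le hbc with ⟨j, hj⟩ | ⟨j, h1, h2, h3⟩
  · exact ⟨j, 0, hj⟩
  · exfalso
    obtain ⟨l, hl⟩ := hf.exists_iter _ le_rfl (hbc.trans hcd) hbd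
    rw [Function.iterate_succ_apply'] at h2 h3
    have := hf.iter_lt h1 h2 l
    rw [hl] at this
    exact absurd (this.trans_le h3) (not_lt.mpr hcd.le)

theorem ofNext_nextOf (r : Setoid (Fin n)) : ofNext (nextOf r) = r := by
  have h1 : ∀ (k : ℕ) (a : Fin n), r a ((nextOf r)^[k] a) := by
    intro k
    induction k with
    | zero => intro a; exact r.refl a
    | succ k ih =>
      intro a
      rw [Function.iterate_succ_apply]
      exact r.trans (rel_nextOf r a) (ih _)
  have h2 : ∀ (m : ℕ) {a c : Fin n}, c.val - a.val ≤ m → a < c → r a c →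
      ∃ k, (nextOf r)^[k] a = c := by
    intro m
    induction m with
    | zero =>
      intro a c h1 h2 _
      have : a.val < c.val := h2
      omega
    | succ m ih =>
      intro a c h1 h2 h3
      have hlt := lt_nextOf r h2 h3
      have hle := nextOf_le r h2 h3
      rcases lt_or_eq_of_le hle with h | h
      · have h5 : a.val < (nextOf r a).val := hlt
        obtain ⟨k, hk⟩ := ih (by omega) h (r.trans (r.symm (rel_nextOf r a)) h3)
        exact ⟨k + 1, by rw [Function.iterate_succ_apply]; exact hk⟩
      · exact ⟨1, h⟩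
  ext a c
  constructor
  · rintro ⟨k, l, h⟩
    have := h1 k a
    rw [h] at this
    exact r.trans this (r.symm (h1 l c))
  · intro h
    rcases lt_trichotomy a c with h' | h' | h'
    · obtain ⟨k, hk⟩ := h2 _ le_rfl h' h
      exact ⟨k, 0, hk⟩
    · subst h'
      exact ⟨0, 0, rfl⟩
    · obtain ⟨k, hk⟩ := h2 _ le_rfl h' (r.symm h)
      exact ⟨0, k, hk.symm⟩

end Pool.Agent.H43
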