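import Mathlib
import Pool.Agent.H43.NCNext

/-!
The toggling involution and the complementary count of blocks.
-/

namespace Pool.Agent.H43

open Finset Function

variable {n : ℕ}

/-- Toggle the short arcs of a successor function. -/
def toggle (f : Fin n → Fin n) (a : Fin n) : Fin n :=
  if a.val + 1 < (f a).val then f a
  else if (f a).val = a.val + 1 then a
  else if h : a.val + 1 < n ∧ ∀ b : Fin n, b < a → (f b).val ≠ a.val + 1 then ⟨a.val + 1, h.1⟩
  else a

theorem toggle_long {f : Fin n → Fin n} {a : Fin n} (h : a.val + 1 < (f a).val) :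
    toggle f a = f a := by
  unfold toggle
  rw [if_pos h]

theorem toggle_short {f : Fin n → Fin n} {a : Fin n} (h : (f a).val = a.val + 1) :
    toggle f a = a := by
  unfold toggle
  rw [if_neg (by omega), if_pos h]

theorem toggle_on {f : Fin n → Fin n} {a : Fin n} (h : f a = a) (h1 : a.val + 1 < n)
    (h2 : ∀ b : Fin n, b < a → (f b).val ≠ a.val + 1) : (toggle f a).val = a.val + 1 := by
  unfold toggle
  have h0 : (f a).val = a.val := by rw [h]
  rw [if_neg (by omega), if_neg (by omega), dif_pos ⟨h1, h2⟩]

theorem toggle_off {f : Fin n → Fin n} {a : Fin n} (h : f a = a)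
    (h2 : a.val + 1 < n → ∃ b : Fin n, b < a ∧ (f b).val = a.val + 1) : toggle f a = a := by
  unfold toggle
  have h0 : (f a).val = a.val := by rw [h]
  rw [if_neg (by omega), if_neg (by omega), dif_neg]
  rintro ⟨h3, h4⟩
  obtain ⟨b, hb1, hb2⟩ := h2 h3
  exact h4 b hb1 hb2

/-- The four cases of the definition. -/
theorem toggle_cases {f : Fin n → Fin n} (hf : IsNext f) (a : Fin n) :
    (a.val + 1 < (f a).val ∧ toggle f a = f a) ∨
    ((f a).val = a.val + 1 ∧ toggle f a = a) ∨
    (f a = a ∧ (a.val + 1 < n ∧ ∀ b : Fin n, b < a → (f b).val ≠ a.val + 1) ∧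
      (toggle f a).val = a.val + 1) ∨
    (f a = a ∧ (a.val + 1 < n → ∃ b : Fin n, b < a ∧ (f b).val = a.val + 1) ∧
      toggle f a = a) := by
  have hle : a.val ≤ (f a).val := hf.le a
  rcases Nat.lt_or_ge (a.val + 1) (f a).val with h | h
  · exact Or.inl ⟨h, toggle_long h⟩
  · rcases Nat.eq_or_lt_of_le h with h' | h'
    · exact Or.inr (Or.inl ⟨h', toggle_short h'⟩)
    · have h0 : f a = a := by
        apply Fin.ext
        omega
      by_cases hc : a.val + 1 < n ∧ ∀ b : Fin n, b < a → (f b).val ≠ a.val + 1
      · exact Or.inr (Or.inr (Or.inl ⟨h0, hc, toggle_on h0 hc.1 hc.2⟩))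
      · refine Or.inr (Or.inr (Or.inr ⟨h0, ?_, ?_⟩))
        · intro h1
          by_contra hcon
          push Not at hcon
          exact hc ⟨h1, hcon⟩
        · apply toggle_off h0
          intro h1
          by_contra hcon
          push Not at hcon
          exact hc ⟨h1, hcon⟩

theorem isNext_toggle {f : Fin n → Fin n} (hf : IsNext f) : IsNext (toggle f) := by
  constructor
  · intro a
    rcases toggle_cases hf a with ⟨_, h⟩ | ⟨_, h⟩ | ⟨_, _, h⟩ | ⟨_, _, h⟩
    · rw [h]; exact hf.le a
    · rw [h]
    · show a.val ≤ (toggle f a).val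
      omega
    · rw [h]
  · intro a b hab hb
    have hlong : a.val + 1 < (f a).val ∧ toggle f a = f a := by
      rcases toggle_cases hf a with h | ⟨_, h⟩ | ⟨_, _, h⟩ | ⟨_, _, h⟩
      · exact h
      · rw [h] at hb; exact absurd hb (not_lt.mpr hab.le)
      · exfalso
        have h1 : a.val < b.val := hab
        have h2 : b.val < (toggle f a).val := hb
        omega
      · rw [h] at hb; exact absurd hb (not_lt.mpr hab.le)
    rw [hlong.2] at hb ⊢
    rcases toggle_cases hf b with ⟨_, h⟩ | ⟨_, h⟩ | ⟨_, h', h⟩ | ⟨_, _, h⟩
    · rw [h]; exact hf.nest a b hab hb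
    · rw [h]; exact hb
    · have h3 := h'.2 a hab
      have h1 : b.val < (f a).val := hb
      show (toggle f b).val < (f a).val
      omega
    · rw [h]; exact hb

/-- An arc ending at `a+1` from before `a` forces `a` to be the last of its class. -/
theorem IsNext.fix_of_target {f : Fin n → Fin n} (hf : IsNext f) {a b : Fin n} (hb : b < a)
    (h : (f b).val = a.val + 1) : f a = a := by
  have h1 : a < f b := by
    show a.val < (f b).val
    omega
  have h2 : (f a).val < (f b).val := hf.nest b a hb h1
  have h3 : a.val ≤ (f a).val := hf.le a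
  apply Fin.ext
  omega

theorem toggle_long_iff {f : Fin n → Fin n} (hf : IsNext f) (a : Fin n) :
    a.val + 1 < (toggle f a).val ↔ a.val + 1 < (f a).val := by
  rcases toggle_cases hf a with ⟨h0, h⟩ | ⟨h0, h⟩ | ⟨h0, _, h⟩ | ⟨h0, _, h⟩
  · rw [h]
  · rw [h]; omega
  · have : (f a).val = a.val := by rw [h0]
    omega
  · have : (f a).val = a.val := by rw [h0]
    rw [h]; omega

theorem toggle_toggle {f : Fin n → Fin n} (hf : IsNext f) : toggle (toggle f) = f := by
  funext a
  have htarget : ∀ b : Fin n, b < a → ((toggle f b).val = a.val + 1 ↔ (f b).val = a.val + 1) := by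
    intro b hb
    have hb' : b.val < a.val := hb
    rcases toggle_cases hf b with ⟨h0, h⟩ | ⟨h0, h⟩ | ⟨h0, _, h⟩ | ⟨h0, _, h⟩
    · rw [h]
    · rw [h]; omega
    · have : (f b).val = b.val := by rw [h0]
      omega
    · have : (f b).val = b.val := by rw [h0]
      rw [h]; omega
  rcases toggle_cases hf a with ⟨h0, h⟩ | ⟨h0, h⟩ | ⟨h0, h', h⟩ | ⟨h0, h', h⟩
  · rw [toggle_long (by rw [h]; exact h0), h]
  · apply Fin.ext
    rw [toggle_on h]
    · exact h0.symm
    · have := (f a).isLt
      omega
    · intro b hb h1
      rw [htarget b hb] at h1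
      have h2 := hf.fix_of_target hb h1
      have : (f a).val = a.val := by rw [h2]
      omega
  · rw [toggle_short h, h0]
  · rw [toggle_off h]
    · exact h0.symm
    · intro h1
      obtain ⟨b, hb, hb2⟩ := h' h1
      exact ⟨b, hb, (htarget b hb).mpr hb2⟩

/-- Number of fixed points of a successor function: the number of classes. -/
def numFix (f : Fin n → Fin n) : ℕ := (univ.filter fun a => f a = a).card

/-- The blocks of `f` and of its toggle add up to `n + 1`. -/
theorem numFix_add_toggle {f : Fin n → Fin n} (hf : IsNext f) (hn : 0 < n) :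
    numFix f + numFix (toggle f) = n + 1 := by
  classical
  -- long arcs and their targets
  have hL : (univ.filter fun a : Fin n => a.val + 1 < (f a).val).card =
      (univ.filter fun a : Fin n => ∃ b : Fin n, b < a ∧ (f b).val = a.val + 1).card := by
    refine Finset.card_bij (fun a _ => (⟨(f a).val - 1, by have := (f a).isLt; omega⟩ : Fin n))
      ?_ ?_ ?_
    · intro a ha
      rw [Finset.mem_filter] at ha ⊢
      refine ⟨mem_univ _, a, ?_, ?_⟩
      · show a.val < (f a).val - 1
        omega
      · show (f a).val = (f a).val - 1 + 1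
        omega
    · intro a ha b hb hab
      rw [Finset.mem_filter] at ha hb
      have h1 : (f a).val - 1 = (f b).val - 1 := by
        have := congrArg Fin.val hab
        exact this
      have h2 : (f a).val = (f b).val := by omega
      rcases lt_trichotomy a b with h | h | h
      · exfalso
        have h3 : b < f a := by
          show b.val < (f a).val
          omega
        have h4 : (f b).val < (f a).val := hf.nest a b h h3
        omega
      · exact h
      · exfalso
        have h3 : a < f b := by
          show a.val < (f b).val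
          omega
        have h4 : (f a).val < (f b).val := hf.nest b a h h3
        omega
    · intro c hc
      rw [Finset.mem_filter] at hc
      obtain ⟨b, hb1, hb2⟩ := hc.2
      have hb3 : b.val < c.val := hb1
      refine ⟨b, ?_, ?_⟩
      · rw [Finset.mem_filter]
        exact ⟨mem_univ _, by omega⟩
      · apply Fin.ext
        show (f b).val - 1 = c.val
        omega
  -- pointwise count
  have hpt : ∀ a : Fin n,
      (if f a = a then (1 : ℕ) else 0) + (if toggle f a = a then 1 else 0) +
        (if a.val + 1 < (f a).val then 1 else 0) =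
      1 + (if a.val + 1 = n then 1 else 0) +
        (if ∃ b : Fin n, b < a ∧ (f b).val = a.val + 1 then 1 else 0) := by
    intro a
    have hta : ∀ b : Fin n, (b < a ∧ (f b).val = a.val + 1) → f a = a :=
      fun b hb => hf.fix_of_target hb.1 hb.2
    have hlast : ∀ b : Fin n, (b < a ∧ (f b).val = a.val + 1) → a.val + 1 < n := by
      intro b hb
      have := (f b).isLt
      omega
    rcases toggle_cases hf a with ⟨h0, h⟩ | ⟨h0, h⟩ | ⟨h0, h', h⟩ | ⟨h0, h', h⟩
    · have hne : f a ≠ a := fun hh => by
        have : (f a).val = a.val := by rw [hh]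
        omega
      have hno : ¬ ∃ b : Fin n, b < a ∧ (f b).val = a.val + 1 := fun ⟨b, hb⟩ => hne (hta b hb)
      have hl : a.val + 1 ≠ n := by
        have := (f a).isLt
        omega
      rw [h, if_neg hne, if_pos h0, if_neg hno, if_neg hl]
    · have hne : f a ≠ a := fun hh => by
        have : (f a).val = a.val := by rw [hh]
        omega
      have hno : ¬ ∃ b : Fin n, b < a ∧ (f b).val = a.val + 1 := fun ⟨b, hb⟩ => hne (hta b hb)
      have hl : a.val + 1 ≠ n := by
        have := (f a).isLt
        omega
      have hnl : ¬ a.val + 1 < (f a).val := by omega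
      rw [h, if_neg hne, if_pos rfl, if_neg hnl, if_neg hno, if_neg hl]
    · have hne : toggle f a ≠ a := fun hh => by
        have : (toggle f a).val = a.val := by rw [hh]
        omega
      have h00 : (f a).val = a.val := by rw [h0]
      have hno : ¬ ∃ b : Fin n, b < a ∧ (f b).val = a.val + 1 := fun ⟨b, hb⟩ => h'.2 b hb.1 hb.2
      have hl : a.val + 1 ≠ n := by omega
      have hnl : ¬ a.val + 1 < (f a).val := by omega
      rw [if_pos h0, if_neg hne, if_neg hnl, if_neg hno, if_neg hl]
    · have h00 : (f a).val = a.val := by rw [h0]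
      have hnl : ¬ a.val + 1 < (f a).val := by omega
      by_cases hl : a.val + 1 = n
      · have hno : ¬ ∃ b : Fin n, b < a ∧ (f b).val = a.val + 1 := fun ⟨b, hb⟩ => by
          have := hlast b hb
          omega
        rw [h, if_pos h0, if_pos rfl, if_neg hnl, if_neg hno, if_pos hl]
      · have hyes : ∃ b : Fin n, b < a ∧ (f b).val = a.val + 1 := by
          apply h'
          have := a.isLt
          omega
        rw [h, if_pos h0, if_pos rfl, if_neg hnl, if_pos hyes, if_neg hl]
  have hsum := Finset.sum_congr (rfl : (univ : Finset (Fin n)) = univ) (fun a _ => hpt a)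
  simp only [Finset.sum_add_distrib, ← Finset.card_filter] at hsum
  have hlastcard : (univ.filter fun a : Fin n => a.val + 1 = n).card = 1 := by
    rw [Finset.card_eq_one]
    refine ⟨⟨n - 1, by omega⟩, ?_⟩
    ext a
    rw [Finset.mem_filter, Finset.mem_singleton, Fin.ext_iff]
    constructor
    · rintro ⟨_, h⟩
      show a.val = n - 1
      omega
    · intro h
      have h' : a.val = n - 1 := h
      exact ⟨mem_univ _, by omega⟩
  rw [hlastcard, hL] at hsum
  simp only [Finset.sum_const, Finset.card_univ, Fintype.card_fin, smul_eq_mul, mul_one] at hsum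
  unfold numFix
  omega

end Pool.Agent.H43
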