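import Mathlib
import Pool.Agent.H43.NCToggle

/-!
Toggling at the level of equivalence relations, rotations, bad intervals.
-/

namespace Pool.Agent.H43

open Finset Function

variable {n : ℕ}

/-- Number of classes. -/
noncomputable def numBlocks {α : Type*} (r : Setoid α) : ℕ := Nat.card (Quotient r)

theorem nextOf_fix_iff (r : Setoid (Fin n)) (a : Fin n) :
    nextOf r a = a ↔ ∀ c, a < c → ¬ r a c := by
  constructor
  · intro h c hc hr
    have := lt_nextOf r hc hr
    rw [h] at this
    exact lt_irrefl _ this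
  · exact nextOf_eq_self r

/-- every element is related to a largest element of its class -/
theorem exists_fix (r : Setoid (Fin n)) (x : Fin n) : ∃ a, nextOf r a = a ∧ r x a := by
  classical
  have hne : (univ.filter fun c : Fin n => r x c).Nonempty := ⟨x, by simp⟩
  refine ⟨(univ.filter fun c : Fin n => r x c).max' hne, ?_, ?_⟩
  · rw [nextOf_fix_iff]
    intro c hc hr
    have hm := Finset.max'_mem _ hne
    rw [Finset.mem_filter] at hm
    have : c ≤ _ := Finset.le_max' (univ.filter fun c : Fin n => r x c) c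
      (by rw [Finset.mem_filter]; exact ⟨mem_univ _, r.trans hm.2 hr⟩)
    exact absurd hc (not_lt.mpr this)
  · have hm := Finset.max'_mem _ hne
    rw [Finset.mem_filter] at hm
    exact hm.2

theorem fix_unique (r : Setoid (Fin n)) {a b : Fin n} (ha : nextOf r a = a)
    (hb : nextOf r b = b) (h : r a b) : a = b := by
  rw [nextOf_fix_iff] at ha hb
  rcases lt_trichotomy a b with h' | h' | h'
  · exact absurd h (ha b h')
  · exact h'
  · exact absurd (r.symm h) (hb a h')

theorem numBlocks_eq (r : Setoid (Fin n)) : numBlocks r = numFix (nextOf r) := by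
  classical
  have h1 : Nat.card {a : Fin n // nextOf r a = a} = Nat.card (Quotient r) := by
    refine Nat.card_congr (Equiv.ofBijective (fun a => (Quotient.mk r a.1)) ⟨?_, ?_⟩)
    · intro a b hab
      have h2 : r a.1 b.1 := Quotient.exact hab
      exact Subtype.ext (fix_unique r a.2 b.2 h2)
    · intro q
      induction q using Quotient.inductionOn with
      | _ x =>
        obtain ⟨a, ha, hxa⟩ := exists_fix r x
        exact ⟨⟨a, ha⟩, Quotient.sound (r.symm hxa)⟩
  unfold numBlocks numFix
  rw [← h1, Nat.card_eq_fintype_card, Fintype.card_subtype]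

/-- toggling an equivalence relation -/
noncomputable def toggleS (r : Setoid (Fin n)) : Setoid (Fin n) := ofNext (toggle (nextOf r))

theorem nextOf_toggleS {r : Setoid (Fin n)} (hr : NonCr r) :
    nextOf (toggleS r) = toggle (nextOf r) :=
  nextOf_ofNext (isNext_toggle (isNext_nextOf hr))

theorem nonCr_toggleS {r : Setoid (Fin n)} (hr : NonCr r) : NonCr (toggleS r) :=
  nonCr_ofNext (isNext_toggle (isNext_nextOf hr))

theorem toggleS_toggleS {r : Setoid (Fin n)} (hr : NonCr r) : toggleS (toggleS r) = r := by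
  unfold toggleS
  rw [nextOf_ofNext (isNext_toggle (isNext_nextOf hr)), toggle_toggle (isNext_nextOf hr),
    ofNext_nextOf]

theorem numBlocks_toggleS {r : Setoid (Fin n)} (hr : NonCr r) (hn : 0 < n) :
    numBlocks r + numBlocks (toggleS r) = n + 1 := by
  rw [numBlocks_eq, numBlocks_eq, nextOf_toggleS hr]
  exact numFix_add_toggle (isNext_nextOf hr) hn

/-- The relation is not contiguous on the interval `[lo, hi]`. -/
def BadOn (r : Setoid (Fin n)) (lo hi : ℕ) : Prop :=
  ∃ i j k : Fin n, lo ≤ i.val ∧ i < j ∧ j < k ∧ k.val ≤ hi ∧ r i k ∧ ¬ r i j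

theorem badOn_iff (r : Setoid (Fin n)) (lo hi : ℕ) :
    BadOn r lo hi ↔ ∃ a : Fin n, lo ≤ a.val ∧ a.val + 1 < (nextOf r a).val ∧
      (nextOf r a).val ≤ hi := by
  classical
  constructor
  · rintro ⟨i, j, k, h1, h2, h3, h4, h5, h6⟩
    -- largest element of the class below `j`
    have hne : (univ.filter fun c : Fin n => r i c ∧ c < j).Nonempty := ⟨i, by simp [h2]⟩
    set a := (univ.filter fun c : Fin n => r i c ∧ c < j).max' hne with ha
    have hm := Finset.max'_mem _ hne
    rw [← ha, Finset.mem_filter] at hm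
    have hia : i ≤ a := Finset.le_max' _ i (by simp [h2])
    have hak : r a k := r.trans (r.symm hm.2.1) h5
    have hjn : j < nextOf r a := by
      by_contra hcon
      push Not at hcon
      have h7 : r i (nextOf r a) := r.trans hm.2.1 (rel_nextOf r a)
      rcases lt_or_eq_of_le hcon with h | h
      · have h8 : nextOf r a ≤ a := Finset.le_max' _ _ (by
          rw [Finset.mem_filter]; exact ⟨mem_univ _, h7, h⟩)
        have h9 := lt_nextOf r (hm.2.2.trans h3) hak
        exact absurd h9 (not_lt.mpr h8)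
      · rw [h] at h7
        exact h6 h7
    have hnk : nextOf r a ≤ k := nextOf_le r (hm.2.2.trans h3) hak
    have e1 : i.val ≤ a.val := hia
    have e2 : a.val < j.val := hm.2.2
    have e3 : j.val < (nextOf r a).val := hjn
    have e4 : (nextOf r a).val ≤ k.val := hnk
    exact ⟨a, by omega, by omega, by omega⟩
  · rintro ⟨a, h1, h2, h3⟩
    have h4 := (nextOf r a).isLt
    refine ⟨a, ⟨a.val + 1, by omega⟩, nextOf r a, h1, ?_, ?_, h3, rel_nextOf r a, ?_⟩
    · show a.val < a.val + 1
      omega
    · show a.val + 1 < (nextOf r a).val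
      exact h2
    · apply not_rel_between
      · show a.val < a.val + 1
        omega
      · show a.val + 1 < (nextOf r a).val
        exact h2

theorem badOn_toggleS {r : Setoid (Fin n)} (hr : NonCr r) (lo hi : ℕ) :
    BadOn (toggleS r) lo hi ↔ BadOn r lo hi := by
  rw [badOn_iff, badOn_iff, nextOf_toggleS hr]
  have hf := isNext_nextOf hr
  constructor
  · rintro ⟨a, h1, h2, h3⟩
    rw [toggle_long_iff hf] at h2
    rw [toggle_long h2] at h3
    exact ⟨a, h1, h2, h3⟩
  · rintro ⟨a, h1, h2, h3⟩
    refine ⟨a, h1, ?_, ?_⟩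
    · rw [toggle_long_iff hf]; exact h2
    · rw [toggle_long h2]; exact h3

/-! ### Rotations -/

/-- reduction of a natural number modulo `n` -/
def cst [NeZero n] (i : ℕ) : Fin n := ⟨i % n, Nat.mod_lt _ (Nat.pos_of_ne_zero (NeZero.ne n))⟩

/-- shift by `k` -/
def shift [NeZero n] (k : ℕ) (x : Fin n) : Fin n := cst (x.val + k)

theorem cst_val [NeZero n] (i : ℕ) : (cst i : Fin n).val = i % n := rfl

theorem cst_fin [NeZero n] (x : Fin n) : cst x.val = x := by
  apply Fin.ext
  rw [cst_val]
  exact Nat.mod_eq_of_lt x.isLt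

theorem cst_add_n [NeZero n] (i : ℕ) : (cst (i + n) : Fin n) = cst i := by
  apply Fin.ext
  rw [cst_val, cst_val, Nat.add_mod_right]

theorem shift_shift [NeZero n] (k l : ℕ) (x : Fin n) : shift k (shift l x) = shift (l + k) x := by
  apply Fin.ext
  simp only [shift, cst_val]
  rw [Nat.mod_add_mod, Nat.add_assoc]

theorem shift_n [NeZero n] (x : Fin n) : shift n x = x := by
  unfold shift
  rw [cst_add_n, cst_fin]

theorem shift_bij [NeZero n] {k : ℕ} (hk : k ≤ n) : Function.Bijective (shift k : Fin n → Fin n) := by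
  rw [Function.bijective_iff_has_inverse]
  refine ⟨shift (n - k), ?_, ?_⟩
  · intro x
    rw [shift_shift, Nat.add_sub_cancel' hk, shift_n]
  · intro x
    rw [shift_shift, Nat.sub_add_cancel hk, shift_n]

/-- rotation of a relation -/
def rot [NeZero n] (k : ℕ) (r : Setoid (Fin n)) : Setoid (Fin n) := r.comap (shift k)

theorem rot_rel [NeZero n] (k : ℕ) (r : Setoid (Fin n)) (x y : Fin n) :
    rot k r x y ↔ r (shift k x) (shift k y) := Iff.rfl

theorem rot_rot [NeZero n] (k l : ℕ) (r : Setoid (Fin n)) : rot k (rot l r) = rot (k + l) r := by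
  ext x y
  rw [rot_rel, rot_rel, rot_rel, shift_shift, shift_shift]

theorem rot_n [NeZero n] (r : Setoid (Fin n)) : rot n r = r := by
  ext x y
  rw [rot_rel, shift_n, shift_n]

theorem nonCr_rot_one [NeZero n] {r : Setoid (Fin n)} (hr : NonCr r) : NonCr (rot 1 r) := by
  intro a b c d hab hbc hcd hac hbd
  rw [rot_rel] at hac hbd ⊢
  have e1 : a.val < b.val := hab
  have e2 : b.val < c.val := hbc
  have e3 : c.val < d.val := hcd
  have e4 := d.isLt
  have va : (shift 1 a).val = a.val + 1 := by
    simp only [shift, cst_val]; exact Nat.mod_eq_of_lt (by omega)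
  have vb : (shift 1 b).val = b.val + 1 := by
    simp only [shift, cst_val]; exact Nat.mod_eq_of_lt (by omega)
  have vc : (shift 1 c).val = c.val + 1 := by
    simp only [shift, cst_val]; exact Nat.mod_eq_of_lt (by omega)
  by_cases hd : d.val + 1 < n
  · have vd : (shift 1 d).val = d.val + 1 := by
      simp only [shift, cst_val]; exact Nat.mod_eq_of_lt hd
    refine hr _ _ _ _ ?_ ?_ ?_ hac hbd
    · show (shift 1 a).val < (shift 1 b).val
      omega
    · show (shift 1 b).val < (shift 1 c).val
      omega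
    · show (shift 1 c).val < (shift 1 d).val
      omega
  · have vd : (shift 1 d).val = 0 := by
      have : d.val + 1 = n := by omega
      simp only [shift, cst_val, this, Nat.mod_self]
    have h := hr (shift 1 d) (shift 1 a) (shift 1 b) (shift 1 c) ?_ ?_ ?_ (r.symm hbd) hac
    · exact r.trans (r.symm h) (r.symm hbd)
    · show (shift 1 d).val < (shift 1 a).val
      omega
    · show (shift 1 a).val < (shift 1 b).val
      omega
    · show (shift 1 b).val < (shift 1 c).val
      omega

theorem nonCr_rot [NeZero n] {r : Setoid (Fin n)} (hr : NonCr r) (k : ℕ) : NonCr (rot k r) := by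
  induction k with
  | zero =>
    have : rot 0 r = r := by
      ext x y
      rw [rot_rel]
      have h0 : ∀ z : Fin n, shift 0 z = z := fun z => by
        unfold shift
        rw [Nat.add_zero, cst_fin]
      rw [h0, h0]
    rw [this]
    exact hr
  | succ k ih =>
    have : rot (k + 1) r = rot 1 (rot k r) := by rw [rot_rot, add_comm]
    rw [this]
    exact nonCr_rot_one ih

theorem numBlocks_rot [NeZero n] {k : ℕ} (hk : k ≤ n) (r : Setoid (Fin n)) :
    numBlocks (rot k r) = numBlocks r := by
  unfold numBlocks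
  exact Nat.card_congr (Quotient.congr (Equiv.ofBijective _ (shift_bij hk)) (fun _ _ => Iff.rfl))

/-- The relation is not contiguous on the cyclic interval `[lo, hi]`. -/
def BadSide [NeZero n] (r : Setoid (Fin n)) (lo hi : ℕ) : Prop :=
  ∃ i j k : ℕ, lo ≤ i ∧ i < j ∧ j < k ∧ k ≤ hi ∧ r (cst i) (cst k) ∧ ¬ r (cst i) (cst j)

theorem badSide_add_n [NeZero n] (r : Setoid (Fin n)) (lo hi : ℕ) :
    BadSide r (lo + n) (hi + n) ↔ BadSide r lo hi := by
  constructor
  · rintro ⟨i, j, k, h1, h2, h3, h4, h5, h6⟩
    refine ⟨i - n, j - n, k - n, by omega, by omega, by omega, by omega, ?_, ?_⟩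
    · rw [← cst_add_n (i - n), ← cst_add_n (k - n), Nat.sub_add_cancel (by omega),
        Nat.sub_add_cancel (by omega)]
      exact h5
    · rw [← cst_add_n (i - n), ← cst_add_n (j - n), Nat.sub_add_cancel (by omega),
        Nat.sub_add_cancel (by omega)]
      exact h6
  · rintro ⟨i, j, k, h1, h2, h3, h4, h5, h6⟩
    refine ⟨i + n, j + n, k + n, by omega, by omega, by omega, by omega, ?_, ?_⟩
    · rw [cst_add_n, cst_add_n]; exact h5
    · rw [cst_add_n, cst_add_n]; exact h6

theorem badOn_rot [NeZero n] (r : Setoid (Fin n)) (s lo hi : ℕ) (hhi : hi < n) :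
    BadOn (rot s r) lo hi ↔ BadSide r (lo + s) (hi + s) := by
  constructor
  · rintro ⟨i, j, k, h1, h2, h3, h4, h5, h6⟩
    have e2 : i.val < j.val := h2
    have e3 : j.val < k.val := h3
    exact ⟨i.val + s, j.val + s, k.val + s, by omega, by omega, by omega, by omega, h5, h6⟩
  · rintro ⟨i, j, k, h1, h2, h3, h4, h5, h6⟩
    refine ⟨⟨i - s, by omega⟩, ⟨j - s, by omega⟩, ⟨k - s, by omega⟩, ?_, ?_, ?_, ?_, ?_, ?_⟩
    · show lo ≤ i - s
      omega
    · show i - s < j - s
      omega
    · show j - s < k - s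
      omega
    · show k - s ≤ hi
      omega
    · rw [rot_rel]
      unfold shift
      rw [show (⟨i - s, by omega⟩ : Fin n).val + s = i by show i - s + s = i; omega,
        show (⟨k - s, by omega⟩ : Fin n).val + s = k by show k - s + s = k; omega]
      exact h5
    · rw [rot_rel]
      unfold shift
      rw [show (⟨i - s, by omega⟩ : Fin n).val + s = i by show i - s + s = i; omega,
        show (⟨j - s, by omega⟩ : Fin n).val + s = j by show j - s + s = j; omega]
      exact h6

/-- The toggling involution with cut after position `s`. -/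
noncomputable def togCut [NeZero n] (s : ℕ) (r : Setoid (Fin n)) : Setoid (Fin n) :=
  rot (n - (s + 1)) (toggleS (rot (s + 1) r))

theorem nonCr_togCut [NeZero n] {s : ℕ} {r : Setoid (Fin n)} (hr : NonCr r) :
    NonCr (togCut s r) :=
  nonCr_rot (nonCr_toggleS (nonCr_rot hr _)) _

theorem togCut_togCut [NeZero n] {s : ℕ} (hs : s < n) {r : Setoid (Fin n)} (hr : NonCr r) :
    togCut s (togCut s r) = r := by
  unfold togCut
  rw [rot_rot, Nat.add_sub_cancel' (show s + 1 ≤ n from hs), rot_n,
    toggleS_toggleS (nonCr_rot hr _), rot_rot, Nat.sub_add_cancel (show s + 1 ≤ n from hs), rot_n]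

theorem numBlocks_togCut [NeZero n] {s : ℕ} (hs : s < n) {r : Setoid (Fin n)} (hr : NonCr r) :
    numBlocks r + numBlocks (togCut s r) = n + 1 := by
  unfold togCut
  rw [numBlocks_rot (Nat.sub_le _ _)]
  have := numBlocks_toggleS (nonCr_rot hr (s + 1)) (Nat.pos_of_ne_zero (NeZero.ne n))
  rwa [numBlocks_rot (show s + 1 ≤ n from hs)] at this

theorem badSide_togCut [NeZero n] {s : ℕ} (hs : s < n) {r : Setoid (Fin n)} (hr : NonCr r)
    {lo hi : ℕ} (hhi : hi ≤ n) (h : hi ≤ s ∨ s + 1 ≤ lo) :
    BadSide (togCut s r) lo hi ↔ BadSide r lo hi := by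
  have key : ∀ (r : Setoid (Fin n)) (lo' hi' : ℕ), hi' < n →
      ((lo' + (s + 1) = lo + n ∧ hi' + (s + 1) = hi + n) ∨
        (lo' + (s + 1) = lo ∧ hi' + (s + 1) = hi)) →
      (BadSide r lo hi ↔ BadOn (rot (s + 1) r) lo' hi') := by
    intro r lo' hi' h1 h2
    rw [badOn_rot r (s + 1) lo' hi' h1]
    rcases h2 with ⟨h2, h3⟩ | ⟨h2, h3⟩
    · rw [h2, h3, badSide_add_n]
    · rw [h2, h3]
  have hrot : rot (s + 1) (togCut s r) = toggleS (rot (s + 1) r) := by
    unfold togCut
    rw [rot_rot, Nat.add_sub_cancel' (show s + 1 ≤ n from hs), rot_n]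
  have main : ∀ lo' hi' : ℕ, hi' < n →
      ((lo' + (s + 1) = lo + n ∧ hi' + (s + 1) = hi + n) ∨
        (lo' + (s + 1) = lo ∧ hi' + (s + 1) = hi)) →
      (BadSide (togCut s r) lo hi ↔ BadSide r lo hi) := by
    intro lo' hi' h1 h2
    rw [key _ lo' hi' h1 h2, key _ lo' hi' h1 h2, hrot, badOn_toggleS (nonCr_rot hr _)]
  rcases h with h | h
  · exact main (lo + n - (s + 1)) (hi + n - (s + 1)) (by omega) (Or.inl ⟨by omega, by omega⟩)
  · rcases Nat.lt_or_ge hi (s + 1) with h' | h'
    · -- empty interval: both sides are false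
      have : ∀ r' : Setoid (Fin n), ¬ BadSide r' lo hi := by
        rintro r' ⟨i, j, k, h1, h2, h3, h4, _, _⟩
        omega
      exact iff_of_false (this _) (this _)
    · exact main (lo - (s + 1)) (hi - (s + 1)) (by omega) (Or.inr ⟨by omega, by omega⟩)

end Pool.Agent.H43
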