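import Mathlib
import Pool.Agent.H43.NCRot

/-!
Counting noncrossing partitions which are contiguous on every side of a polygon without blank
sides: the numbers with `m` and with `n + 1 - m` blocks differ, `m` being the number of sides.
-/

namespace Pool.Agent.H43

open Finset Function

variable {n : ℕ}

/-- The positions of the `m` vertices on a cycle of `n` points, no side being blank. -/
structure Sides (n m : ℕ) (v : ℕ → ℕ) : Prop where
  zero : v 0 = 0
  last : v m = n
  gap : ∀ i, i < m → v i + 2 ≤ v (i + 1)

theorem Sides.mono {m : ℕ} {v : ℕ → ℕ} (h : Sides n m v) : ∀ {i j : ℕ}, i ≤ j → j ≤ m →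
    v i + 2 * (j - i) ≤ v j := by
  intro i j
  induction j with
  | zero => intro h1 _; have : i = 0 := by omega
            subst this; simp
  | succ j ih =>
    intro h1 h2
    rcases Nat.lt_or_ge j i with h' | h'
    · have : i = j + 1 := by omega
      subst this
      simp
    · have h3 := ih h' (by omega)
      have h4 := h.gap j (by omega)
      omega

theorem Sides.le_n {m : ℕ} {v : ℕ → ℕ} (h : Sides n m v) {i : ℕ} (hi : i ≤ m) : v i ≤ n := by
  have := h.mono hi le_rfl
  rw [h.last] at this
  omega

theorem Sides.lt_n {m : ℕ} {v : ℕ → ℕ} (h : Sides n m v) {i : ℕ} (hi : i < m) : v i < n := by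
  have := h.mono (show i ≤ m by omega) le_rfl
  rw [h.last] at this
  omega

theorem Sides.index_eq {m : ℕ} {v : ℕ → ℕ} (h : Sides n m v) {i j x : ℕ} (hi : i < m) (hj : j < m)
    (h1 : v i ≤ x) (h2 : x < v (i + 1)) (h3 : v j ≤ x) (h4 : x < v (j + 1)) : i = j := by
  rcases lt_trichotomy i j with h' | h' | h'
  · have := h.mono (show i + 1 ≤ j by omega) (by omega)
    omega
  · exact h'
  · have := h.mono (show j + 1 ≤ i by omega) (by omega)
    omega

instance : Finite (Setoid (Fin n)) :=
  Finite.of_injective (fun r : Setoid (Fin n) => fun a b => r a b) (by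
    intro r s h
    ext a b
    exact iff_of_eq (congrFun (congrFun h a) b))

/-! ### The lower bound for the number of blocks -/

theorem cst_of_lt [NeZero n] {i : ℕ} (h : i < n) : (cst i : Fin n).val = i := by
  rw [cst_val]; exact Nat.mod_eq_of_lt h

theorem cst_n [NeZero n] : (cst n : Fin n).val = 0 := by
  rw [cst_val]; exact Nat.mod_self n

/-- the class of an element enclosed by a bad pair stays inside of the pair -/
theorem inside_of_bad [NeZero n] {r : Setoid (Fin n)} (hr : NonCr r) {a b c : ℕ} (hab : a < b)
    (hbc : b < c) (hc : c ≤ n) (h1 : r (cst a) (cst c)) (h2 : ¬ r (cst a) (cst b)) {y : Fin n}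
    (hy : r (cst b) y) : a < y.val ∧ y.val < c := by
  have va : (cst a : Fin n).val = a := cst_of_lt (by omega)
  have vb : (cst b : Fin n).val = b := cst_of_lt (by omega)
  constructor
  · by_contra hcon
    push Not at hcon
    rcases Nat.lt_or_ge c n with hcn | hcn
    · have vc : (cst c : Fin n).val = c := cst_of_lt hcn
      rcases Nat.lt_or_ge y.val a with h3 | h3
      · have := hr y (cst a) (cst b) (cst c) (by show y.val < (cst a : Fin n).val; omega)
          (by show (cst a : Fin n).val < (cst b : Fin n).val; omega)
          (by show (cst b : Fin n).val < (cst c : Fin n).val; omega) (r.symm hy) h1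
        exact h2 (r.symm (r.trans hy this))
      · have : y = cst a := by
          apply Fin.ext; omega
        rw [this] at hy
        exact h2 (r.symm hy)
    · have hcn' : c = n := by omega
      subst hcn'
      have vc : (cst c : Fin c).val = 0 := cst_n
      rcases Nat.eq_zero_or_pos y.val with h0 | h0
      · have : y = cst c := by
          apply Fin.ext; omega
        rw [this] at hy
        exact h2 (r.trans h1 (r.symm hy))
      · rcases Nat.lt_or_ge y.val a with h3 | h3
        · have := hr (cst c) y (cst a) (cst b) (by show (cst c : Fin c).val < y.val; omega)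
            (by show y.val < (cst a : Fin c).val; omega)
            (by show (cst a : Fin c).val < (cst b : Fin c).val; omega) (r.symm h1) (r.symm hy)
          exact h2 (r.trans h1 (r.trans this (r.symm hy)))
        · have : y = cst a := by
            apply Fin.ext; omega
          rw [this] at hy
          exact h2 (r.symm hy)
  · by_contra hcon
    push Not at hcon
    have hyn := y.isLt
    have hcn : c < n := by omega
    have vc : (cst c : Fin n).val = c := cst_of_lt hcn
    rcases Nat.lt_or_ge c y.val with h3 | h3
    · have := hr (cst a) (cst b) (cst c) y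
          (by show (cst a : Fin n).val < (cst b : Fin n).val; omega)
          (by show (cst b : Fin n).val < (cst c : Fin n).val; omega)
          (by show (cst c : Fin n).val < y.val; omega) h1 hy
      exact h2 this
    · have : y = cst c := by
        apply Fin.ext; omega
      rw [this] at hy
      exact h2 (r.trans h1 (r.symm hy))

theorem numBlocks_lower [NeZero n] {m : ℕ} {v : ℕ → ℕ} (hv : Sides n m v) (hm : 0 < m)
    {r : Setoid (Fin n)} (hr : NonCr r) (hbad : ∀ i, i < m → BadSide r (v i) (v (i + 1))) :
    m + 1 ≤ numBlocks r := by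
  classical
  have hbad' : ∀ i : Fin m, ∃ a b c : ℕ, v i.val ≤ a ∧ a < b ∧ b < c ∧ c ≤ v (i.val + 1) ∧
      r (cst a) (cst c) ∧ ¬ r (cst a) (cst b) := fun i => hbad i.val i.isLt
  choose a b c h1 h2 h3 h4 h5 h6 using hbad'
  have hcn : ∀ i : Fin m, c i ≤ n := fun i => (h4 i).trans (hv.le_n i.isLt)
  have vb : ∀ i : Fin m, (cst (b i) : Fin n).val = b i := fun i =>
    cst_of_lt (by have := h3 i; have := hcn i; omega)
  let last : Fin m := ⟨m - 1, by omega⟩
  have va : (cst (a last) : Fin n).val = a last :=
    cst_of_lt (by have := h3 last; have := h2 last; have := hcn last; omega)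
  let g : Option (Fin m) → Quotient r := fun o =>
    match o with
    | none => Quotient.mk r (cst (a last))
    | some i => Quotient.mk r (cst (b i))
  have hg : Function.Injective g := by
    have key : ∀ i j : Fin m, r (cst (b i)) (cst (b j)) → i = j := by
      intro i j hij
      have := inside_of_bad hr (h2 i) (h3 i) (hcn i) (h5 i) (h6 i) hij
      rw [vb j] at this
      have e1 := h1 i; have e2 := h4 i; have e3 := h1 j; have e4 := h4 j
      have e5 := h2 j; have e6 := h3 j
      apply Fin.ext
      exact hv.index_eq (x := b j) i.isLt j.isLt (by omega) (by omega) (by omega) (by omega)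
    have key2 : ∀ i : Fin m, ¬ r (cst (b i)) (cst (a last)) := by
      intro i hi
      by_cases hil : i = last
      · subst hil
        exact h6 last (r.symm hi)
      · have := inside_of_bad hr (h2 i) (h3 i) (hcn i) (h5 i) (h6 i) hi
        rw [va] at this
        have e1 := h1 i; have e2 := h4 i; have e3 := h1 last; have e4 := h4 last
        have e5 : i.val ≠ m - 1 := fun h => hil (Fin.ext h)
        have e6 := i.isLt
        have e7 := hv.mono (show i.val + 1 ≤ m - 1 by omega) (by omega)
        have e8 : v last.val = v (m - 1) := rfl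
        omega
    intro o1 o2 h
    rcases o1 with _ | i <;> rcases o2 with _ | j
    · rfl
    · exact absurd (r.symm (Quotient.exact h)) (key2 j)
    · exact absurd (Quotient.exact h) (key2 i)
    · rw [key i j (Quotient.exact h)]
  have hfin : Finite (Quotient r) := inferInstance
  have := Nat.card_le_card_of_injective g hg
  unfold numBlocks
  rw [Nat.card_eq_fintype_card, Fintype.card_option, Fintype.card_fin] at this
  exact this

/-! ### The maximal number of blocks -/

/-- vertices in one block, all other points singletons -/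
def vertexSetoid (n m : ℕ) (v : ℕ → ℕ) : Setoid (Fin n) where
  r x y := x = y ∨ ((∃ i, i < m ∧ v i = x.val) ∧ ∃ i, i < m ∧ v i = y.val)
  iseqv :=
    { refl := fun x => Or.inl rfl
      symm := fun {x y} h => h.elim (fun h => Or.inl h.symm) (fun h => Or.inr ⟨h.2, h.1⟩)
      trans := fun {x y z} h1 h2 => by
        rcases h1 with h1 | h1
        · rw [h1]; exact h2
        · rcases h2 with h2 | h2
          · rw [← h2]; exact Or.inr h1
          · exact Or.inr ⟨h1.1, h2.2⟩ }

theorem vertexSetoid_rel {m : ℕ} {v : ℕ → ℕ} {x y : Fin n} : vertexSetoid n m v x y ↔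
    x = y ∨ ((∃ i, i < m ∧ v i = x.val) ∧ ∃ i, i < m ∧ v i = y.val) := Iff.rfl

theorem nonCr_vertexSetoid {m : ℕ} {v : ℕ → ℕ} : NonCr (vertexSetoid n m v) := by
  intro a b c d hab hbc hcd hac hbd
  rw [vertexSetoid_rel] at *
  rcases hac with h | ⟨h1, h2⟩
  · exact absurd h (hab.trans hbc).ne
  · rcases hbd with h | ⟨h3, h4⟩
    · exact absurd h (hbc.trans hcd).ne
    · exact Or.inr ⟨h1, h3⟩

theorem badSide_vertexSetoid [NeZero n] {m : ℕ} {v : ℕ → ℕ} (hv : Sides n m v) {i : ℕ}
    (hi : i < m) : BadSide (vertexSetoid n m v) (v i) (v (i + 1)) := by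
  have hgap := hv.gap i hi
  have hle := hv.le_n (show i + 1 ≤ m from hi)
  have hlt := hv.lt_n hi
  refine ⟨v i, v i + 1, v (i + 1), le_rfl, by omega, by omega, le_rfl, ?_, ?_⟩
  · rw [vertexSetoid_rel]
    right
    refine ⟨⟨i, hi, (cst_of_lt hlt).symm⟩, ?_⟩
    rcases Nat.lt_or_ge (i + 1) m with h | h
    · exact ⟨i + 1, h, (cst_of_lt (hv.lt_n h)).symm⟩
    · have h' : i + 1 = m := by omega
      refine ⟨0, by omega, ?_⟩
      rw [h', hv.last, hv.zero, cst_n]
  · rw [vertexSetoid_rel]
    have e1 : (cst (v i) : Fin n).val = v i := cst_of_lt hlt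
    have e2 : (cst (v i + 1) : Fin n).val = v i + 1 := cst_of_lt (by omega)
    rintro (h | ⟨_, j, hj, hj2⟩)
    · rw [Fin.ext_iff] at h
      omega
    · rw [e2] at hj2
      rcases lt_trichotomy i j with h' | h' | h'
      · have := hv.mono (show i + 1 ≤ j by omega) (by omega)
        omega
      · subst h'
        omega
      · have := hv.mono (show j ≤ i by omega) (by omega)
        omega

theorem numBlocks_add_nonfix (r : Setoid (Fin n)) :
    numBlocks r + (univ.filter fun a : Fin n => nextOf r a ≠ a).card = n := by
  classical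
  rw [numBlocks_eq]
  unfold numFix
  rw [Finset.card_filter_add_card_filter_not]
  simp

theorem numBlocks_vertexSetoid [NeZero n] {m : ℕ} {v : ℕ → ℕ} (hv : Sides n m v) (hm : 0 < m) :
    numBlocks (vertexSetoid n m v) = n + 1 - m := by
  classical
  have h1 := numBlocks_add_nonfix (vertexSetoid n m v)
  have h2 : (univ.filter fun a : Fin n => nextOf (vertexSetoid n m v) a ≠ a).card = m - 1 := by
    have : (univ.filter fun a : Fin n => nextOf (vertexSetoid n m v) a ≠ a) =
        (Finset.range (m - 1)).image (fun i => (cst (v i) : Fin n)) := by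
      ext a
      rw [Finset.mem_filter, Finset.mem_image]
      constructor
      · rintro ⟨_, h⟩
        rw [Ne, nextOf_fix_iff] at h
        push Not at h
        obtain ⟨c, hc, hr⟩ := h
        rw [vertexSetoid_rel] at hr
        have hc' : a.val < c.val := hc
        rcases hr with h | ⟨⟨i, hi, hi2⟩, j, hj, hj2⟩
        · exact absurd h hc.ne
        · refine ⟨i, ?_, ?_⟩
          · rw [Finset.mem_range]
            by_contra hcon
            have : j ≤ i := by omega
            have := hv.mono this (by omega)
            omega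
          · apply Fin.ext
            rw [cst_of_lt (hv.lt_n hi)]
            exact hi2
      · rintro ⟨i, hi, rfl⟩
        rw [Finset.mem_range] at hi
        refine ⟨mem_univ _, ?_⟩
        rw [Ne, nextOf_fix_iff]
        push Not
        have e1 : (cst (v i) : Fin n).val = v i := cst_of_lt (hv.lt_n (by omega))
        have e2 : (cst (v (i + 1)) : Fin n).val = v (i + 1) := cst_of_lt (hv.lt_n (by omega))
        refine ⟨cst (v (i + 1)), ?_, ?_⟩
        · show (cst (v i) : Fin n).val < (cst (v (i + 1)) : Fin n).val
          have := hv.gap i (by omega)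
          omega
        · rw [vertexSetoid_rel]
          right
          exact ⟨⟨i, by omega, e1.symm⟩, i + 1, by omega, e2.symm⟩
    rw [this, Finset.card_image_of_injOn, Finset.card_range]
    intro i hi j hj hij
    simp only [Finset.coe_range, Set.mem_Iio] at hi hj
    have h3 : (cst (v i) : Fin n).val = (cst (v j) : Fin n).val := congrArg Fin.val hij
    rw [cst_of_lt (hv.lt_n (by omega)), cst_of_lt (hv.lt_n (by omega))] at h3
    rcases lt_trichotomy i j with h' | h' | h'
    · have := hv.mono (show i ≤ j by omega) (by omega)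
      omega
    · exact h'
    · have := hv.mono (show j ≤ i by omega) (by omega)
      omega
  have h3 := hv.mono (Nat.zero_le m) le_rfl
  rw [hv.last, hv.zero] at h3
  omega

theorem eq_vertexSetoid [NeZero n] {m : ℕ} {v : ℕ → ℕ} (hv : Sides n m v) (hm : 0 < m)
    {r : Setoid (Fin n)} (hbad : ∀ i, i < m → BadSide r (v i) (v (i + 1)))
    (hb : numBlocks r = n + 1 - m) : r = vertexSetoid n m v := by
  classical
  have hnm : 2 * m ≤ n := by
    have h3 := hv.mono (Nat.zero_le m) le_rfl
    rw [hv.last, hv.zero] at h3
    omega
  -- witnesses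
  have hbad' : ∀ i : ℕ, ∃ a b c : ℕ, i < m → v i ≤ a ∧ a < b ∧ b < c ∧ c ≤ v (i + 1) ∧
      r (cst a) (cst c) ∧ ¬ r (cst a) (cst b) := by
    intro i
    by_cases hi : i < m
    · obtain ⟨a, b, c, h⟩ := hbad i hi
      exact ⟨a, b, c, fun _ => h⟩
    · exact ⟨0, 0, 0, fun h => absurd h hi⟩
  choose a b c hw using hbad'
  set NF := univ.filter fun a : Fin n => nextOf r a ≠ a with hNF
  have hNFmem : ∀ x : Fin n, x ∈ NF ↔ ∃ y, x < y ∧ r x y := by
    intro x
    rw [hNF, Finset.mem_filter, Ne, nextOf_fix_iff]
    push Not
    exact ⟨fun h => h.2, fun h => ⟨mem_univ _, h⟩⟩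
  have hNFcard : NF.card = m - 1 := by
    have := numBlocks_add_nonfix r
    rw [hb] at this
    rw [hNF]
    omega
  -- facts about witnesses of the sides but the last
  have hva : ∀ i, i < m → (cst (a i) : Fin n).val = a i := by
    intro i hi
    have := hw i hi
    have := hv.le_n (show i + 1 ≤ m from hi)
    exact cst_of_lt (by omega)
  have hvc : ∀ i, i < m - 1 → (cst (c i) : Fin n).val = c i := by
    intro i hi
    have := hw i (by omega)
    have := hv.lt_n (show i + 1 < m by omega)
    exact cst_of_lt (by omega)
  have haNF : ∀ i, i < m - 1 → (cst (a i) : Fin n) ∈ NF := by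
    intro i hi
    rw [hNFmem]
    have h1 := hw i (by omega)
    refine ⟨cst (c i), ?_, h1.2.2.2.2.1⟩
    show (cst (a i) : Fin n).val < (cst (c i) : Fin n).val
    rw [hva i (by omega), hvc i hi]
    omega
  have hinj : Set.InjOn (fun i => (cst (a i) : Fin n)) (Finset.range (m - 1) : Set ℕ) := by
    intro i hi j hj hij
    simp only [Finset.coe_range, Set.mem_Iio] at hi hj
    have h3 : (cst (a i) : Fin n).val = (cst (a j) : Fin n).val := congrArg Fin.val hij
    rw [hva i (by omega), hva j (by omega)] at h3
    have h1 := hw i (by omega)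
    have h2 := hw j (by omega)
    exact hv.index_eq (x := a i) (by omega) (by omega) (by omega) (by omega) (by omega)
      (by omega)
  have hNFeq : NF = (Finset.range (m - 1)).image (fun i => (cst (a i) : Fin n)) := by
    symm
    apply Finset.eq_of_subset_of_card_le
    · intro x hx
      rw [Finset.mem_image] at hx
      obtain ⟨i, hi, rfl⟩ := hx
      exact haNF i (Finset.mem_range.mp hi)
    · rw [Finset.card_image_of_injOn hinj, Finset.card_range, hNFcard]
  have hNF' : ∀ x : Fin n, x ∈ NF → ∃ i, i < m - 1 ∧ x.val = a i := by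
    intro x hx
    rw [hNFeq, Finset.mem_image] at hx
    obtain ⟨i, hi, rfl⟩ := hx
    rw [Finset.mem_range] at hi
    exact ⟨i, hi, hva i (by omega)⟩
  -- the last side
  have hlast := hw (m - 1) (by omega)
  have hm1 : m - 1 + 1 = m := by omega
  rw [hm1, hv.last] at hlast
  obtain ⟨l1, l2, l3, l4, l5, l6⟩ := hlast
  have hcl : c (m - 1) = n := by
    by_contra hcon
    have hc' : (cst (c (m - 1)) : Fin n).val = c (m - 1) := cst_of_lt (by omega)
    have hmem : (cst (a (m - 1)) : Fin n) ∈ NF := by
      rw [hNFmem]
      refine ⟨cst (c (m - 1)), ?_, l5⟩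
      show (cst (a (m - 1)) : Fin n).val < (cst (c (m - 1)) : Fin n).val
      rw [hva _ (by omega), hc']
      omega
    obtain ⟨i, hi, hi2⟩ := hNF' _ hmem
    rw [hva _ (by omega)] at hi2
    have h1 := hw i (by omega)
    have h2 := hv.mono (show i + 1 ≤ m - 1 by omega) (by omega)
    omega
  rw [hcl] at l5
  have vn : (cst n : Fin n).val = 0 := cst_n
  have hcst0 : (cst n : Fin n) = cst (v 0) := by
    apply Fin.ext
    rw [vn, hv.zero, cst_of_lt (by omega)]
  -- all vertices are related to the last witness
  have hvlt : ∀ i, i < m → (cst (v i) : Fin n).val = v i := fun i hi => cst_of_lt (hv.lt_n hi)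
  have hchain : ∀ i, i < m → r (cst (v i)) (cst (a (m - 1))) ∧ (i < m - 1 → a i = v i) := by
    intro i
    induction i with
    | zero =>
      intro h0
      have h1 : r (cst (v 0)) (cst (a (m - 1))) := by
        rw [← hcst0]; exact r.symm l5
      refine ⟨h1, ?_⟩
      intro h2
      have hmem : (cst (v 0) : Fin n) ∈ NF := by
        rw [hNFmem]
        refine ⟨cst (a (m - 1)), ?_, h1⟩
        show (cst (v 0) : Fin n).val < (cst (a (m - 1)) : Fin n).val
        rw [hvlt 0 h0, hva _ (by omega)]
        have := hv.mono (show 0 ≤ m - 1 by omega) (by omega)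
        omega
      obtain ⟨j, hj, hj2⟩ := hNF' _ hmem
      rw [hvlt 0 h0] at hj2
      have h3 := hw j (by omega)
      have h4 := hv.gap 0 (by omega)
      have : 0 = j := hv.index_eq (x := v 0) (by omega) (by omega) le_rfl (by omega) (by omega)
        (by omega)
      rw [← this] at hj2
      exact hj2.symm
    | succ i ih =>
      intro h0
      obtain ⟨ih1, ih2⟩ := ih (by omega)
      have hai : a i = v i := ih2 (by omega)
      have hwi := hw i (by omega)
      have hrc : r (cst (c i)) (cst (a (m - 1))) := by
        have : r (cst (a i)) (cst (c i)) := hwi.2.2.2.2.1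
        rw [hai] at this
        exact r.trans (r.symm this) ih1
      have hmono := hv.mono (show i + 1 ≤ m - 1 by omega) (by omega)
      have hci : c i = v (i + 1) := by
        rcases Nat.lt_or_ge (c i) (a (m - 1)) with h | h
        · have hmem : (cst (c i) : Fin n) ∈ NF := by
            rw [hNFmem]
            refine ⟨cst (a (m - 1)), ?_, hrc⟩
            show (cst (c i) : Fin n).val < (cst (a (m - 1)) : Fin n).val
            rw [hvc i (by omega), hva _ (by omega)]
            exact h
          obtain ⟨j, hj, hj2⟩ := hNF' _ hmem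
          rw [hvc i (by omega)] at hj2
          have h3 := hw j (by omega)
          by_contra hcon
          have h5 : i = j := hv.index_eq (x := c i) (by omega) (by omega) (by omega) (by omega)
            (by omega) (by omega)
          rw [← h5] at hj2
          omega
        · omega
      rw [hci] at hrc
      refine ⟨hrc, ?_⟩
      intro h2
      have hmem : (cst (v (i + 1)) : Fin n) ∈ NF := by
        rw [hNFmem]
        refine ⟨cst (a (m - 1)), ?_, hrc⟩
        show (cst (v (i + 1)) : Fin n).val < (cst (a (m - 1)) : Fin n).val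
        rw [hvlt _ h0, hva _ (by omega)]
        have := hv.mono (show i + 1 + 1 ≤ m - 1 by omega) (by omega)
        omega
      obtain ⟨j, hj, hj2⟩ := hNF' _ hmem
      rw [hvlt _ h0] at hj2
      have h3 := hw j (by omega)
      have h4 := hv.gap (i + 1) (by omega)
      have : i + 1 = j := hv.index_eq (x := v (i + 1)) (by omega) (by omega) le_rfl (by omega)
        (by omega) (by omega)
      rw [← this] at hj2
      exact hj2.symm
  have hvv : ∀ i j, i < m → j < m → r (cst (v i)) (cst (v j)) := fun i j hi hj =>
    r.trans (hchain i hi).1 (r.symm (hchain j hj).1)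
  -- non-maximal elements are vertices
  have hNFv : ∀ x : Fin n, x ∈ NF → ∃ i, i < m - 1 ∧ v i = x.val := by
    intro x hx
    obtain ⟨i, hi, hi2⟩ := hNF' x hx
    exact ⟨i, hi, by rw [hi2, (hchain i (by omega)).2 hi]⟩
  have hlastfix : nextOf r (cst (v (m - 1))) = cst (v (m - 1)) := by
    by_contra hcon
    have hmem : (cst (v (m - 1)) : Fin n) ∈ NF := by
      rw [hNF, Finset.mem_filter]
      exact ⟨mem_univ _, hcon⟩
    obtain ⟨i, hi, hi2⟩ := hNFv _ hmem
    rw [hvlt _ (by omega)] at hi2
    have := hv.mono (show i ≤ m - 1 by omega) (by omega)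
    omega
  have key : ∀ x y : Fin n, x < y → r x y →
      (∃ i, i < m ∧ v i = x.val) ∧ ∃ i, i < m ∧ v i = y.val := by
    intro x y hxy hr
    have hx : x ∈ NF := by
      rw [hNFmem]; exact ⟨y, hxy, hr⟩
    obtain ⟨i, hi, hi2⟩ := hNFv x hx
    refine ⟨⟨i, by omega, hi2⟩, ?_⟩
    by_cases hy : y ∈ NF
    · obtain ⟨j, hj, hj2⟩ := hNFv y hy
      exact ⟨j, by omega, hj2⟩
    · have hyfix : nextOf r y = y := by
        by_contra hcon
        exact hy (by rw [hNF, Finset.mem_filter]; exact ⟨mem_univ _, hcon⟩)
      have hxe : x = cst (v i) := by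
        apply Fin.ext; rw [hvlt i (by omega)]; exact hi2.symm
      have hyl : r y (cst (v (m - 1))) := by
        apply r.trans (r.symm hr)
        rw [hxe]
        exact hvv i (m - 1) (by omega) (by omega)
      have := fix_unique r hyfix hlastfix hyl
      exact ⟨m - 1, by omega, by rw [this, hvlt _ (by omega)]⟩
  ext x y
  rw [vertexSetoid_rel]
  constructor
  · intro hr
    rcases lt_trichotomy x y with h | h | h
    · exact Or.inr (key x y h hr)
    · exact Or.inl h
    · exact Or.inr (key y x h (r.symm hr)).symm
  · rintro (h | ⟨⟨i, hi, hi2⟩, j, hj, hj2⟩)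
    · rw [h]
    · have e1 : x = cst (v i) := by apply Fin.ext; rw [hvlt i hi]; exact hi2.symm
      have e2 : y = cst (v j) := by apply Fin.ext; rw [hvlt j hj]; exact hj2.symm
      rw [e1, e2]
      exact hvv i j hi hj

/-! ### Inclusion-exclusion -/

theorem one_le_numBlocks [NeZero n] (r : Setoid (Fin n)) : 1 ≤ numBlocks r := by
  unfold numBlocks
  have h1 : Finite (Quotient r) := inferInstance
  have h2 : Nonempty (Quotient r) := ⟨Quotient.mk r (cst 0)⟩
  exact Nat.card_pos

theorem numBlocks_le (r : Setoid (Fin n)) : numBlocks r ≤ n := by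
  have := numBlocks_add_nonfix r
  omega

open Classical in
/-- **Main combinatorial theorem.** -/
theorem comb_main [NeZero n] {m : ℕ} {v : ℕ → ℕ} (hv : Sides n m v) (hm : 0 < m) :
    (Nat.card {r : Setoid (Fin n) // NonCr r ∧ (∀ i, i < m → ¬ BadSide r (v i) (v (i + 1))) ∧
        numBlocks r = m} : ℤ) -
      Nat.card {r : Setoid (Fin n) // NonCr r ∧ (∀ i, i < m → ¬ BadSide r (v i) (v (i + 1))) ∧
        numBlocks r = n + 1 - m} = (-1) ^ (m + 1) := by
  classical
  haveI : Fintype (Setoid (Fin n)) := Fintype.ofFinite _
  have hnm : 2 * m ≤ n := by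
    have h3 := hv.mono (Nat.zero_le m) le_rfl
    rw [hv.last, hv.zero] at h3
    omega
  let α := {r : Setoid (Fin n) // NonCr r}
  let S : ℕ → Finset α := fun i => univ.filter fun r : α => BadSide r.1 (v i) (v (i + 1))
  let f : α → ℤ := fun r => (if numBlocks r.1 = m then 1 else 0) -
    (if numBlocks r.1 = n + 1 - m then 1 else 0)
  have hIE := Finset.inclusion_exclusion_sum_inf_compl (Finset.range m) S f
  -- proper subsets contribute zero
  have hzero : ∀ t ∈ (Finset.range m).powerset, t ≠ Finset.range m →
      ∑ r ∈ t.inf S, f r = 0 := by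
    intro t ht hne
    rw [Finset.mem_powerset] at ht
    obtain ⟨s, hs, hst⟩ : ∃ s ∈ Finset.range m, s ∉ t := by
      by_contra hcon
      push Not at hcon
      exact hne (Finset.Subset.antisymm ht hcon)
    rw [Finset.mem_range] at hs
    have hsn : v s < n := hv.lt_n hs
    have hbadiff : ∀ (r : Setoid (Fin n)), NonCr r → ∀ i ∈ t,
        (BadSide (togCut (v s) r) (v i) (v (i + 1)) ↔ BadSide r (v i) (v (i + 1))) := by
      intro r hr i hi
      have him : i < m := Finset.mem_range.mp (ht hi)
      have his : i ≠ s := fun h => hst (h ▸ hi)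
      refine badSide_togCut hsn hr (hv.le_n him) ?_
      rcases Nat.lt_or_ge i s with h | h
      · left
        have := hv.mono (show i + 1 ≤ s from h) (by omega)
        omega
      · right
        have := hv.mono (show s + 1 ≤ i by omega) (by omega)
        have := hv.gap s hs
        omega
    let g : α → α := fun r => ⟨togCut (v s) r.1, nonCr_togCut r.2⟩
    have hfg : ∀ r : α, f r + f (g r) = 0 := by
      intro r
      have h1 := numBlocks_togCut hsn r.2
      have h2 := one_le_numBlocks r.1
      have h3 := numBlocks_le r.1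
      show ((if numBlocks r.1 = m then (1 : ℤ) else 0) -
        (if numBlocks r.1 = n + 1 - m then 1 else 0)) +
        ((if numBlocks (togCut (v s) r.1) = m then 1 else 0) -
        (if numBlocks (togCut (v s) r.1) = n + 1 - m then 1 else 0)) = 0
      have e1 : numBlocks (togCut (v s) r.1) = m ↔ numBlocks r.1 = n + 1 - m := by omega
      have e2 : numBlocks (togCut (v s) r.1) = n + 1 - m ↔ numBlocks r.1 = m := by omega
      simp only [e1, e2]
      ring
    have hmem : ∀ r : α, r ∈ t.inf S ↔ ∀ i ∈ t, BadSide r.1 (v i) (v (i + 1)) := by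
      intro r
      rw [Finset.mem_inf]
      constructor
      · intro h i hi
        have := h i hi
        rw [Finset.mem_filter] at this
        exact this.2
      · intro h i hi
        rw [Finset.mem_filter]
        exact ⟨mem_univ _, h i hi⟩
    refine Finset.sum_involution (fun r _ => g r) ?_ ?_ ?_ ?_
    · intro r _
      exact hfg r
    · intro r _ hne0 heq
      have := hfg r
      rw [heq] at this
      omega
    · intro r hr
      rw [hmem] at hr ⊢
      intro i hi
      exact (hbadiff r.1 r.2 i hi).mpr (hr i hi)
    · intro r _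
      exact Subtype.ext (togCut_togCut hsn r.2)
  -- the full set
  have hfull : ∑ r ∈ (Finset.range m).inf S, f r = -1 := by
    have hmem : ∀ r : α, r ∈ (Finset.range m).inf S ↔
        ∀ i, i < m → BadSide r.1 (v i) (v (i + 1)) := by
      intro r
      rw [Finset.mem_inf]
      constructor
      · intro h i hi
        have := h i (Finset.mem_range.mpr hi)
        rw [Finset.mem_filter] at this
        exact this.2
      · intro h i hi
        rw [Finset.mem_filter]
        exact ⟨mem_univ _, h i (Finset.mem_range.mp hi)⟩
    let r0 : α := ⟨vertexSetoid n m v, nonCr_vertexSetoid⟩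
    rw [Finset.sum_eq_single r0]
    · show (if numBlocks (vertexSetoid n m v) = m then (1 : ℤ) else 0) -
        (if numBlocks (vertexSetoid n m v) = n + 1 - m then 1 else 0) = -1
      rw [numBlocks_vertexSetoid hv hm, if_neg (by omega), if_pos rfl]
      norm_num
    · intro r hr hne
      rw [hmem] at hr
      have h1 := numBlocks_lower hv hm r.2 hr
      have h2 : numBlocks r.1 ≠ n + 1 - m := by
        intro h
        exact hne (Subtype.ext (eq_vertexSetoid hv hm hr h))
      show (if numBlocks r.1 = m then (1 : ℤ) else 0) -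
        (if numBlocks r.1 = n + 1 - m then 1 else 0) = 0
      rw [if_neg (by omega), if_neg h2]
      norm_num
    · intro hn
      exact absurd ((hmem r0).mpr fun i hi => badSide_vertexSetoid hv hi) hn
  have hrhs : ∑ t ∈ (Finset.range m).powerset, (-1 : ℤ) ^ t.card • ∑ a ∈ t.inf S, f a =
      (-1) ^ (m + 1) := by
    rw [Finset.sum_eq_single (Finset.range m)]
    · rw [hfull, Finset.card_range, smul_eq_mul, pow_succ]
    · intro t ht hne
      rw [hzero t ht hne, smul_zero]
    · intro h
      exact absurd (Finset.mem_powerset.mpr (Finset.Subset.refl _)) h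
  rw [hrhs] at hIE
  rw [← hIE]
  have hmemc : ∀ r : α, (r ∈ (Finset.range m).inf fun i => (S i)ᶜ) ↔
      ∀ i, i < m → ¬ BadSide r.1 (v i) (v (i + 1)) := by
    intro r
    rw [Finset.mem_inf]
    constructor
    · intro h i hi
      have := h i (Finset.mem_range.mpr hi)
      rw [Finset.mem_compl, Finset.mem_filter] at this
      intro hb
      exact this ⟨mem_univ _, hb⟩
    · intro h i hi
      rw [Finset.mem_compl, Finset.mem_filter]
      intro hb
      exact h i (Finset.mem_range.mp hi) hb.2
  have hcard : ∀ j : ℕ, (Nat.card {r : Setoid (Fin n) // NonCr r ∧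
      (∀ i, i < m → ¬ BadSide r (v i) (v (i + 1))) ∧ numBlocks r = j} : ℤ) =
      ∑ r ∈ (Finset.range m).inf fun i => (S i)ᶜ, (if numBlocks r.1 = j then (1 : ℤ) else 0) := by
    intro j
    rw [← Finset.sum_filter, Finset.sum_const, nsmul_eq_mul, mul_one]
    congr 1
    have e : {r : Setoid (Fin n) // NonCr r ∧
        (∀ i, i < m → ¬ BadSide r (v i) (v (i + 1))) ∧ numBlocks r = j} ≃
        {r : α // r ∈ ((Finset.range m).inf fun i => (S i)ᶜ).filter
          fun r => numBlocks r.1 = j} := {
      toFun := fun r => ⟨⟨r.1, r.2.1⟩, by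
        rw [Finset.mem_filter, hmemc]
        exact ⟨r.2.2.1, r.2.2.2⟩⟩
      invFun := fun r => ⟨r.1.1, r.1.2, by
        have := r.2
        rw [Finset.mem_filter, hmemc] at this
        exact this⟩
      left_inv := fun r => rfl
      right_inv := fun r => rfl }
    rw [Nat.card_congr e, Nat.card_eq_fintype_card, Fintype.card_coe]
  rw [hcard, hcard, ← Finset.sum_sub_distrib]

end Pool.Agent.H43
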