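import Mathlib

/-!
Elementary plane geometry in coordinates.
-/

namespace Pool.Agent.H43

/-- The Euclidean plane. -/
abbrev Pl := EuclideanSpace ℝ (Fin 2)

/-- Twice the signed area of the triangle `a b c`. -/
def det3 (a b c : Pl) : ℝ := (b 0 - a 0) * (c 1 - a 1) - (b 1 - a 1) * (c 0 - a 0)

theorem det3_cyc (a b c : Pl) : det3 b c a = det3 a b c := by
  unfold det3; ring

theorem det3_cyc' (a b c : Pl) : det3 c a b = det3 a b c := by
  unfold det3; ring

theorem det3_swap (a b c : Pl) : det3 b a c = - det3 a b c := by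
  unfold det3; ring

theorem det3_swap' (a b c : Pl) : det3 a c b = - det3 a b c := by
  unfold det3; ring

theorem det3_swap'' (a b c : Pl) : det3 c b a = - det3 a b c := by
  unfold det3; ring

theorem det3_self (a b : Pl) : det3 a b a = 0 := by
  unfold det3; ring

theorem det3_self' (a b : Pl) : det3 a b b = 0 := by
  unfold det3; ring

theorem det3_self'' (a b : Pl) : det3 a a b = 0 := by
  unfold det3; ring

theorem pl_ext {a b : Pl} (h0 : a 0 = b 0) (h1 : a 1 = b 1) : a = b := by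
  ext i
  fin_cases i
  · exact h0
  · exact h1

theorem sbtw_iff_coord {a b c : Pl} : Sbtw ℝ a b c ↔
    a ≠ c ∧ ∃ t : ℝ, 0 < t ∧ t < 1 ∧ b 0 = a 0 + t * (c 0 - a 0) ∧
      b 1 = a 1 + t * (c 1 - a 1) := by
  rw [sbtw_iff_mem_image_Ioo_and_ne]
  constructor
  · rintro ⟨⟨t, ht, rfl⟩, hne⟩
    refine ⟨hne, t, ht.1, ht.2, ?_, ?_⟩
    · simp [AffineMap.lineMap_apply]; ring
    · simp [AffineMap.lineMap_apply]; ring
  · rintro ⟨hne, t, h1, h2, h3, h4⟩
    refine ⟨⟨t, ⟨h1, h2⟩, ?_⟩, hne⟩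
    apply pl_ext
    · simp [AffineMap.lineMap_apply, h3]; ring
    · simp [AffineMap.lineMap_apply, h4]; ring

/-- betweenness detected by a point off the line -/
theorem sbtw_of_det {a b c w : Pl} (h1 : 0 < det3 a b w) (h2 : 0 < det3 b c w)
    (h3 : det3 a b c = 0) : Sbtw ℝ a b c := by
  have hD : det3 a c w = det3 a b w + det3 b c w := by
    have : det3 a b w + det3 b c w = det3 a c w + det3 a b c := by
      unfold det3; ring
    rw [this, h3, add_zero]
  have hDpos : 0 < det3 a c w := by rw [hD]; linarith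
  rw [sbtw_iff_coord]
  constructor
  · rintro rfl
    rw [det3_self''] at hDpos
    exact lt_irrefl _ hDpos
  · have hx : det3 a c w * (b 0 - a 0) = det3 a b w * (c 0 - a 0) := by
      have : det3 a c w * (b 0 - a 0) - det3 a b w * (c 0 - a 0) =
          - det3 a b c * (w 0 - a 0) := by
        unfold det3; ring
      rw [h3] at this
      linarith
    have hy : det3 a c w * (b 1 - a 1) = det3 a b w * (c 1 - a 1) := by
      have : det3 a c w * (b 1 - a 1) - det3 a b w * (c 1 - a 1) =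
          - det3 a b c * (w 1 - a 1) := by
        unfold det3; ring
      rw [h3] at this
      linarith
    refine ⟨det3 a b w / det3 a c w, div_pos h1 hDpos, ?_, ?_, ?_⟩
    · rw [div_lt_one hDpos, hD]; linarith
    · field_simp
      linarith
    · field_simp
      linarith

theorem sbtw_of_det_neg {a b c w : Pl} (h1 : det3 a b w < 0) (h2 : det3 b c w < 0)
    (h3 : det3 a b c = 0) : Sbtw ℝ a b c := by
  apply Sbtw.symm
  apply sbtw_of_det (w := w)
  · rw [det3_swap]; linarith
  · rw [det3_swap]; linarith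
  · rw [det3_swap'', h3, neg_zero]

theorem det_of_sbtw {a b c : Pl} (h : Sbtw ℝ a b c) : ∃ t : ℝ, 0 < t ∧ t < 1 ∧ ∀ w : Pl,
    det3 a b w = t * det3 a c w ∧ det3 b c w = (1 - t) * det3 a c w := by
  rw [sbtw_iff_coord] at h
  obtain ⟨_, t, h1, h2, h3, h4⟩ := h
  refine ⟨t, h1, h2, fun w => ⟨?_, ?_⟩⟩
  · unfold det3; rw [h3, h4]; ring
  · unfold det3; rw [h3, h4]; ring

theorem det_zero_of_sbtw {a b c : Pl} (h : Sbtw ℝ a b c) : det3 a b c = 0 := by
  obtain ⟨t, _, _, h⟩ := det_of_sbtw h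
  rw [(h c).1, det3_self', mul_zero]

/-- If `x, y` are on the line `a c` and `x ≠ y` then a point off the line `a c` is off `x y`. -/
theorem det_ne_zero_of_line {a c x y w : Pl} (hx : det3 a c x = 0) (hy : det3 a c y = 0)
    (hxy : x ≠ y) (hw : det3 a c w ≠ 0) : det3 x y w ≠ 0 := by
  intro h
  apply hxy
  have hac : a 0 ≠ c 0 ∨ a 1 ≠ c 1 := by
    by_contra hcon
    push Not at hcon
    apply hw
    unfold det3
    rw [hcon.1, hcon.2]; ring
  -- x - y is parallel to c - a
  have e1 : (c 0 - a 0) * (x 1 - y 1) - (c 1 - a 1) * (x 0 - y 0) = 0 := by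
    unfold det3 at hx hy
    linarith
  -- det x y w in terms of det a c w
  have e2 : det3 x y w * (c 0 - a 0) = (y 0 - x 0) * det3 a c w := by
    unfold det3 at *
    linear_combination (w 0 - x 0) * e1 - (y 0 - x 0) * hx
  have e3 : det3 x y w * (c 1 - a 1) = (y 1 - x 1) * det3 a c w := by
    unfold det3 at *
    linear_combination (w 1 - x 1) * e1 - (y 1 - x 1) * hx
  rw [h, zero_mul] at e2 e3
  apply pl_ext
  · have := (mul_eq_zero.mp e2.symm).resolve_right hw
    linarith
  · have := (mul_eq_zero.mp e3.symm).resolve_right hw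
    linarith

/-- three points on a line are collinear -/
theorem det_zero_of_line {a c x y z : Pl} (hac : a ≠ c) (hx : det3 a c x = 0)
    (hy : det3 a c y = 0) (hz : det3 a c z = 0) : det3 x y z = 0 := by
  have e1 : (c 0 - a 0) * (x 1 - y 1) - (c 1 - a 1) * (x 0 - y 0) = 0 := by
    unfold det3 at hx hy
    linarith
  have e2 : (c 0 - a 0) * (x 1 - z 1) - (c 1 - a 1) * (x 0 - z 0) = 0 := by
    unfold det3 at hx hz
    linarith
  have hac' : a 0 ≠ c 0 ∨ a 1 ≠ c 1 := by
    by_contra hcon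
    push Not at hcon
    exact hac (pl_ext hcon.1 hcon.2)
  rcases hac' with h | h
  · have h' : c 0 - a 0 ≠ 0 := sub_ne_zero.mpr (Ne.symm h)
    have : (c 0 - a 0) * det3 x y z = 0 := by
      unfold det3
      linear_combination (-(y 0 - x 0)) * e2 + (z 0 - x 0) * e1
    exact (mul_eq_zero.mp this).resolve_left h'
  · have h' : c 1 - a 1 ≠ 0 := sub_ne_zero.mpr (Ne.symm h)
    have : (c 1 - a 1) * det3 x y z = 0 := by
      unfold det3
      linear_combination (-(y 1 - x 1)) * e2 + (z 1 - x 1) * e1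
    exact (mul_eq_zero.mp this).resolve_left h'

/-- Points on a line, ordered by the direction functional. -/
theorem sbtw_of_tau {u w x y z : Pl} (huw : u ≠ w) (hx : det3 u w x = 0) (hy : det3 u w y = 0)
    (hz : det3 u w z = 0)
    (h1 : (w 0 - u 0) * x 0 + (w 1 - u 1) * x 1 < (w 0 - u 0) * y 0 + (w 1 - u 1) * y 1)
    (h2 : (w 0 - u 0) * y 0 + (w 1 - u 1) * y 1 < (w 0 - u 0) * z 0 + (w 1 - u 1) * z 1) :
    Sbtw ℝ x y z := by
  -- use the auxiliary point obtained by moving `u` orthogonally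
  let q : Pl := !₂[u 0 - (w 1 - u 1), u 1 + (w 0 - u 0)]
  have q0 : q 0 = u 0 - (w 1 - u 1) := rfl
  have q1 : q 1 = u 1 + (w 0 - u 0) := rfl
  have hd : 0 < (w 0 - u 0) ^ 2 + (w 1 - u 1) ^ 2 := by
    by_contra hcon
    push Not at hcon
    have a0 : (w 0 - u 0) = 0 := by nlinarith [sq_nonneg (w 0 - u 0), sq_nonneg (w 1 - u 1)]
    have a1 : (w 1 - u 1) = 0 := by nlinarith [sq_nonneg (w 0 - u 0), sq_nonneg (w 1 - u 1)]
    exact huw (pl_ext (by linarith) (by linarith))
  have key : ∀ a b : Pl, det3 u w a = 0 → det3 u w b = 0 →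
      det3 a b q = ((w 0 - u 0) * b 0 + (w 1 - u 1) * b 1) -
        ((w 0 - u 0) * a 0 + (w 1 - u 1) * a 1) := by
    intro a b ha hb
    have hmul : ((w 0 - u 0) ^ 2 + (w 1 - u 1) ^ 2) * det3 a b q =
        ((w 0 - u 0) ^ 2 + (w 1 - u 1) ^ 2) * (((w 0 - u 0) * b 0 + (w 1 - u 1) * b 1) -
        ((w 0 - u 0) * a 0 + (w 1 - u 1) * a 1)) := by
      unfold det3 at *
      rw [q0, q1]
      linear_combination
        (-(b 0 - a 0) * (w 0 - u 0) - (b 1 - a 1) * (w 1 - u 1)) * ha
        + ((w 0 - u 0) * (u 0 - (w 1 - u 1) - a 0) + (w 1 - u 1) * (u 1 + (w 0 - u 0) - a 1)) *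
          (ha - hb)
    exact mul_left_cancel₀ hd.ne' hmul
  apply sbtw_of_det (w := q)
  · rw [key x y hx hy]; linarith
  · rw [key y z hy hz]; linarith
  · exact det_zero_of_line huw hx hy hz

end Pool.Agent.H43
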