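import Mathlib
import Pool.Agent.H43.NCPlane
import Pool.Agent.H43.NCMain

/-!
Enumerations of planar point sets in weakly convex position.
-/

namespace Pool.Agent.H43

open Finset Function

variable {n : ℕ}

/-- An enumeration of points in weakly convex position in counterclockwise order, starting from a
point which is not between two others. -/
structure CycEnum (n : ℕ) [NeZero n] (p : Fin n → Pl) : Prop where
  inj : Injective p
  orient : ∀ i j k, i < j → j < k → 0 ≤ det3 (p i) (p j) (p k)
  ext0 : ∀ i k, ¬ Sbtw ℝ (p i) (p (cst 0)) (p k)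
  noncol : ∀ i j, i ≠ j → ∃ w, det3 (p i) (p j) (p w) ≠ 0

variable [NeZero n] {p : Fin n → Pl}

theorem CycEnum.zero_lt (_ : CycEnum n p) : 0 < n := Nat.pos_of_ne_zero (NeZero.ne n)

/-- sign of the orientation -/
theorem CycEnum.sgn (h : CycEnum n p) {x y w : Fin n} (hxy : x < y)
    (hne : det3 (p x) (p y) (p w) ≠ 0) :
    (0 < det3 (p x) (p y) (p w) ∧ (w < x ∨ y < w)) ∨
      (det3 (p x) (p y) (p w) < 0 ∧ x < w ∧ w < y) := by
  rcases lt_trichotomy w x with h1 | h1 | h1
  · left
    refine ⟨lt_of_le_of_ne ?_ (Ne.symm hne), Or.inl h1⟩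
    rw [← det3_cyc']
    exact h.orient w x y h1 hxy
  · subst h1
    exact absurd (det3_self _ _) hne
  · rcases lt_trichotomy w y with h2 | h2 | h2
    · right
      refine ⟨lt_of_le_of_ne ?_ hne, h1, h2⟩
      rw [det3_swap']
      have := h.orient x w y h1 h2
      linarith
    · subst h2
      exact absurd (det3_self' _ _) hne
    · left
      exact ⟨lt_of_le_of_ne (h.orient x y w hxy h2) (Ne.symm hne), Or.inr h2⟩

/-- Location of a point strictly between two others. -/
theorem CycEnum.between (h : CycEnum n p) {i j k : Fin n} (hb : Sbtw ℝ (p i) (p j) (p k))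
    (hik : i < k) : (i < j ∧ j < k) ∨ (i.val = 0 ∧ k < j) := by
  obtain ⟨t, ht0, ht1, ht⟩ := det_of_sbtw hb
  have hcol := det_zero_of_sbtw hb
  have hpik : p i ≠ p k := hb.left_ne_right
  -- the off line points are between i and k, unless i < j < k
  have hijne : j ≠ i := fun hh => hb.ne_left (by rw [hh])
  have hjkne : j ≠ k := fun hh => hb.ne_right (by rw [hh])
  have signs : ∀ w, det3 (p i) (p k) (p w) ≠ 0 →
      (0 < det3 (p i) (p j) (p w) ∧ 0 < det3 (p j) (p k) (p w)) ∨
      (det3 (p i) (p j) (p w) < 0 ∧ det3 (p j) (p k) (p w) < 0) := by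
    intro w hw
    rw [(ht (p w)).1, (ht (p w)).2]
    rcases lt_or_gt_of_ne hw with h1 | h1
    · right
      constructor <;> nlinarith
    · left
      constructor <;> nlinarith
  have v0 : (cst 0 : Fin n).val = 0 := by rw [cst_val]; simp
  have hcol_ik_j : det3 (p i) (p k) (p j) = 0 := by rw [det3_swap', hcol, neg_zero]
  rcases lt_trichotomy j i with hji | hji | hji
  · -- j < i < k
    exfalso
    have off : ∀ w, det3 (p i) (p k) (p w) ≠ 0 → i < w ∧ w < k := by
      intro w hw
      rcases signs w hw with ⟨s1, s2⟩ | ⟨s1, s2⟩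
      · have s3 : det3 (p j) (p i) (p w) < 0 := by rw [det3_swap]; linarith
        rcases h.sgn hji s3.ne with ⟨h1, _⟩ | ⟨_, h1, h2⟩
        · linarith
        · rcases h.sgn (hji.trans hik) s2.ne' with ⟨_, h3⟩ | ⟨h3, _⟩
          · rcases h3 with h3 | h3
            · exact absurd h1 (not_lt.mpr h3.le)
            · exact absurd (h2.trans hik) (not_lt.mpr h3.le)
          · linarith
      · have s3 : 0 < det3 (p j) (p i) (p w) := by rw [det3_swap]; linarith
        rcases h.sgn (hji.trans hik) s2.ne with ⟨h1, _⟩ | ⟨_, h1, h2⟩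
        · linarith
        · rcases h.sgn hji s3.ne' with ⟨_, h3⟩ | ⟨h3, _⟩
          · rcases h3 with h3 | h3
            · exact absurd h1 (not_lt.mpr h3.le)
            · exact ⟨h3, h2⟩
          · linarith
    obtain ⟨w, hw⟩ := h.noncol i k hik.ne
    obtain ⟨hw1, hw2⟩ := off w hw
    rcases Nat.eq_zero_or_pos j.val with hj0 | hj0
    · have : j = cst 0 := by apply Fin.ext; rw [v0]; exact hj0
      rw [this] at hb
      exact h.ext0 i k hb
    · have hcol0 : det3 (p i) (p k) (p (cst 0)) = 0 := by
        by_contra hne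
        have h1 := (off _ hne).1
        have h2 : i.val < (cst 0 : Fin n).val := h1
        rw [v0] at h2
        omega
      have h0j : (cst 0 : Fin n) < j := by
        show (cst 0 : Fin n).val < j.val
        rw [v0]; exact hj0
      have d1 : det3 (p (cst 0)) (p j) (p w) ≠ 0 :=
        det_ne_zero_of_line hcol0 hcol_ik_j (fun hh => h0j.ne (h.inj hh)) hw
      have d2 : det3 (p (cst 0)) (p k) (p w) ≠ 0 :=
        det_ne_zero_of_line hcol0 (det3_self' _ _)
          (fun hh => (h0j.trans (hji.trans hik)).ne (h.inj hh)) hw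
      have d1' : 0 < det3 (p (cst 0)) (p j) (p w) := by
        rcases h.sgn h0j d1 with ⟨h1, _⟩ | ⟨_, _, h1⟩
        · exact h1
        · exact absurd (hji.trans hw1) (not_lt.mpr h1.le)
      have d2' : 0 < det3 (p k) (p (cst 0)) (p w) := by
        rcases h.sgn (h0j.trans (hji.trans hik)) d2 with ⟨_, h1⟩ | ⟨h1, _⟩
        · rcases h1 with h1 | h1
          · exact absurd (h0j.trans (hji.trans hw1)) (not_lt.mpr h1.le)
          · exact absurd hw2 (not_lt.mpr h1.le)
        · rw [det3_swap]; linarith
      have hc : det3 (p k) (p (cst 0)) (p j) = 0 :=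
        det_zero_of_line hpik (det3_self' _ _) hcol0 hcol_ik_j
      exact h.ext0 k j (sbtw_of_det d2' d1' hc)
  · exact absurd hji hijne
  · rcases lt_trichotomy j k with hjk | hjk | hjk
    · exact Or.inl ⟨hji, hjk⟩
    · exact absurd hjk hjkne
    · right
      refine ⟨?_, hjk⟩
      by_contra hi0
      have off : ∀ w, det3 (p i) (p k) (p w) ≠ 0 → i < w ∧ w < k := by
        intro w hw
        rcases signs w hw with ⟨s1, s2⟩ | ⟨s1, s2⟩
        · have s3 : det3 (p k) (p j) (p w) < 0 := by rw [det3_swap]; linarith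
          rcases h.sgn hjk s3.ne with ⟨h1, _⟩ | ⟨_, h1, h2⟩
          · linarith
          · rcases h.sgn (hik.trans hjk) s1.ne' with ⟨_, h3⟩ | ⟨h3, _⟩
            · rcases h3 with h3 | h3
              · exact absurd (hik.trans h1) (not_lt.mpr h3.le)
              · exact absurd h2 (not_lt.mpr h3.le)
            · linarith
        · have s3 : 0 < det3 (p k) (p j) (p w) := by rw [det3_swap]; linarith
          rcases h.sgn (hik.trans hjk) s1.ne with ⟨h1, _⟩ | ⟨_, h1, h2⟩
          · linarith
          · rcases h.sgn hjk s3.ne' with ⟨_, h3⟩ | ⟨h3, _⟩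
            · rcases h3 with h3 | h3
              · exact ⟨h1, h3⟩
              · exact absurd h2 (not_lt.mpr h3.le)
            · linarith
      obtain ⟨w, hw⟩ := h.noncol i k hik.ne
      obtain ⟨hw1, hw2⟩ := off w hw
      have hcol0 : det3 (p i) (p k) (p (cst 0)) = 0 := by
        by_contra hne
        have h1 := (off _ hne).1
        have h2 : i.val < (cst 0 : Fin n).val := h1
        rw [v0] at h2
        omega
      have h0i : (cst 0 : Fin n) < i := by
        show (cst 0 : Fin n).val < i.val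
        rw [v0]; omega
      have d1 : det3 (p (cst 0)) (p i) (p w) ≠ 0 :=
        det_ne_zero_of_line hcol0 (det3_self _ _) (fun hh => h0i.ne (h.inj hh)) hw
      have d2 : det3 (p (cst 0)) (p k) (p w) ≠ 0 :=
        det_ne_zero_of_line hcol0 (det3_self' _ _)
          (fun hh => (h0i.trans hik).ne (h.inj hh)) hw
      have d1' : 0 < det3 (p (cst 0)) (p i) (p w) := by
        rcases h.sgn h0i d1 with ⟨h1, _⟩ | ⟨_, _, h1⟩
        · exact h1
        · exact absurd hw1 (not_lt.mpr h1.le)
      have d2' : 0 < det3 (p k) (p (cst 0)) (p w) := by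
        rcases h.sgn (h0i.trans hik) d2 with ⟨_, h1⟩ | ⟨h1, _⟩
        · rcases h1 with h1 | h1
          · exact absurd (h0i.trans hw1) (not_lt.mpr h1.le)
          · exact absurd hw2 (not_lt.mpr h1.le)
        · rw [det3_swap]; linarith
      have hc : det3 (p k) (p (cst 0)) (p i) = 0 :=
        det_zero_of_line hpik (det3_self' _ _) hcol0 (det3_self _ _)
      exact h.ext0 k i (sbtw_of_det d2' d1' hc)

/-- the cyclic extension of the enumeration -/
def qq (p : Fin n → Pl) (x : ℕ) : Pl := p (cst x)

theorem qq_fin (p : Fin n → Pl) (x : Fin n) : qq p x.val = p x := by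
  unfold qq
  rw [cst_fin]

theorem qq_n (p : Fin n → Pl) : qq p n = qq p 0 := by
  unfold qq
  congr 1
  apply Fin.ext
  rw [cst_val, cst_val]; simp

theorem CycEnum.orient' (h : CycEnum n p) {i j k : ℕ} (hij : i < j) (hjk : j < k) (hk : k ≤ n) :
    0 ≤ det3 (qq p i) (qq p j) (qq p k) := by
  rcases Nat.lt_or_ge k n with hk' | hk'
  · apply h.orient
    · show (cst i : Fin n).val < (cst j : Fin n).val
      rw [cst_of_lt (by omega), cst_of_lt (by omega)]
      exact hij
    · show (cst j : Fin n).val < (cst k : Fin n).val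
      rw [cst_of_lt (by omega), cst_of_lt (by omega)]
      exact hjk
  · have : k = n := by omega
    subst this
    rw [qq_n]
    rcases Nat.eq_zero_or_pos i with hi | hi
    · subst hi
      rw [det3_self]
    · rw [← det3_cyc']
      apply h.orient
      · show (cst 0 : Fin k).val < (cst i : Fin k).val
        rw [cst_of_lt (by omega), cst_of_lt (by omega)]
        exact hi
      · show (cst i : Fin k).val < (cst j : Fin k).val
        rw [cst_of_lt (by omega), cst_of_lt (by omega)]
        exact hij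

theorem CycEnum.qq_ne (h : CycEnum n p) {x y : ℕ} (hxy : x < y) (hy : y ≤ n)
    (hne : ¬ (x = 0 ∧ y = n)) : qq p x ≠ qq p y := by
  intro hh
  have h1 : (cst x : Fin n) = cst y := h.inj hh
  have h2 : (cst x : Fin n).val = (cst y : Fin n).val := congrArg Fin.val h1
  rw [cst_of_lt (by omega)] at h2
  rcases Nat.lt_or_ge y n with hy' | hy'
  · rw [cst_of_lt hy'] at h2
    omega
  · have : y = n := by omega
    subst this
    rw [cst_n] at h2
    omega

/-- If all points with indices in `[t, t']` are on one line then they are in order on it. -/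
theorem CycEnum.mono (h : CycEnum n p) {t t' : ℕ} (ht : t + 2 ≤ t') (ht' : t' ≤ n)
    (hcol : ∀ x, t ≤ x → x ≤ t' → det3 (qq p t) (qq p (t + 1)) (qq p x) = 0) {i j k : ℕ}
    (hi : t ≤ i) (hij : i < j) (hjk : j < k) (hk : k ≤ t') :
    Sbtw ℝ (qq p i) (qq p j) (qq p k) := by
  have hne01 : qq p t ≠ qq p (t + 1) := h.qq_ne (by omega) (by omega) (by omega)
  have hw : ∃ w : Fin n, det3 (qq p t) (qq p (t + 1)) (p w) ≠ 0 := by
    have : (cst t : Fin n) ≠ cst (t + 1) := fun hh => hne01 (congrArg p hh)
    exact h.noncol _ _ this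
  obtain ⟨w, hw⟩ := hw
  have hwout : w.val < t ∨ t' < w.val := by
    by_contra hcon
    push Not at hcon
    have := hcol w.val hcon.1 hcon.2
    rw [qq_fin] at this
    exact hw this
  have hfull : ¬ (t = 0 ∧ t' = n) := by
    rintro ⟨h1, h2⟩
    have := w.isLt
    omega
  have key : ∀ x y, t ≤ x → x < y → y ≤ t' → 0 < det3 (qq p x) (qq p y) (p w) := by
    intro x y hx hxy hy
    have hne : qq p x ≠ qq p y := h.qq_ne hxy (by omega) (by omega)
    have hd := det_ne_zero_of_line (hcol x hx (by omega)) (hcol y (by omega) hy) hne hw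
    refine lt_of_le_of_ne ?_ (Ne.symm hd)
    rw [← qq_fin p w]
    rcases hwout with hlt | hlt
    · rw [← det3_cyc']
      exact h.orient' (by omega) hxy (by omega)
    · exact h.orient' hxy (by omega) (by have := w.isLt; omega)
  exact sbtw_of_det (key i j hi hij (by omega)) (key j k (by omega) hjk hk)
    (det_zero_of_line hne01 (hcol i hi (by omega)) (hcol j (by omega) (by omega))
      (hcol k (by omega) hk))

/-- Everything between the ends of a betweenness triple is on the line, and in order. -/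
theorem CycEnum.line_of_sbtw (h : CycEnum n p) {i j k : ℕ} (hij : i < j) (hjk : j < k)
    (hk : k ≤ n) (hb : Sbtw ℝ (qq p i) (qq p j) (qq p k)) {x : ℕ} (hx1 : i ≤ x) (hx2 : x ≤ k) :
    det3 (qq p i) (qq p k) (qq p x) = 0 := by
  obtain ⟨t, ht0, ht1, ht⟩ := det_of_sbtw hb
  rcases Nat.eq_or_lt_of_le hx1 with hx1 | hx1
  · rw [← hx1, det3_self]
  rcases Nat.eq_or_lt_of_le hx2 with hx2 | hx2
  · rw [hx2, det3_self']
  have hcol := det_zero_of_sbtw hb
  rcases lt_trichotomy x j with hxj | hxj | hxj
  · have h1 := h.orient' hx1 hxj (by omega)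
    have h2 := h.orient' hxj hjk hk
    rw [← det3_cyc] at h2
    rw [det3_swap', (ht (qq p x)).1] at h1
    rw [(ht (qq p x)).2] at h2
    apply le_antisymm
    · by_contra hcon
      push Not at hcon
      have := mul_pos ht0 hcon
      linarith
    · by_contra hcon
      push Not at hcon
      have : (1 - t) * det3 (qq p i) (qq p k) (qq p x) < 0 :=
        mul_neg_of_pos_of_neg (by linarith) hcon
      linarith
  · rw [hxj, det3_swap', hcol, neg_zero]
  · have h1 := h.orient' hij hxj (by omega)
    have h2 := h.orient' hxj hx2 hk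
    rw [det3_swap', (ht (qq p x)).2] at h2
    rw [(ht (qq p x)).1] at h1
    apply le_antisymm
    · by_contra hcon
      push Not at hcon
      have := mul_pos (show 0 < 1 - t by linarith) hcon
      linarith
    · by_contra hcon
      push Not at hcon
      have : t * det3 (qq p i) (qq p k) (qq p x) < 0 :=
        mul_neg_of_pos_of_neg ht0 hcon
      linarith

theorem CycEnum.mono_of_sbtw (h : CycEnum n p) {i j k : ℕ} (hij : i < j) (hjk : j < k)
    (hk : k ≤ n) (hb : Sbtw ℝ (qq p i) (qq p j) (qq p k)) {x y z : ℕ} (hx : i ≤ x) (hxy : x < y)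
    (hyz : y < z) (hz : z ≤ k) : Sbtw ℝ (qq p x) (qq p y) (qq p z) := by
  refine h.mono (t := i) (t' := k) (by omega) hk ?_ hx hxy hyz hz
  intro w hw1 hw2
  have hne : qq p i ≠ qq p k := hb.left_ne_right
  exact det_zero_of_line hne (det3_self _ _) (h.line_of_sbtw hij hjk hk hb (by omega) (by omega))
    (h.line_of_sbtw hij hjk hk hb hw1 hw2)

/-- Not all points are on one line. -/
theorem CycEnum.not_all_line (h : CycEnum n p) {a b : Pl} (hab : a ≠ b)
    (hall : ∀ w : Fin n, det3 a b (p w) = 0) (hn : 1 < n) : False := by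
  obtain ⟨w, hw⟩ := h.noncol ⟨0, by omega⟩ ⟨1, hn⟩ (by intro hh; simp [Fin.ext_iff] at hh)
  exact hw (det_zero_of_line hab (hall _) (hall _) (hall _))

/-- The vertices: points which are not strictly between two others. -/
def IsVert (p : Fin n → Pl) (x : ℕ) : Prop := ∀ i k : Fin n, ¬ Sbtw ℝ (p i) (qq p x) (p k)

theorem CycEnum.vert_zero (h : CycEnum n p) : IsVert p 0 := h.ext0

theorem CycEnum.vert_n (h : CycEnum n p) : IsVert p n := by
  intro i k
  rw [qq_n]
  exact h.ext0 i k

/-- the two ends of a betweenness triple, lifted -/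
theorem CycEnum.lift (h : CycEnum n p) {i j k : Fin n} (hb : Sbtw ℝ (p i) (p j) (p k)) :
    ∃ a c : ℕ, a < j.val ∧ j.val < c ∧ c ≤ n ∧ Sbtw ℝ (qq p a) (qq p j.val) (qq p c) ∧
      ((cst a = i ∧ cst c = k) ∨ (cst a = k ∧ cst c = i)) := by
  have key : ∀ {i k : Fin n}, i < k → Sbtw ℝ (p i) (p j) (p k) →
      ∃ a c : ℕ, a < j.val ∧ j.val < c ∧ c ≤ n ∧ Sbtw ℝ (qq p a) (qq p j.val) (qq p c) ∧
      ((cst a = i ∧ cst c = k) ∨ (cst a = k ∧ cst c = i)) := by
    intro i k hik hb
    rcases h.between hb hik with ⟨h1, h2⟩ | ⟨h1, h2⟩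
    · refine ⟨i.val, k.val, h1, h2, k.isLt.le, ?_, Or.inl ⟨cst_fin i, cst_fin k⟩⟩
      rw [qq_fin, qq_fin, qq_fin]
      exact hb
    · have hc : (cst n : Fin n) = i := by
        apply Fin.ext
        rw [cst_n, h1]
      refine ⟨k.val, n, h2, j.isLt, le_rfl, ?_, Or.inr ⟨cst_fin k, hc⟩⟩
      have : qq p n = p i := by unfold qq; rw [hc]
      rw [qq_fin, qq_fin, this]
      exact hb.symm
  rcases lt_trichotomy i k with hik | hik | hik
  · exact key hik hb
  · exact absurd (congrArg p hik) hb.left_ne_right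
  · obtain ⟨a, c, h1, h2, h3, h4, h5⟩ := key hik hb.symm
    exact ⟨a, c, h1, h2, h3, h4, h5.symm⟩

theorem CycEnum.not_vert (h : CycEnum n p) {x : ℕ} (hx : x < n) (hv : ¬ IsVert p x) :
    ∃ a c : ℕ, a < x ∧ x < c ∧ c ≤ n ∧ Sbtw ℝ (qq p a) (qq p x) (qq p c) := by
  unfold IsVert at hv
  push Not at hv
  obtain ⟨i, k, hik⟩ := hv
  have : qq p x = p (⟨x, hx⟩ : Fin n) := qq_fin p ⟨x, hx⟩
  rw [this] at hik
  obtain ⟨a, c, h1, h2, h3, h4, _⟩ := h.lift hik
  exact ⟨a, c, h1, h2, h3, h4⟩

theorem CycEnum.local_sbtw (h : CycEnum n p) {x : ℕ} (hx : x < n) (hv : ¬ IsVert p x) :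
    0 < x ∧ Sbtw ℝ (qq p (x - 1)) (qq p x) (qq p (x + 1)) := by
  obtain ⟨a, c, h1, h2, h3, h4⟩ := h.not_vert hx hv
  exact ⟨by omega, h.mono_of_sbtw h1 h2 h3 h4 (by omega) (by omega) (by omega) (by omega)⟩

theorem CycEnum.vert_of_between (h : CycEnum n p) {i j k x : ℕ} (hij : i < j) (hjk : j < k)
    (hk : k ≤ n) (hb : Sbtw ℝ (qq p i) (qq p j) (qq p k)) (hx : i < x) (hx' : x < k) :
    ¬ IsVert p x := by
  intro hv
  exact hv (cst i) (cst k) (h.mono_of_sbtw hij hjk hk hb le_rfl hx hx' le_rfl)

/-- Between two consecutive vertices everything is on a line and in order. -/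
theorem CycEnum.side_sbtw (h : CycEnum n p) {t t' : ℕ} (ht' : t' ≤ n)
    (hnv : ∀ x, t < x → x < t' → ¬ IsVert p x) {i j k : ℕ}
    (hi : t ≤ i) (hij : i < j) (hjk : j < k) (hk : k ≤ t') :
    Sbtw ℝ (qq p i) (qq p j) (qq p k) := by
  refine h.mono (t := t) (t' := t') (by omega) ht' ?_ hi hij hjk hk
  have hstep : ∀ d, t + d ≤ t' → det3 (qq p t) (qq p (t + 1)) (qq p (t + d)) = 0 := by
    have hne : qq p t ≠ qq p (t + 1) := h.qq_ne (by omega) (by omega) (by omega)
    intro d
    induction d using Nat.strong_induction_on with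
    | _ d ih =>
      intro hd
      match d with
      | 0 => exact det3_self _ _
      | 1 => exact det3_self' _ _
      | d + 2 =>
        have h1 := ih (d + 1) (by omega) (by omega)
        have h2 := ih d (by omega) (by omega)
        have h3 := (h.local_sbtw (x := t + (d + 1)) (by omega)
          (hnv _ (by omega) (by omega))).2
        have e1 : t + (d + 1) - 1 = t + d := by omega
        have e2 : t + (d + 1) + 1 = t + (d + 2) := by omega
        rw [e1, e2] at h3
        by_contra hcon
        have h4 := det_ne_zero_of_line h2 h1 h3.left_ne hcon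
        exact h4 (det_zero_of_sbtw h3)
  intro x hx1 hx2
  have := hstep (x - t) (by omega)
  rwa [Nat.add_sub_cancel' hx1] at this

end Pool.Agent.H43
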