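import Mathlib
import Pool.Agent.H43.NCCyc

/-!
Noncrossing in terms of convex hulls versus the combinatorial conditions.
-/

namespace Pool.Agent.H43

open Finset Function

variable {n : ℕ}

/-- The relation has blocks with disjoint convex hulls. -/
def GNC (p : Fin n → Pl) (r : Setoid (Fin n)) : Prop :=
  ∀ i j : Fin n, ¬ r i j →
    Disjoint (convexHull ℝ (p '' {x | r i x})) (convexHull ℝ (p '' {x | r j x}))

/-- points on the line and lexicographic half planes -/
theorem exists_low {p : Fin n → Pl} {A : Set (Fin n)} {z : Pl} (hz : z ∈ convexHull ℝ (p '' A))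
    (g t : Pl →ₗ[ℝ] ℝ) (c : ℝ) (hA : ∀ x ∈ A, c ≤ g (p x)) (hgz : g z = c) :
    ∃ x ∈ A, g (p x) = c ∧ t (p x) ≤ t z := by
  by_contra hcon
  push Not at hcon
  have hconv : Convex ℝ {y : Pl | c < g y ∨ (g y = c ∧ t z < t y)} := by
    intro a ha b hb α β hα hβ hαβ
    simp only [Set.mem_ofPred_eq, map_add, map_smul, smul_eq_mul] at *
    rcases eq_or_lt_of_le hα with hα0 | hα0
    · have : β = 1 := by linarith
      subst this
      rw [← hα0]
      simpa using hb
    rcases eq_or_lt_of_le hβ with hβ0 | hβ0
    · have : α = 1 := by linarith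
      subst this
      rw [← hβ0]
      simpa using ha
    have e : c = α * c + β * c := by rw [← add_mul, hαβ, one_mul]
    have e' : t z = α * t z + β * t z := by rw [← add_mul, hαβ, one_mul]
    rcases ha with ha | ⟨ha1, ha2⟩ <;> rcases hb with hb | ⟨hb1, hb2⟩
    · left; nlinarith
    · left; rw [hb1]; nlinarith
    · left; rw [ha1]; nlinarith
    · right
      constructor
      · rw [ha1, hb1]; linarith
      · nlinarith
  have hsub : p '' A ⊆ {y : Pl | c < g y ∨ (g y = c ∧ t z < t y)} := by
    rintro _ ⟨x, hx, rfl⟩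
    rcases eq_or_lt_of_le (hA x hx) with h1 | h1
    · exact Or.inr ⟨h1.symm, hcon x hx h1.symm⟩
    · exact Or.inl h1
  have := convexHull_min hsub hconv hz
  rcases this with h1 | ⟨_, h2⟩
  · rw [hgz] at h1; exact lt_irrefl _ h1
  · exact lt_irrefl _ h2

/-- the linear functional `x ↦ a * x 0 + b * x 1` -/
def linf (a b : ℝ) : Pl →ₗ[ℝ] ℝ where
  toFun x := a * x 0 + b * x 1
  map_add' x y := by simp only [PiLp.add_apply]; ring
  map_smul' c x := by simp only [PiLp.smul_apply, smul_eq_mul, RingHom.id_apply]; ring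

theorem linf_apply (a b : ℝ) (x : Pl) : linf a b x = a * x 0 + b * x 1 := rfl

theorem exists_functional (u w : Pl) : ∃ (g : Pl →ₗ[ℝ] ℝ) (c : ℝ), ∀ x, det3 u w x = g x - c := by
  refine ⟨linf (-(w 1 - u 1)) (w 0 - u 0), -(w 1 - u 1) * u 0 + (w 0 - u 0) * u 1, ?_⟩
  intro x
  rw [linf_apply]
  unfold det3
  ring

/-- Two finite sets, weakly separated by a line, whose hulls meet: some point of one set is
strictly between two points of the other. -/
theorem sep_lemma {p : Fin n → Pl} (hp : Injective p) {A B : Set (Fin n)} (hAB : Disjoint A B)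
    {u w z : Pl} (huw : u ≠ w) (hA : ∀ x ∈ A, 0 ≤ det3 u w (p x))
    (hB : ∀ x ∈ B, det3 u w (p x) ≤ 0) (hzA : z ∈ convexHull ℝ (p '' A))
    (hzB : z ∈ convexHull ℝ (p '' B)) :
    (∃ a ∈ A, ∃ a' ∈ A, ∃ b ∈ B, Sbtw ℝ (p a) (p b) (p a')) ∨
      (∃ b ∈ B, ∃ b' ∈ B, ∃ a ∈ A, Sbtw ℝ (p b) (p a) (p b')) := by
  obtain ⟨g, c, hg⟩ := exists_functional u w
  have hA' : ∀ x ∈ A, c ≤ g (p x) := fun x hx => by have := hA x hx; rw [hg] at this; linarith
  have hB' : ∀ x ∈ B, -c ≤ (-g) (p x) := fun x hx => by
    have := hB x hx; rw [hg] at this; simp only [LinearMap.neg_apply]; linarith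
  have hgz : g z = c := by
    apply le_antisymm
    · have hconv : Convex ℝ {y : Pl | g y ≤ c} := convex_halfSpace_le g.isLinear c
      have hsub : p '' B ⊆ {y : Pl | g y ≤ c} := by
        rintro _ ⟨x, hx, rfl⟩
        have := hB x hx; rw [hg] at this
        show g (p x) ≤ c
        linarith
      exact convexHull_min hsub hconv hzB
    · have hconv : Convex ℝ {y : Pl | c ≤ g y} := convex_halfSpace_ge g.isLinear c
      have hsub : p '' A ⊆ {y : Pl | c ≤ g y} := by
        rintro _ ⟨x, hx, rfl⟩
        exact hA' x hx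
      exact convexHull_min hsub hconv hzA
  have hgz' : (-g) z = -c := by rw [LinearMap.neg_apply, hgz]
  set t : Pl →ₗ[ℝ] ℝ := linf (w 0 - u 0) (w 1 - u 1) with ht
  obtain ⟨a, haA, ha1, ha2⟩ := exists_low hzA g t c hA' hgz
  obtain ⟨a', haA', ha1', ha2'⟩ := exists_low hzA g (-t) c hA' hgz
  obtain ⟨b, hbB, hb1, hb2⟩ := exists_low hzB (-g) t (-c) hB' hgz'
  obtain ⟨b', hbB', hb1', hb2'⟩ := exists_low hzB (-g) (-t) (-c) hB' hgz'
  simp only [LinearMap.neg_apply, neg_inj, neg_le_neg_iff] at ha2' hb1 hb1' hb2'
  have da : det3 u w (p a) = 0 := by rw [hg, ha1, sub_self]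
  have da' : det3 u w (p a') = 0 := by rw [hg, ha1', sub_self]
  have db : det3 u w (p b) = 0 := by rw [hg, hb1, sub_self]
  have db' : det3 u w (p b') = 0 := by rw [hg, hb1', sub_self]
  -- points of the line with the same value of `t` agree
  have huniq : ∀ x y : Pl, det3 u w x = 0 → det3 u w y = 0 → t x = t y → x = y := by
    intro x y hx hy hxy
    rw [ht, linf_apply, linf_apply] at hxy
    have hd : (w 0 - u 0) ^ 2 + (w 1 - u 1) ^ 2 ≠ 0 := by
      intro hcon
      have a0 : (w 0 - u 0) = 0 := by nlinarith [sq_nonneg (w 0 - u 0), sq_nonneg (w 1 - u 1)]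
      have a1 : (w 1 - u 1) = 0 := by nlinarith [sq_nonneg (w 0 - u 0), sq_nonneg (w 1 - u 1)]
      exact huw (pl_ext (by linarith) (by linarith))
    have e1 : ((w 0 - u 0) ^ 2 + (w 1 - u 1) ^ 2) * (x 0 - y 0) = 0 := by
      unfold det3 at hx hy
      linear_combination (w 0 - u 0) * hxy - (w 1 - u 1) * (hx - hy)
    have e2 : ((w 0 - u 0) ^ 2 + (w 1 - u 1) ^ 2) * (x 1 - y 1) = 0 := by
      unfold det3 at hx hy
      linear_combination (w 1 - u 1) * hxy + (w 0 - u 0) * (hx - hy)
    have e3 := (mul_eq_zero.mp e1).resolve_left hd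
    have e4 := (mul_eq_zero.mp e2).resolve_left hd
    exact pl_ext (by linarith) (by linarith)
  have hne : ∀ x ∈ A, ∀ y ∈ B, det3 u w (p x) = 0 → det3 u w (p y) = 0 → t (p x) ≠ t (p y) := by
    intro x hx y hy h1 h2 h3
    have := hp (huniq _ _ h1 h2 h3)
    rw [this] at hx
    exact Set.disjoint_left.mp hAB hx hy
  rcases lt_or_ge (t (p a)) (t (p b)) with h1 | h1
  · left
    refine ⟨a, haA, a', haA', b, hbB, ?_⟩
    have h2 : t (p b) < t (p a') := by
      refine lt_of_le_of_ne (hb2.trans ha2') ?_
      exact (hne a' haA' b hbB da' db).symm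
    exact sbtw_of_tau huw da db da' h1 h2
  · right
    refine ⟨b, hbB, b', hbB', a, haA, ?_⟩
    have h0 : t (p b) < t (p a) := lt_of_le_of_ne h1 (hne a haA b hbB da db).symm
    have h2 : t (p a) < t (p b') := by
      refine lt_of_le_of_ne (ha2.trans hb2') ?_
      exact hne a haA b' hbB' da db'
    exact sbtw_of_tau huw db da db' h0 h2

variable [NeZero n] {p : Fin n → Pl}

/-- The closure condition: points between related points are related. -/
def SClosed (p : Fin n → Pl) (r : Setoid (Fin n)) : Prop :=
  ∀ i j k : Fin n, Sbtw ℝ (p i) (p j) (p k) → r i k → r i j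

theorem SClosed_of_GNC {r : Setoid (Fin n)} (h : GNC p r) : SClosed p r := by
  intro i j k hb hik
  by_contra hij
  have hd := h i j hij
  have h1 : p j ∈ convexHull ℝ (p '' {x | r i x}) := by
    have hseg : p j ∈ segment ℝ (p i) (p k) := mem_segment_iff_wbtw.mpr hb.wbtw
    exact segment_subset_convexHull (Set.mem_image_of_mem _ (r.refl i))
      (Set.mem_image_of_mem _ hik) hseg
  have h2 : p j ∈ convexHull ℝ (p '' {x | r j x}) :=
    subset_convexHull ℝ _ (Set.mem_image_of_mem _ (r.refl j))
  exact Set.disjoint_left.mp hd h1 h2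

theorem NonCr_of_GNC (hc : CycEnum n p) {r : Setoid (Fin n)} (h : GNC p r) : NonCr r := by
  intro a b c d hab hbc hcd hac hbd
  by_contra hnab
  have hcl := SClosed_of_GNC h
  have o1 := hc.orient a b c hab hbc
  have o2 := hc.orient a c d (hab.trans hbc) hcd
  have o3 := hc.orient b c d hbc hcd
  have o4 := hc.orient a b d hab (hbc.trans hcd)
  have hsum : det3 (p a) (p b) (p c) + det3 (p a) (p c) (p d) =
      det3 (p b) (p c) (p d) + det3 (p a) (p b) (p d) := by
    unfold det3; ring
  rcases lt_or_eq_of_le (add_nonneg o1 o2) with hpos | hzero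
  · -- intersection point
    set S := det3 (p a) (p b) (p c) + det3 (p a) (p c) (p d) with hS
    have hSne : S ≠ 0 := hpos.ne'
    have hd := h a b hnab
    have hz1 : (det3 (p b) (p c) (p d) / S) • p a + (det3 (p a) (p b) (p d) / S) • p c ∈
        convexHull ℝ (p '' {x | r a x}) := by
      apply (convex_convexHull ℝ _)
        (subset_convexHull ℝ _ (Set.mem_image_of_mem _ (r.refl a)))
        (subset_convexHull ℝ _ (Set.mem_image_of_mem _ hac))
      · exact div_nonneg o3 hpos.le
      · exact div_nonneg o4 hpos.le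
      · rw [← add_div, ← hsum, div_self hSne]
    have hz2 : (det3 (p a) (p c) (p d) / S) • p b + (det3 (p a) (p b) (p c) / S) • p d ∈
        convexHull ℝ (p '' {x | r b x}) := by
      apply (convex_convexHull ℝ _)
        (subset_convexHull ℝ _ (Set.mem_image_of_mem _ (r.refl b)))
        (subset_convexHull ℝ _ (Set.mem_image_of_mem _ hbd))
      · exact div_nonneg o2 hpos.le
      · exact div_nonneg o1 hpos.le
      · rw [← add_div, add_comm, ← hS, div_self hSne]
    have heq : (det3 (p b) (p c) (p d) / S) • p a + (det3 (p a) (p b) (p d) / S) • p c =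
        (det3 (p a) (p c) (p d) / S) • p b + (det3 (p a) (p b) (p c) / S) • p d := by
      apply pl_ext
      · simp only [PiLp.add_apply, PiLp.smul_apply, smul_eq_mul]
        field_simp
        unfold det3
        ring
      · simp only [PiLp.add_apply, PiLp.smul_apply, smul_eq_mul]
        field_simp
        unfold det3
        ring
    rw [heq] at hz1
    exact Set.disjoint_left.mp hd hz1 hz2
  · -- collinear
    have z1 : det3 (p a) (p b) (p c) = 0 := by linarith
    have z2 : det3 (p a) (p c) (p d) = 0 := by linarith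
    have hpac : p a ≠ p c := fun hh => (hab.trans hbc).ne (hc.inj hh)
    have la : det3 (p a) (p c) (p a) = 0 := det3_self _ _
    have lb : det3 (p a) (p c) (p b) = 0 := by rw [det3_swap', z1, neg_zero]
    have lc : det3 (p a) (p c) (p c) = 0 := det3_self' _ _
    have ld : det3 (p a) (p c) (p d) = 0 := z2
    obtain ⟨w, hw⟩ := hc.noncol a c (hab.trans hbc).ne
    have dne : ∀ {x y : Fin n}, x < y → det3 (p a) (p c) (p x) = 0 → det3 (p a) (p c) (p y) = 0 →
        det3 (p x) (p y) (p w) ≠ 0 := fun {x y} hxy hx hy =>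
      det_ne_zero_of_line hx hy (fun hh => hxy.ne (hc.inj hh)) hw
    rcases hc.sgn (hab.trans hbc) (dne (hab.trans hbc) la lc) with ⟨_, hwout⟩ | ⟨_, hw1, hw2⟩
    · -- `w` outside of `(a, c)`: `b` is between `a` and `c`
      have s1 : 0 < det3 (p a) (p b) (p w) := by
        rcases hc.sgn hab (dne hab la lb) with ⟨h1, _⟩ | ⟨_, h1, h2⟩
        · exact h1
        · rcases hwout with h3 | h3
          · exact absurd h1 (not_lt.mpr h3.le)
          · exact absurd (h2.trans hbc) (not_lt.mpr h3.le)
      have s2 : 0 < det3 (p b) (p c) (p w) := by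
        rcases hc.sgn hbc (dne hbc lb lc) with ⟨h1, _⟩ | ⟨_, h1, h2⟩
        · exact h1
        · rcases hwout with h3 | h3
          · exact absurd (hab.trans h1) (not_lt.mpr h3.le)
          · exact absurd h2 (not_lt.mpr h3.le)
      exact hnab (hcl a b c (sbtw_of_det s1 s2 z1) hac)
    · -- `w` between `a` and `c`: `d` is between `c` and `a`
      have s1 : 0 < det3 (p c) (p d) (p w) := by
        rcases hc.sgn hcd (dne hcd lc ld) with ⟨h1, _⟩ | ⟨_, h1, h2⟩
        · exact h1
        · exact absurd hw2 (not_lt.mpr h1.le)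
      have s2 : 0 < det3 (p d) (p a) (p w) := by
        have had := hab.trans (hbc.trans hcd)
        rcases hc.sgn had (dne had la ld) with ⟨_, h1⟩ | ⟨h1, _⟩
        · rcases h1 with h1 | h1
          · exact absurd hw1 (not_lt.mpr h1.le)
          · exact absurd (hw2.trans hcd) (not_lt.mpr h1.le)
        · rw [det3_swap]; linarith
      have hcda : Sbtw ℝ (p c) (p d) (p a) := sbtw_of_det s1 s2 (by rw [det3_cyc, z2])
      have h1 := hcl c d a hcda (r.symm hac)
      exact hnab (r.trans hac (r.trans h1 (r.symm hbd)))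

theorem GNC_of (hc : CycEnum n p) {r : Setoid (Fin n)} (h1 : NonCr r) (h2 : SClosed p r) :
    GNC p r := by
  classical
  -- it is enough to treat the case where the smallest element of the class of `i` is smaller
  have main : ∀ i j : Fin n, ¬ r i j → (∃ a0, r i a0 ∧ ∀ b, r j b → a0 < b) →
      Disjoint (convexHull ℝ (p '' {x | r i x})) (convexHull ℝ (p '' {x | r j x})) := by
    intro i j hij ⟨a00, ha00, ha00'⟩
    rw [Set.disjoint_left]
    intro z hzA hzB
    have hdisj : Disjoint {x | r i x} {x | r j x} := by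
      rw [Set.disjoint_left]
      intro x hx hx'
      exact hij (r.trans hx (r.symm hx'))
    -- a separating line gives a contradiction
    have sepc : ∀ u w : Pl, u ≠ w →
        ((∀ x, r i x → 0 ≤ det3 u w (p x)) ∧ (∀ x, r j x → det3 u w (p x) ≤ 0)) ∨
        ((∀ x, r j x → 0 ≤ det3 u w (p x)) ∧ (∀ x, r i x → det3 u w (p x) ≤ 0)) → False := by
      intro u w huw hs
      have fin : (∃ a, r i a ∧ ∃ a', r i a' ∧ ∃ b, r j b ∧ Sbtw ℝ (p a) (p b) (p a')) ∨
          (∃ b, r j b ∧ ∃ b', r j b' ∧ ∃ a, r i a ∧ Sbtw ℝ (p b) (p a) (p b')) := by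
        rcases hs with ⟨hs1, hs2⟩ | ⟨hs1, hs2⟩
        · exact sep_lemma hc.inj hdisj huw hs1 hs2 hzA hzB
        · exact (sep_lemma hc.inj hdisj.symm huw hs1 hs2 hzB hzA).symm
      rcases fin with ⟨a, ha, a', ha', b, hb, hab⟩ | ⟨b, hb, b', hb', a, ha, hab⟩
      · have := h2 a b a' hab (r.trans (r.symm ha) ha')
        exact hij (r.trans ha (r.trans this (r.symm hb)))
      · have := h2 b a b' hab (r.trans (r.symm hb) hb')
        exact hij (r.trans ha (r.trans (r.symm this) (r.symm hb)))
    -- extreme elements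
    have hneA : (univ.filter fun x : Fin n => r i x).Nonempty := ⟨i, by simp⟩
    have hneB : (univ.filter fun x : Fin n => r j x).Nonempty := ⟨j, by simp⟩
    obtain ⟨a0, ha0, ha0'⟩ : ∃ a0, r i a0 ∧ ∀ x, r i x → a0 ≤ x := by
      refine ⟨_, (Finset.mem_filter.mp (Finset.min'_mem _ hneA)).2, fun x hx => ?_⟩
      exact Finset.min'_le _ _ (by simp [hx])
    obtain ⟨b0, hb0, hb0'⟩ : ∃ b0, r j b0 ∧ ∀ x, r j x → b0 ≤ x := by
      refine ⟨_, (Finset.mem_filter.mp (Finset.min'_mem _ hneB)).2, fun x hx => ?_⟩
      exact Finset.min'_le _ _ (by simp [hx])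
    obtain ⟨b1, hb1, hb1'⟩ : ∃ b1, r j b1 ∧ ∀ x, r j x → x ≤ b1 := by
      refine ⟨_, (Finset.mem_filter.mp (Finset.max'_mem _ hneB)).2, fun x hx => ?_⟩
      exact Finset.le_max' _ _ (by simp [hx])
    have ha0b0 : a0 < b0 := lt_of_le_of_lt (ha0' _ ha00) (ha00' _ hb0)
    -- the last element of the class of `i` before `b0`
    obtain ⟨a, ha, hab0, ha'⟩ : ∃ a, r i a ∧ a < b0 ∧ ∀ x, r i x → x < b0 → x ≤ a := by
      have hne : (univ.filter fun x : Fin n => r i x ∧ x < b0).Nonempty :=
        ⟨a0, by simp [ha0, ha0b0]⟩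
      have := Finset.max'_mem _ hne
      rw [Finset.mem_filter] at this
      refine ⟨_, this.2.1, this.2.2, fun x hx hx' => ?_⟩
      exact Finset.le_max' _ _ (by simp [hx, hx'])
    by_cases hex : ∃ x, r i x ∧ b0 < x
    · -- there are elements after the class of `j`
      obtain ⟨a', haa', hb0a', hmin⟩ : ∃ a', r i a' ∧ b0 < a' ∧ ∀ x, r i x → b0 < x → a' ≤ x := by
        obtain ⟨x, hx, hx'⟩ := hex
        have hne : (univ.filter fun x : Fin n => r i x ∧ b0 < x).Nonempty :=
          ⟨x, by simp [hx, hx']⟩
        have := Finset.min'_mem _ hne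
        rw [Finset.mem_filter] at this
        refine ⟨_, this.2.1, this.2.2, fun x hx hx' => ?_⟩
        exact Finset.min'_le _ _ (by simp [hx, hx'])
      have hb1a' : b1 < a' := by
        by_contra hcon
        push Not at hcon
        rcases lt_or_eq_of_le hcon with h | h
        · have := h1 a b0 a' b1 hab0 hb0a' h (r.trans (r.symm ha) haa')
            (r.trans (r.symm hb0) hb1)
          exact hij (r.trans ha (r.trans this (r.symm hb0)))
        · rw [← h] at hb1
          exact hij (r.trans haa' (r.symm hb1))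
      have haa : a < a' := hab0.trans hb0a'
      refine sepc (p a) (p a') (fun hh => haa.ne (hc.inj hh)) (Or.inl ⟨?_, ?_⟩)
      · intro x hx
        rcases lt_trichotomy x b0 with h | h | h
        · rcases lt_or_eq_of_le (ha' x hx h) with h' | h'
          · rw [← det3_cyc']
            rw [det3_cyc, det3_cyc]
            have := hc.orient x a a' h' haa
            rw [← det3_cyc] at this
            exact this
          · rw [h', det3_self]
        · rw [h] at hx
          exact absurd (r.trans hx (r.symm hb0)) hij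
        · rcases lt_or_eq_of_le (hmin x hx h) with h' | h'
          · exact hc.orient a a' x haa h'
          · rw [← h', det3_self']
      · intro x hx
        have h3 : a < x := lt_of_lt_of_le hab0 (hb0' x hx)
        have h4 : x < a' := lt_of_le_of_lt (hb1' x hx) hb1a'
        have := hc.orient a x a' h3 h4
        rw [det3_swap']
        linarith
    · -- all elements of the class of `i` are before those of `j`
      push Not at hex
      have hall : ∀ x, r i x → x ≤ a := by
        intro x hx
        rcases lt_or_eq_of_le (hex x hx) with h | h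
        · exact ha' x hx h
        · rw [h] at hx
          exact absurd (r.trans hx (r.symm hb0)) hij
      rcases lt_or_eq_of_le (ha0' a ha) with h | h
      · refine sepc (p a0) (p a) (fun hh => h.ne (hc.inj hh)) (Or.inr ⟨?_, ?_⟩)
        · intro x hx
          exact hc.orient a0 a x h (lt_of_lt_of_le hab0 (hb0' x hx))
        · intro x hx
          rcases lt_or_eq_of_le (ha0' x hx) with h3 | h3
          · rcases lt_or_eq_of_le (hall x hx) with h4 | h4
            · have := hc.orient a0 x a h3 h4
              rw [det3_swap']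
              linarith
            · rw [h4, det3_self']
          · rw [← h3, det3_self]
      · -- the class of `i` is a single element
        have hsingle : ∀ x, r i x → x = a := fun x hx =>
          le_antisymm (hall x hx) (by rw [← h]; exact ha0' x hx)
        rcases lt_or_eq_of_le (hb0' b1 hb1) with h' | h'
        · refine sepc (p b0) (p b1) (fun hh => h'.ne (hc.inj hh)) (Or.inl ⟨?_, ?_⟩)
          · intro x hx
            rw [hsingle x hx, det3_cyc]
            exact hc.orient a b0 b1 hab0 h'
          · intro x hx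
            rcases lt_or_eq_of_le (hb0' x hx) with h3 | h3
            · rcases lt_or_eq_of_le (hb1' x hx) with h4 | h4
              · have := hc.orient b0 x b1 h3 h4
                rw [det3_swap']
                linarith
              · rw [h4, det3_self']
            · rw [← h3, det3_self]
        · -- both classes are single elements
          have hsingle' : ∀ x, r j x → x = b0 := fun x hx =>
            le_antisymm (by rw [h']; exact hb1' x hx) (hb0' x hx)
          have e1 : p '' {x | r i x} = {p a} := by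
            ext y
            constructor
            · rintro ⟨x, hx, rfl⟩
              rw [hsingle x hx]; rfl
            · rintro rfl
              exact ⟨a, ha, rfl⟩
          have e2 : p '' {x | r j x} = {p b0} := by
            ext y
            constructor
            · rintro ⟨x, hx, rfl⟩
              rw [hsingle' x hx]; rfl
            · rintro rfl
              exact ⟨b0, hb0, rfl⟩
          rw [e1, convexHull_singleton] at hzA
          rw [e2, convexHull_singleton] at hzB
          have : p a = p b0 := by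
            rw [← Set.mem_singleton_iff.mp hzA, ← Set.mem_singleton_iff.mp hzB]
          exact hab0.ne (hc.inj this)
  intro i j hij
  obtain ⟨a0, ha0, ha0'⟩ : ∃ a0, r i a0 ∧ ∀ x, r i x → a0 ≤ x := by
    have hneA : (univ.filter fun x : Fin n => r i x).Nonempty := ⟨i, by simp⟩
    refine ⟨_, (Finset.mem_filter.mp (Finset.min'_mem _ hneA)).2, fun x hx => ?_⟩
    exact Finset.min'_le _ _ (by simp [hx])
  obtain ⟨b0, hb0, hb0'⟩ : ∃ b0, r j b0 ∧ ∀ x, r j x → b0 ≤ x := by
    have hneB : (univ.filter fun x : Fin n => r j x).Nonempty := ⟨j, by simp⟩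
    refine ⟨_, (Finset.mem_filter.mp (Finset.min'_mem _ hneB)).2, fun x hx => ?_⟩
    exact Finset.min'_le _ _ (by simp [hx])
  rcases lt_trichotomy a0 b0 with h | h | h
  · exact main i j hij ⟨a0, ha0, fun b hb => lt_of_lt_of_le h (hb0' b hb)⟩
  · rw [h] at ha0
    exact absurd (r.trans ha0 (r.symm hb0)) hij
  · exact (main j i (fun hh => hij (r.symm hh))
      ⟨b0, hb0, fun a ha => lt_of_lt_of_le h (ha0' a ha)⟩).symm

theorem GNC_iff (hc : CycEnum n p) (r : Setoid (Fin n)) :
    GNC p r ↔ NonCr r ∧ SClosed p r :=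
  ⟨fun h => ⟨NonCr_of_GNC hc h, SClosed_of_GNC h⟩, fun h => GNC_of hc h.1 h.2⟩

/-! ### The closure condition and the sides -/

theorem SClosed_iff (hc : CycEnum n p) {m : ℕ} {v : ℕ → ℕ} (hv0 : v 0 = 0) (hvm : v m = n)
    (hmono : ∀ i, i < m → v i < v (i + 1))
    (hvert : ∀ x, x < n → (IsVert p x ↔ ∃ i, i < m ∧ v i = x)) (r : Setoid (Fin n)) :
    SClosed p r ↔ ∀ i, i < m → ¬ BadSide r (v i) (v (i + 1)) := by
  have hvmono : ∀ i j, i ≤ j → j ≤ m → v i ≤ v j := by
    intro i j hij
    induction j with
    | zero => intro _; have : i = 0 := by omega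
              rw [this]
    | succ j ih =>
      intro hj
      rcases Nat.lt_or_ge j i with h | h
      · have : i = j + 1 := by omega
        rw [this]
      · have h1 := ih h (by omega)
        have h2 := hmono j (by omega)
        omega
  have hvle : ∀ i, i ≤ m → v i ≤ n := fun i hi => by
    rw [← hvm]; exact hvmono i m hi le_rfl
  constructor
  · rintro h s hs ⟨i, j, k, h1, h2, h3, h4, h5, h6⟩
    have hnv : ∀ x, v s < x → x < v (s + 1) → ¬ IsVert p x := by
      intro x hx1 hx2 hx3
      have hxn : x < n := by have := hvle (s + 1) hs; omega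
      rw [hvert x hxn] at hx3
      obtain ⟨t, ht, rfl⟩ := hx3
      rcases Nat.lt_or_ge s t with h | h
      · have := hvmono (s + 1) t h ht.le
        omega
      · have := hvmono t s h hs.le
        omega
    have hb := hc.side_sbtw (hvle (s + 1) hs) hnv h1 h2 h3 h4
    exact h6 (h (cst i) (cst j) (cst k) hb h5)
  · intro h i j k hb hik
    obtain ⟨a, c, h1, h2, h3, h4, h5⟩ := hc.lift hb
    -- find the side
    have hexs : ∃ s, s < m ∧ v s ≤ a ∧ a < v (s + 1) := by
      have : ∀ t, t ≤ m → a < v t → ∃ s, s < m ∧ v s ≤ a ∧ a < v (s + 1) := by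
        intro t
        induction t with
        | zero => intro _ h; rw [hv0] at h; omega
        | succ t ih =>
          intro ht hat
          rcases Nat.lt_or_ge a (v t) with h | h
          · exact ih (by omega) h
          · exact ⟨t, by omega, h, hat⟩
      have hj := j.isLt
      exact this m le_rfl (by rw [hvm]; omega)
    obtain ⟨s, hs, hs1, hs2⟩ := hexs
    have hcv : c ≤ v (s + 1) := by
      by_contra hcon
      push Not at hcon
      have hlt : v (s + 1) < n := by omega
      have hnv := hc.vert_of_between h1 h2 h3 h4 hs2 hcon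
      apply hnv
      rw [hvert _ hlt]
      refine ⟨s + 1, ?_, rfl⟩
      by_contra hcon2
      have : s + 1 = m := by omega
      rw [this, hvm] at hlt
      omega
    have hnb := h s hs
    have hjc : (cst j.val : Fin n) = j := cst_fin j
    rcases h5 with ⟨h5, h6⟩ | ⟨h5, h6⟩
    · by_contra hij
      exact hnb ⟨a, j.val, c, hs1, h1, h2, hcv, by rw [h5, h6]; exact hik,
        by rw [h5, hjc]; exact hij⟩
    · by_contra hij
      apply hnb
      refine ⟨a, j.val, c, hs1, h1, h2, hcv, by rw [h5, h6]; exact r.symm hik, ?_⟩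
      rw [h5, hjc]
      intro hkj
      exact hij (r.trans hik hkj)

end Pool.Agent.H43
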