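import Mathlib
import Pool.Agent.H43.NCHull

/-!
Every non-collinear hull configuration has an enumeration in weakly convex position.
-/

namespace Pool.Agent.H43

open Finset Function

theorem strongDual_coord (f : StrongDual ℝ Pl) (x : Pl) :
    f x = f (EuclideanSpace.single 0 1) * x 0 + f (EuclideanSpace.single 1 1) * x 1 := by
  have h : x = x 0 • (EuclideanSpace.single 0 1 : Pl) + x 1 • (EuclideanSpace.single 1 1 : Pl) := by
    apply pl_ext
    · simp
    · simp
  conv_lhs => rw [h]
  rw [map_add, map_smul, map_smul, smul_eq_mul, smul_eq_mul]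
  ring

theorem interior_nonempty_of_not_collinear {P : Set Pl} (h : ¬ Collinear ℝ P) :
    (interior (convexHull ℝ P)).Nonempty := by
  rw [interior_convexHull_nonempty_iff_affineSpan_eq_top]
  have hne : P.Nonempty := by
    by_contra hcon
    rw [Set.not_nonempty_iff_eq_empty] at hcon
    subst hcon
    exact h (collinear_empty ℝ Pl)
  rw [AffineSubspace.affineSpan_eq_top_iff_vectorSpan_eq_top_of_nonempty ℝ Pl Pl hne]
  apply Submodule.eq_top_of_finrank_eq
  rw [collinear_iff_finrank_le_one] at h
  push Not at h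
  have h1 : Module.finrank ℝ Pl = 2 := by simp
  have h2 := Submodule.finrank_le (vectorSpan ℝ P)
  omega

theorem exists_support {P : Set Pl} (hcol : ¬ Collinear ℝ P)
    (hhull : P ⊆ frontier (convexHull ℝ P)) {q : Pl} (hq : q ∈ P) :
    ∃ α β : ℝ, ¬ (α = 0 ∧ β = 0) ∧ ∀ x ∈ P, α * x 0 + β * x 1 ≤ α * q 0 + β * q 1 := by
  have hint := interior_nonempty_of_not_collinear hcol
  have hconv : Convex ℝ (convexHull ℝ P) := convex_convexHull ℝ P
  have hnot : q ∉ interior (convexHull ℝ P) := (hhull hq).2
  obtain ⟨f, hf⟩ := geometric_hahn_banach_open_point hconv.interior isOpen_interior hnot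
  refine ⟨f (EuclideanSpace.single 0 1), f (EuclideanSpace.single 1 1), ?_, ?_⟩
  · rintro ⟨h1, h2⟩
    obtain ⟨y, hy⟩ := hint
    have := hf y hy
    rw [strongDual_coord f y, strongDual_coord f q, h1, h2] at this
    simp at this
  · intro x hx
    rw [← strongDual_coord, ← strongDual_coord]
    have hxc : x ∈ closure (interior (convexHull ℝ P)) := by
      rw [hconv.closure_interior_eq_closure_of_nonempty_interior hint]
      exact subset_closure (subset_convexHull ℝ P hx)
    have hclosed : IsClosed {y : Pl | f y ≤ f q} := isClosed_le f.continuous continuous_const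
    have hsub : interior (convexHull ℝ P) ⊆ {y : Pl | f y ≤ f q} := fun y hy => (hf y hy).le
    exact (closure_minimal hsub hclosed) hxc

theorem exists_det_ne_zero {P : Set Pl} (hcol : ¬ Collinear ℝ P) {a b : Pl} (ha : a ∈ P)
    (hab : a ≠ b) : ∃ w ∈ P, det3 a b w ≠ 0 := by
  by_contra hcon
  push Not at hcon
  apply hcol
  rw [collinear_iff_of_mem ha]
  refine ⟨b - a, fun x hx => ?_⟩
  have hd := hcon x hx
  have hN : (b 0 - a 0) ^ 2 + (b 1 - a 1) ^ 2 ≠ 0 := by
    intro hh
    have a0 : (b 0 - a 0) = 0 := by nlinarith [sq_nonneg (b 0 - a 0), sq_nonneg (b 1 - a 1)]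
    have a1 : (b 1 - a 1) = 0 := by nlinarith [sq_nonneg (b 0 - a 0), sq_nonneg (b 1 - a 1)]
    exact hab (pl_ext (by linarith) (by linarith))
  refine ⟨((b 0 - a 0) * (x 0 - a 0) + (b 1 - a 1) * (x 1 - a 1)) /
    ((b 0 - a 0) ^ 2 + (b 1 - a 1) ^ 2), ?_⟩
  unfold det3 at hd
  apply pl_ext
  · simp only [vadd_eq_add, PiLp.add_apply, PiLp.smul_apply, PiLp.sub_apply, smul_eq_mul]
    field_simp
    linear_combination (-(b 1 - a 1)) * hd
  · simp only [vadd_eq_add, PiLp.add_apply, PiLp.smul_apply, PiLp.sub_apply, smul_eq_mul]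
    field_simp
    linear_combination (b 0 - a 0) * hd

/-- an affine function nonpositive at the three corners of a nondegenerate triangle and zero at an
interior point vanishes identically -/
theorem affine_zero {α β : ℝ} {v a c b : Pl}
    (hv : α * v 0 + β * v 1 ≤ α * b 0 + β * b 1)
    (ha : α * a 0 + β * a 1 ≤ α * b 0 + β * b 1)
    (hc : α * c 0 + β * c 1 ≤ α * b 0 + β * b 1)
    (h1 : 0 < det3 a c b) (h2 : 0 < det3 v b c) (h3 : 0 < det3 v a b) : α = 0 ∧ β = 0 := by
  have hid : det3 a c b * ((α * v 0 + β * v 1) - (α * b 0 + β * b 1)) +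
      det3 v b c * ((α * a 0 + β * a 1) - (α * b 0 + β * b 1)) +
      det3 v a b * ((α * c 0 + β * c 1) - (α * b 0 + β * b 1)) = 0 := by
    unfold det3; ring
  have t1 : det3 a c b * ((α * v 0 + β * v 1) - (α * b 0 + β * b 1)) ≤ 0 :=
    mul_nonpos_of_nonneg_of_nonpos h1.le (by linarith)
  have t2 : det3 v b c * ((α * a 0 + β * a 1) - (α * b 0 + β * b 1)) ≤ 0 :=
    mul_nonpos_of_nonneg_of_nonpos h2.le (by linarith)
  have t3 : det3 v a b * ((α * c 0 + β * c 1) - (α * b 0 + β * b 1)) ≤ 0 :=
    mul_nonpos_of_nonneg_of_nonpos h3.le (by linarith)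
  have e1 : (α * v 0 + β * v 1) - (α * b 0 + β * b 1) = 0 := by
    have : det3 a c b * ((α * v 0 + β * v 1) - (α * b 0 + β * b 1)) = 0 := by linarith
    exact (mul_eq_zero.mp this).resolve_left h1.ne'
  have e2 : (α * a 0 + β * a 1) - (α * b 0 + β * b 1) = 0 := by
    have : det3 v b c * ((α * a 0 + β * a 1) - (α * b 0 + β * b 1)) = 0 := by linarith
    exact (mul_eq_zero.mp this).resolve_left h2.ne'
  -- `α, β` is orthogonal to `v - b` and `a - b`, which are independent
  have hd : det3 v a b ≠ 0 := h3.ne'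
  constructor
  · have : α * det3 v a b = 0 := by
      unfold det3
      linear_combination (a 1 - b 1) * e1 - (v 1 - b 1) * e2
    exact (mul_eq_zero.mp this).resolve_right hd
  · have : β * det3 v a b = 0 := by
      unfold det3
      linear_combination (v 0 - b 0) * e2 - (a 0 - b 0) * e1
    exact (mul_eq_zero.mp this).resolve_right hd

/-- the height functional of a point `v` farthest from the origin -/
def phi (v x : Pl) : ℝ := v 0 * (v 0 - x 0) + v 1 * (v 1 - x 1)

theorem phi_comb0 (v x y : Pl) (hz : det3 v x y = 0) :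
    phi v x * (y 0 - v 0) = phi v y * (x 0 - v 0) := by
  unfold phi
  unfold det3 at hz
  linear_combination (v 1) * hz

theorem phi_comb1 (v x y : Pl) (hz : det3 v x y = 0) :
    phi v x * (y 1 - v 1) = phi v y * (x 1 - v 1) := by
  unfold phi
  unfold det3 at hz
  linear_combination (-(v 0)) * hz

theorem phi_det1 (v i j k : Pl) (hz : det3 v i j = 0) :
    phi v i * det3 i j k = (phi v j - phi v i) * det3 v i k := by
  unfold phi
  unfold det3 at *
  linear_combination (v 0 * (k 0 - i 0) + v 1 * (k 1 - i 1)) * hz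

theorem phi_det2 (v i j k : Pl) (hz : det3 v j k = 0) :
    phi v j * det3 i j k = (phi v j - phi v k) * det3 v i j := by
  unfold phi
  unfold det3 at *
  linear_combination (v 0 * (i 0 - j 0) + v 1 * (i 1 - j 1)) * hz

/-- The supporting functional at a point `b` inside of the segment `v a` cannot have points on
both sides of the line. -/
theorem no_support {α β : ℝ} {v a b c m : Pl} (hva : v ≠ a)
    (hz : det3 v a b = 0) (hb : 0 < phi v b) (hba : phi v b < phi v a)
    (hc : 0 < det3 v a c) (hm : det3 v a m < 0)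
    (s1 : α * v 0 + β * v 1 ≤ α * b 0 + β * b 1)
    (s2 : α * a 0 + β * a 1 ≤ α * b 0 + β * b 1)
    (s3 : α * c 0 + β * c 1 ≤ α * b 0 + β * b 1)
    (s4 : α * m 0 + β * m 1 ≤ α * b 0 + β * b 1) : α = 0 ∧ β = 0 := by
  have c0 := phi_comb0 v a b hz
  have c1 := phi_comb1 v a b hz
  have comb : (phi v a - phi v b) * ((α * v 0 + β * v 1) - (α * b 0 + β * b 1)) +
      phi v b * ((α * a 0 + β * a 1) - (α * b 0 + β * b 1)) = 0 := by
    linear_combination (-α) * c0 - β * c1
  have t1 : (phi v a - phi v b) * ((α * v 0 + β * v 1) - (α * b 0 + β * b 1)) ≤ 0 :=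
    mul_nonpos_of_nonneg_of_nonpos (by linarith) (by linarith)
  have t2 : phi v b * ((α * a 0 + β * a 1) - (α * b 0 + β * b 1)) ≤ 0 :=
    mul_nonpos_of_nonneg_of_nonpos hb.le (by linarith)
  have e1 : (α * v 0 + β * v 1) - (α * b 0 + β * b 1) = 0 := by
    have : (phi v a - phi v b) * ((α * v 0 + β * v 1) - (α * b 0 + β * b 1)) = 0 := by
      linarith
    exact (mul_eq_zero.mp this).resolve_left (by linarith)
  have e2 : (α * a 0 + β * a 1) - (α * b 0 + β * b 1) = 0 := by
    have : phi v b * ((α * a 0 + β * a 1) - (α * b 0 + β * b 1)) = 0 := by linarith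
    exact (mul_eq_zero.mp this).resolve_left hb.ne'
  have hvi : α * (a 0 - v 0) + β * (a 1 - v 1) = 0 := by linarith
  have hq : (a 0 - v 0) ^ 2 + (a 1 - v 1) ^ 2 ≠ 0 := by
    intro hh
    have a0 : (a 0 - v 0) = 0 := by
      nlinarith [sq_nonneg (a 0 - v 0), sq_nonneg (a 1 - v 1)]
    have a1 : (a 1 - v 1) = 0 := by
      nlinarith [sq_nonneg (a 0 - v 0), sq_nonneg (a 1 - v 1)]
    exact hva (pl_ext (by linarith) (by linarith))
  set Q := (a 0 - v 0) ^ 2 + (a 1 - v 1) ^ 2 with hQ
  have hQpos : 0 < Q := lt_of_le_of_ne (by positivity) (Ne.symm hq)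
  set κ := -α * (a 1 - v 1) + β * (a 0 - v 0) with hκ
  have hfun : ∀ x : Pl, Q * ((α * x 0 + β * x 1) - (α * v 0 + β * v 1)) =
      κ * det3 v a x := by
    intro x
    rw [hQ, hκ]
    unfold det3
    linear_combination ((a 0 - v 0) * (x 0 - v 0) + (a 1 - v 1) * (x 1 - v 1)) * hvi
  have k1 : κ * det3 v a c ≤ 0 := by
    rw [← hfun c]
    exact mul_nonpos_of_nonneg_of_nonpos hQpos.le (by linarith)
  have k2 : κ * det3 v a m ≤ 0 := by
    rw [← hfun m]
    exact mul_nonpos_of_nonneg_of_nonpos hQpos.le (by linarith)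
  have hκ0 : κ = 0 := by
    apply le_antisymm
    · by_contra hcon
      push Not at hcon
      have := mul_pos hcon hc
      linarith
    · by_contra hcon
      push Not at hcon
      have := mul_pos_of_neg_of_neg hcon hm
      linarith
  constructor
  · have : Q * α = 0 := by
      rw [hQ]
      rw [hκ] at hκ0
      linear_combination (a 0 - v 0) * hvi - (a 1 - v 1) * hκ0
    exact (mul_eq_zero.mp this).resolve_left hq
  · have : Q * β = 0 := by
      rw [hQ]
      rw [hκ] at hκ0
      linear_combination (a 1 - v 1) * hvi + (a 0 - v 0) * hκ0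
    exact (mul_eq_zero.mp this).resolve_left hq

theorem exists_cycEnum {n : ℕ} [NeZero n] (P : Finset Pl) (hcard : P.card = n)
    (hcol : ¬ Collinear ℝ (P : Set Pl))
    (hhull : (P : Set Pl) ⊆ frontier (convexHull ℝ (P : Set Pl))) :
    ∃ p : Fin n → Pl, CycEnum n p ∧ Set.range p = (P : Set Pl) := by
  classical
  have hPne : P.Nonempty := by
    rw [← Finset.card_pos, hcard]
    exact Nat.pos_of_ne_zero (NeZero.ne n)
  -- the farthest point from the origin
  obtain ⟨v, hvP, hvmax⟩ := Finset.exists_max_image P (fun x : Pl => x 0 ^ 2 + x 1 ^ 2) hPne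
  set φ : Pl → ℝ := phi v with hφ
  set ψ : Pl → ℝ := fun x => v 1 * (x 0 - v 0) - v 0 * (x 1 - v 1) with hψ
  have hφpos : ∀ x ∈ P, x ≠ v → 0 < φ x := by
    intro x hx hne
    have h1 := hvmax x hx
    have h2 : 0 < (v 0 - x 0) ^ 2 + (v 1 - x 1) ^ 2 := by
      by_contra hcon
      push Not at hcon
      have a0 : (v 0 - x 0) = 0 := by nlinarith [sq_nonneg (v 0 - x 0), sq_nonneg (v 1 - x 1)]
      have a1 : (v 1 - x 1) = 0 := by nlinarith [sq_nonneg (v 0 - x 0), sq_nonneg (v 1 - x 1)]
      exact hne (pl_ext (by linarith) (by linarith))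
    rw [hφ]
    unfold phi
    nlinarith
  have hφv : φ v = 0 := by simp [hφ, phi]
  have hex : ∃ y ∈ P, y ≠ v := by
    by_contra hcon
    push Not at hcon
    apply hcol
    have : (P : Set Pl) ⊆ {v} := fun x hx => hcon x hx
    exact (collinear_singleton ℝ v).subset this
  have hN : 0 < v 0 ^ 2 + v 1 ^ 2 := by
    obtain ⟨y, hy, hyv⟩ := hex
    have := hφpos y hy hyv
    by_contra hcon
    push Not at hcon
    have a0 : v 0 = 0 := by nlinarith [sq_nonneg (v 0), sq_nonneg (v 1)]
    have a1 : v 1 = 0 := by nlinarith [sq_nonneg (v 0), sq_nonneg (v 1)]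
    simp [hφ, phi, a0, a1] at this
  have hdet : ∀ x y : Pl, (v 0 ^ 2 + v 1 ^ 2) * det3 v x y = φ x * ψ y - ψ x * φ y := by
    intro x y
    simp only [hφ, hψ]
    unfold det3 phi
    ring
  set s : Pl → ℝ := fun x => ψ x / φ x with hs
  have hdet' : ∀ x y : Pl, x ∈ P → x ≠ v → y ∈ P → y ≠ v →
      (v 0 ^ 2 + v 1 ^ 2) * det3 v x y = φ x * φ y * (s y - s x) := by
    intro x y hx hxv hy hyv
    have h1 := hφpos x hx hxv
    have h2 := hφpos y hy hyv
    rw [hdet]
    simp only [hs]
    field_simp
  -- sign of det3 from the slopes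
  have hdet_pos : ∀ x y : Pl, x ∈ P → x ≠ v → y ∈ P → y ≠ v → s x < s y → 0 < det3 v x y := by
    intro x y hx hxv hy hyv hlt
    have h1 := hφpos x hx hxv
    have h2 := hφpos y hy hyv
    have h3 := hdet' x y hx hxv hy hyv
    have h4 : 0 < φ x * φ y * (s y - s x) := by
      apply mul_pos (mul_pos h1 h2); linarith
    rw [← h3] at h4
    exact (pos_iff_pos_of_mul_pos h4).mp hN
  have hdet_zero : ∀ x y : Pl, x ∈ P → x ≠ v → y ∈ P → y ≠ v → s x = s y → det3 v x y = 0 := by
    intro x y hx hxv hy hyv heq
    have h3 := hdet' x y hx hxv hy hyv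
    rw [heq, sub_self, mul_zero] at h3
    exact (mul_eq_zero.mp h3).resolve_left hN.ne'
  -- the smallest slope
  have herase : (P.erase v).Nonempty := by
    obtain ⟨y, hy, hyv⟩ := hex
    exact ⟨y, Finset.mem_erase.mpr ⟨hyv, hy⟩⟩
  obtain ⟨m, hm, hmmin⟩ := Finset.exists_min_image (P.erase v) s herase
  rw [Finset.mem_erase] at hm
  -- the key
  set K : Pl → ℝ ×ₗ ℝ := fun x => if x = v then toLex (s m - 1, 0) else
    toLex (s x, if s x = s m then φ x else - φ x) with hK
  have hKv : K v = toLex (s m - 1, 0) := by simp [hK]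
  have hKx : ∀ x, x ≠ v → K x = toLex (s x, if s x = s m then φ x else - φ x) := by
    intro x hx
    simp [hK, hx]
  have hKvlt : ∀ x ∈ P, x ≠ v → K v < K x := by
    intro x hx hxv
    rw [hKv, hKx x hxv, Prod.Lex.toLex_lt_toLex]
    left
    have := hmmin x (Finset.mem_erase.mpr ⟨hxv, hx⟩)
    show s m - 1 < s x
    linarith
  have hcoord : ∀ x y : Pl, φ x = φ y → ψ x = ψ y → x = y := by
    intro x y h1 h2
    simp only [hφ, hψ] at h1 h2
    unfold phi at h1
    have e1 : (v 0 ^ 2 + v 1 ^ 2) * (x 0 - y 0) = 0 := by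
      linear_combination (- v 0) * h1 + v 1 * h2
    have e2 : (v 0 ^ 2 + v 1 ^ 2) * (x 1 - y 1) = 0 := by
      linear_combination (- v 1) * h1 - v 0 * h2
    have e3 := (mul_eq_zero.mp e1).resolve_left hN.ne'
    have e4 := (mul_eq_zero.mp e2).resolve_left hN.ne'
    exact pl_ext (by linarith) (by linarith)
  have hKinj : Set.InjOn K (P : Set Pl) := by
    intro x hx y hy hxy
    by_cases hxv : x = v
    · by_cases hyv : y = v
      · rw [hxv, hyv]
      · have := hKvlt y hy hyv
        rw [← hxv, hxy] at this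
        exact absurd this (lt_irrefl _)
    · by_cases hyv : y = v
      · have := hKvlt x hx hxv
        rw [← hyv, ← hxy] at this
        exact absurd this (lt_irrefl _)
      · rw [hKx x hxv, hKx y hyv] at hxy
        have h1 := congrArg (fun z : ℝ ×ₗ ℝ => (ofLex z).1) hxy
        have h2 := congrArg (fun z : ℝ ×ₗ ℝ => (ofLex z).2) hxy
        simp only [ofLex_toLex] at h1 h2
        rw [h1] at h2
        have h3 : φ x = φ y := by
          split_ifs at h2 with h
          · exact h2
          · linarith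
        have h4 : ψ x = ψ y := by
          have p1 := hφpos x hx hxv
          have p2 := hφpos y hy hyv
          simp only [hs] at h1
          rw [h3] at h1 p1
          field_simp at h1
          exact h1
        exact hcoord x y h3 h4
  have hLcard : (P.image K).card = n := by
    rw [Finset.card_image_of_injOn hKinj, hcard]
  set f := (P.image K).orderEmbOfFin hLcard with hf
  have hfmem : ∀ i, ∃ x ∈ P, K x = f i := by
    intro i
    have := Finset.orderEmbOfFin_mem (P.image K) hLcard i
    rw [Finset.mem_image] at this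
    exact this
  choose p hpP hpK using hfmem
  have hlt : ∀ i j : Fin n, i < j → K (p i) < K (p j) := by
    intro i j hij
    rw [hpK, hpK]
    exact f.strictMono hij
  have hpinj : Injective p := by
    intro i j hij
    rcases lt_trichotomy i j with h | h | h
    · have := hlt i j h
      rw [hij] at this
      exact absurd this (lt_irrefl _)
    · exact h
    · have := hlt j i h
      rw [hij] at this
      exact absurd this (lt_irrefl _)
  have hrange : Set.range p = (P : Set Pl) := by
    ext x
    constructor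
    · rintro ⟨i, rfl⟩
      exact hpP i
    · intro hx
      have h1 : K x ∈ Set.range f := by
        rw [hf, Finset.range_orderEmbOfFin]
        exact Finset.mem_coe.mpr (Finset.mem_image_of_mem K hx)
      obtain ⟨i, hi⟩ := h1
      refine ⟨i, ?_⟩
      apply hKinj (hpP i) hx
      rw [hpK i, hi]
  have hp0 : p (cst 0) = v := by
    have hv' : v ∈ Set.range p := by rw [hrange]; exact hvP
    obtain ⟨i, hi⟩ := hv'
    by_contra hne
    have h1 : (cst 0 : Fin n) ≠ i := fun hh => hne (by rw [hh, hi])
    have h2 : (cst 0 : Fin n) < i := by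
      refine lt_of_le_of_ne ?_ h1
      show (cst 0 : Fin n).val ≤ i.val
      rw [cst_val]
      simp
    have h3 := hlt _ _ h2
    rw [hi] at h3
    have h4 := hKvlt _ (hpP (cst 0)) hne
    exact absurd (h3.trans h4) (lt_irrefl _)
  have hpne : ∀ i : Fin n, cst 0 < i → p i ≠ v := by
    intro i hi hh
    rw [← hp0] at hh
    exact hi.ne (hpinj hh).symm
  -- comparison of keys
  have hcmp : ∀ x y : Pl, x ≠ v → y ≠ v → K x < K y →
      s x < s y ∨ (s x = s y ∧ ((s x = s m ∧ φ x < φ y) ∨ (s x ≠ s m ∧ φ y < φ x))) := by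
    intro x y hx hy hxy
    rw [hKx x hx, hKx y hy, Prod.Lex.toLex_lt_toLex] at hxy
    rcases hxy with h | ⟨h, h'⟩
    · exact Or.inl h
    · right
      simp only at h h'
      refine ⟨h, ?_⟩
      rw [← h] at h'
      by_cases hsm : s x = s m
      · left
        rw [if_pos hsm, if_pos hsm] at h'
        exact ⟨hsm, h'⟩
      · right
        rw [if_neg hsm, if_neg hsm] at h'
        exact ⟨hsm, by linarith⟩
  refine ⟨p, ⟨hpinj, ?_, ?_, ?_⟩, hrange⟩
  · -- orientation
    intro i j k hij hjk
    have h0j : (cst 0 : Fin n) < j := by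
      show (cst 0 : Fin n).val < j.val
      have : i.val < j.val := hij
      rw [cst_val, Nat.zero_mod]
      omega
    have h0k : (cst 0 : Fin n) < k := h0j.trans hjk
    have hjv := hpne j h0j
    have hkv := hpne k h0k
    rcases hcmp _ _ hjv hkv (hlt j k hjk) with hsjk | ⟨hsjk, hsjk'⟩
    · -- different slopes of `p j`, `p k`
      by_cases hi0 : p i = v
      · rw [hi0]
        exact (hdet_pos _ _ (hpP j) hjv (hpP k) hkv hsjk).le
      · rcases hcmp _ _ hi0 hjv (hlt i j hij) with hsij | ⟨hsij, hsij'⟩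
        · by_contra hneg
          push Not at hneg
          obtain ⟨α, β, hαβ, hsup⟩ := exists_support hcol hhull (Finset.mem_coe.mpr (hpP j))
          apply hαβ
          refine affine_zero (hsup v hvP) (hsup (p i) (hpP i)) (hsup (p k) (hpP k)) ?_ ?_ ?_
          · rw [det3_swap']; linarith
          · exact hdet_pos _ _ (hpP j) hjv (hpP k) hkv hsjk
          · exact hdet_pos _ _ (hpP i) hi0 (hpP j) hjv hsij
        · -- `p i`, `p j` on the same ray
          have hz := hdet_zero _ _ (hpP i) hi0 (hpP j) hjv hsij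
          have hNid : φ (p i) * det3 (p i) (p j) (p k) =
              (φ (p j) - φ (p i)) * det3 v (p i) (p k) := phi_det1 v _ _ _ hz
          have hpi := hφpos _ (hpP i) hi0
          have hdik : 0 < det3 v (p i) (p k) :=
            hdet_pos _ _ (hpP i) hi0 (hpP k) hkv (by rw [hsij]; exact hsjk)
          rcases hsij' with ⟨hsm, hlt'⟩ | ⟨hsm, hlt'⟩
          · have : 0 ≤ φ (p i) * det3 (p i) (p j) (p k) := by
              rw [hNid]
              exact mul_nonneg (by linarith) hdik.le
            exact nonneg_of_mul_nonneg_right this hpi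
          · -- the nearer point `p j` would be inside
            exfalso
            obtain ⟨α, β, hαβ, hsup⟩ := exists_support hcol hhull (Finset.mem_coe.mpr (hpP j))
            have hmlt : s m < s (p i) := by
              refine lt_of_le_of_ne ?_ (Ne.symm hsm)
              exact hmmin _ (Finset.mem_erase.mpr ⟨hi0, hpP i⟩)
            have hdmi : 0 < det3 v m (p i) := hdet_pos _ _ hm.2 hm.1 (hpP i) hi0 hmlt
            have dm : det3 v (p i) m < 0 := by rw [det3_swap']; linarith
            exact hαβ (no_support (Ne.symm hi0) hz (hφpos _ (hpP j) hjv) hlt' hdik dm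
              (hsup v hvP) (hsup (p i) (hpP i)) (hsup (p k) (hpP k)) (hsup m hm.2))
    · -- `p j`, `p k` on the same ray
      by_cases hi0 : p i = v
      · rw [hi0, hdet_zero _ _ (hpP j) hjv (hpP k) hkv hsjk]
      · have hz := hdet_zero _ _ (hpP j) hjv (hpP k) hkv hsjk
        have hpj := hφpos _ (hpP j) hjv
        have hNid : φ (p j) * det3 (p i) (p j) (p k) =
            (φ (p j) - φ (p k)) * det3 v (p i) (p j) := phi_det2 v _ _ _ hz
        rcases hcmp _ _ hi0 hjv (hlt i j hij) with hsij | ⟨hsij, hsij'⟩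
        · have hsm : s (p j) ≠ s m := by
            have := hmmin _ (Finset.mem_erase.mpr ⟨hi0, hpP i⟩)
            intro hh
            rw [hh] at hsij
            linarith
          have hlt' : φ (p k) < φ (p j) := by
            rcases hsjk' with ⟨h1, _⟩ | ⟨_, h1⟩
            · exact absurd h1 hsm
            · exact h1
          have : 0 ≤ φ (p j) * det3 (p i) (p j) (p k) := by
            rw [hNid]
            exact mul_nonneg (by linarith) (hdet_pos _ _ (hpP i) hi0 (hpP j) hjv hsij).le
          exact nonneg_of_mul_nonneg_right this hpj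
        · have h0 := hdet_zero _ _ (hpP i) hi0 (hpP j) hjv hsij
          rw [h0, mul_zero] at hNid
          rw [(mul_eq_zero.mp hNid).resolve_left hpj.ne']
  · -- `v` is not between two points
    intro i k hb
    rw [hp0, sbtw_iff_coord] at hb
    obtain ⟨hne, t, ht0, ht1, h0, h1⟩ := hb
    have hiv : 0 ≤ φ (p i) := by
      by_cases h : p i = v
      · rw [h, hφv]
      · exact (hφpos _ (hpP i) h).le
    have hkv : 0 ≤ φ (p k) := by
      by_cases h : p k = v
      · rw [h, hφv]
      · exact (hφpos _ (hpP k) h).le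
    have hsum : (1 - t) * φ (p i) + t * φ (p k) = 0 := by
      simp only [hφ]
      unfold phi
      linear_combination (v 0) * h0 + (v 1) * h1
    have e1 : φ (p i) = 0 := by
      have a1 := mul_nonneg (show 0 ≤ 1 - t by linarith) hiv
      have a2 := mul_nonneg ht0.le hkv
      have : (1 - t) * φ (p i) = 0 := by linarith
      exact (mul_eq_zero.mp this).resolve_left (by linarith)
    have e2 : φ (p k) = 0 := by
      have a1 := mul_nonneg (show 0 ≤ 1 - t by linarith) hiv
      have a2 := mul_nonneg ht0.le hkv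
      have : t * φ (p k) = 0 := by linarith
      exact (mul_eq_zero.mp this).resolve_left (by linarith)
    have f1 : p i = v := by
      by_contra h
      exact (hφpos _ (hpP i) h).ne' e1
    have f2 : p k = v := by
      by_contra h
      exact (hφpos _ (hpP k) h).ne' e2
    exact hne (f1.trans f2.symm)
  · intro i j hij
    obtain ⟨w, hwP, hw⟩ := exists_det_ne_zero hcol (a := p i) (b := p j)
      (Finset.mem_coe.mpr (hpP i)) (fun hh => hij (hpinj hh))
    have : w ∈ Set.range p := by rw [hrange]; exact hwP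
    obtain ⟨k, rfl⟩ := this
    exact ⟨k, hw⟩

end Pool.Agent.H43
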