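import Mathlib
import Pool.Agent.H43.NCExist

/-!
Adjacent vertices span a blank side; the list of vertices of a configuration without blank sides.
-/

namespace Pool.Agent.H43

open Finset Function

theorem line_uniq {u w x y : Pl} (huw : u ≠ w) (hx : det3 u w x = 0) (hy : det3 u w y = 0)
    (hxy : (w 0 - u 0) * x 0 + (w 1 - u 1) * x 1 = (w 0 - u 0) * y 0 + (w 1 - u 1) * y 1) :
    x = y := by
  have hd : (w 0 - u 0) ^ 2 + (w 1 - u 1) ^ 2 ≠ 0 := by
    intro hcon
    have a0 : (w 0 - u 0) = 0 := by nlinarith [sq_nonneg (w 0 - u 0), sq_nonneg (w 1 - u 1)]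
    have a1 : (w 1 - u 1) = 0 := by nlinarith [sq_nonneg (w 0 - u 0), sq_nonneg (w 1 - u 1)]
    exact huw (pl_ext (by linarith) (by linarith))
  have e1 : ((w 0 - u 0) ^ 2 + (w 1 - u 1) ^ 2) * (x 0 - y 0) = 0 := by
    unfold det3 at hx hy
    linear_combination (w 0 - u 0) * hxy - (w 1 - u 1) * (hx - hy)
  have e2 : ((w 0 - u 0) ^ 2 + (w 1 - u 1) ^ 2) * (x 1 - y 1) = 0 := by
    unfold det3 at hx hy
    linear_combination (w 1 - u 1) * hxy + (w 0 - u 0) * (hx - hy)
  have e3 := (mul_eq_zero.mp e1).resolve_left hd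
  have e4 := (mul_eq_zero.mp e2).resolve_left hd
  exact pl_ext (by linarith) (by linarith)

theorem sbtw_trichotomy {a b y : Pl} (hab : a ≠ b) (hy : det3 a b y = 0) (hya : y ≠ a)
    (hyb : y ≠ b) : Sbtw ℝ y a b ∨ Sbtw ℝ a y b ∨ Sbtw ℝ a b y := by
  have ha : det3 a b a = 0 := det3_self _ _
  have hb : det3 a b b = 0 := det3_self' _ _
  have hlt : (b 0 - a 0) * a 0 + (b 1 - a 1) * a 1 < (b 0 - a 0) * b 0 + (b 1 - a 1) * b 1 := by
    have : 0 < (b 0 - a 0) ^ 2 + (b 1 - a 1) ^ 2 := by
      by_contra hcon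
      push Not at hcon
      have a0 : (b 0 - a 0) = 0 := by nlinarith [sq_nonneg (b 0 - a 0), sq_nonneg (b 1 - a 1)]
      have a1 : (b 1 - a 1) = 0 := by nlinarith [sq_nonneg (b 0 - a 0), sq_nonneg (b 1 - a 1)]
      exact hab (pl_ext (by linarith) (by linarith))
    nlinarith
  rcases lt_trichotomy ((b 0 - a 0) * y 0 + (b 1 - a 1) * y 1)
    ((b 0 - a 0) * a 0 + (b 1 - a 1) * a 1) with h | h | h
  · exact Or.inl (sbtw_of_tau hab hy ha hb h hlt)
  · exact absurd (line_uniq hab hy ha h) hya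
  · rcases lt_trichotomy ((b 0 - a 0) * y 0 + (b 1 - a 1) * y 1)
      ((b 0 - a 0) * b 0 + (b 1 - a 1) * b 1) with h' | h' | h'
    · exact Or.inr (Or.inl (sbtw_of_tau hab ha hy hb h h'))
    · exact absurd (line_uniq hab hy hb h') hyb
    · exact Or.inr (Or.inr (sbtw_of_tau hab ha hb hy hlt h'))

theorem mem_segment_of_tau {a b z : Pl} (hab : a ≠ b) (hz : det3 a b z = 0)
    (h1 : (b 0 - a 0) * a 0 + (b 1 - a 1) * a 1 ≤ (b 0 - a 0) * z 0 + (b 1 - a 1) * z 1)
    (h2 : (b 0 - a 0) * z 0 + (b 1 - a 1) * z 1 ≤ (b 0 - a 0) * b 0 + (b 1 - a 1) * b 1) :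
    z ∈ segment ℝ a b := by
  by_cases hza : z = a
  · rw [hza]; exact left_mem_segment ℝ a b
  by_cases hzb : z = b
  · rw [hzb]; exact right_mem_segment ℝ a b
  have ha : det3 a b a = 0 := det3_self _ _
  have hb : det3 a b b = 0 := det3_self' _ _
  rcases eq_or_lt_of_le h1 with h1 | h1
  · exact absurd (line_uniq hab hz ha h1.symm) hza
  rcases eq_or_lt_of_le h2 with h2 | h2
  · exact absurd (line_uniq hab hz hb h2) hzb
  exact mem_segment_iff_wbtw.mpr (sbtw_of_tau hab ha hz hb h1 h2).wbtw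

/-- `[a, b]` is a side of the polygon `Conv(P)`: a nondegenerate segment which is an exposed
face of the polygon. -/
def IsSideOf (P : Finset Pl) (a b : Pl) : Prop :=
  a ≠ b ∧ IsExposed ℝ (convexHull ℝ (P : Set Pl)) (segment ℝ a b)

variable {n : ℕ} [NeZero n] {p : Fin n → Pl}

/-- on the line through two cyclically adjacent vertices there is no other point -/
theorem CycEnum.adj_uniq (hc : CycEnum n p) (hn : 2 < n) {x : ℕ} (hx : x < n)
    (h1 : IsVert p x) (h2 : IsVert p (x + 1)) (w : Fin n)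
    (hw : det3 (qq p x) (qq p (x + 1)) (p w) = 0) : p w = qq p x ∨ p w = qq p (x + 1) := by
  by_contra hcon
  push Not at hcon
  have hne : qq p x ≠ qq p (x + 1) := hc.qq_ne (by omega) (by omega) (by omega)
  rcases sbtw_trichotomy hne hw hcon.1 hcon.2 with h | h | h
  · exact h1 w (cst (x + 1)) h
  · -- `w` is between `x` and `x + 1`
    obtain ⟨a, c, ha, hcc, hcn, hb, hends⟩ := hc.lift (i := cst x) (k := cst (x + 1)) h
    have vx : (cst x : Fin n).val = x := cst_of_lt hx
    have hwlt := w.isLt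
    have va : (cst a : Fin n).val = a := cst_of_lt (by omega)
    have hcval : (c < n ∧ (cst c : Fin n).val = c) ∨ (c = n ∧ (cst c : Fin n).val = 0) := by
      rcases Nat.lt_or_ge c n with h' | h'
      · exact Or.inl ⟨h', cst_of_lt h'⟩
      · have : c = n := by omega
        exact Or.inr ⟨this, by rw [this]; exact cst_n⟩
    have hx1val : (x + 1 < n ∧ (cst (x + 1) : Fin n).val = x + 1) ∨
        (x + 1 = n ∧ (cst (x + 1) : Fin n).val = 0) := by
      rcases Nat.lt_or_ge (x + 1) n with h' | h'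
      · exact Or.inl ⟨h', cst_of_lt h'⟩
      · have : x + 1 = n := by omega
        exact Or.inr ⟨this, by rw [this]; exact cst_n⟩
    rcases hends with ⟨e1, e2⟩ | ⟨e1, e2⟩
    · have e1' : (cst a : Fin n).val = (cst x : Fin n).val := congrArg Fin.val e1
      have e2' : (cst c : Fin n).val = (cst (x + 1) : Fin n).val := congrArg Fin.val e2
      rcases hcval with ⟨q1, q2⟩ | ⟨q1, q2⟩ <;> rcases hx1val with ⟨q3, q4⟩ | ⟨q3, q4⟩ <;> omega
    · have e1' : (cst a : Fin n).val = (cst (x + 1) : Fin n).val := congrArg Fin.val e1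
      have e2' : (cst c : Fin n).val = (cst x : Fin n).val := congrArg Fin.val e2
      -- all points are on a line
      have hall : ∀ y : Fin n, det3 (qq p a) (qq p c) (p y) = 0 := by
        intro y
        have hylt := y.isLt
        rw [← qq_fin p y]
        rcases hcval with ⟨q1, q2⟩ | ⟨q1, q2⟩ <;> rcases hx1val with ⟨q3, q4⟩ | ⟨q3, q4⟩
        · exfalso; omega
        · exact hc.line_of_sbtw ha hcc hcn hb (by omega) (by omega)
        · rcases Nat.eq_zero_or_pos y.val with hy0 | hy0
          · rw [hy0, ← qq_n, q1]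
            exact det3_self' _ _
          · exact hc.line_of_sbtw ha hcc hcn hb (by omega) (by omega)
        · exfalso; omega
      exact hc.not_all_line hb.left_ne_right hall (by omega)
  · exact h2 (cst x) w h

/-- two cyclically adjacent vertices span a side -/
theorem CycEnum.isSide_adj (hc : CycEnum n p) (hn : 2 < n) {P : Finset Pl}
    (hP : Set.range p = (P : Set Pl)) {x : ℕ} (hx : x < n)
    (h1 : IsVert p x) (h2 : IsVert p (x + 1)) : IsSideOf P (qq p x) (qq p (x + 1)) := by
  have hne : qq p x ≠ qq p (x + 1) := hc.qq_ne (by omega) (by omega) (by omega)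
  refine ⟨hne, fun _ => ?_⟩
  obtain ⟨g, c, hg⟩ := exists_functional (qq p x) (qq p (x + 1))
  have hgP : ∀ w : Fin n, c ≤ g (p w) := by
    intro w
    have h3 : 0 ≤ det3 (qq p x) (qq p (x + 1)) (p w) := by
      rw [← qq_fin p w]
      rcases lt_trichotomy w.val x with h | h | h
      · rw [← det3_cyc']
        exact hc.orient' h (by omega) (by omega)
      · rw [h, det3_self]
      · rcases Nat.eq_or_lt_of_le h with h' | h'
        · rw [← h', det3_self']
        · exact hc.orient' (by omega) h' w.isLt.le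
    rw [hg] at h3
    linarith
  have ga : g (qq p x) = c := by
    have := hg (qq p x)
    rw [det3_self] at this
    linarith
  have gb : g (qq p (x + 1)) = c := by
    have := hg (qq p (x + 1))
    rw [det3_self'] at this
    linarith
  have himg : p '' Set.univ = (P : Set Pl) := by rw [Set.image_univ, hP]
  have hconv_ge : ∀ y ∈ convexHull ℝ (P : Set Pl), c ≤ g y := by
    intro y hy
    have hconv : Convex ℝ {y : Pl | c ≤ g y} := convex_halfSpace_ge g.isLinear c
    have hsub : (P : Set Pl) ⊆ {y : Pl | c ≤ g y} := by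
      rw [← hP]
      rintro _ ⟨w, rfl⟩
      exact hgP w
    exact convexHull_min hsub hconv hy
  have hmemP : ∀ y : ℕ, qq p y ∈ (P : Set Pl) := by
    intro y
    rw [← hP]
    exact ⟨cst y, rfl⟩
  refine ⟨(-g).toContinuousLinearMap, ?_⟩
  ext z
  simp only [LinearMap.coe_toContinuousLinearMap', LinearMap.neg_apply, neg_le_neg_iff]
  constructor
  · intro hz
    have hzc : g z = c := by
      obtain ⟨α, β, hα, hβ, hαβ, rfl⟩ := hz
      rw [map_add, map_smul, map_smul, ga, gb, smul_eq_mul, smul_eq_mul, ← add_mul, hαβ, one_mul]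
    refine ⟨segment_subset_convexHull (hmemP x) (hmemP (x + 1)) hz, fun y hy => ?_⟩
    rw [hzc]
    exact hconv_ge y hy
  · rintro ⟨hz, hz'⟩
    have hzc : g z = c := by
      apply le_antisymm
      · rw [← ga]
        exact hz' _ (subset_convexHull ℝ _ (hmemP x))
      · exact hconv_ge z hz
    rw [← himg] at hz
    set t : Pl →ₗ[ℝ] ℝ := linf (qq p (x + 1) 0 - qq p x 0) (qq p (x + 1) 1 - qq p x 1) with ht
    have hlt : t (qq p x) < t (qq p (x + 1)) := by
      rw [ht, linf_apply, linf_apply]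
      have : 0 < (qq p (x + 1) 0 - qq p x 0) ^ 2 + (qq p (x + 1) 1 - qq p x 1) ^ 2 := by
        by_contra hcon
        push Not at hcon
        have a0 : (qq p (x + 1) 0 - qq p x 0) = 0 := by
          nlinarith [sq_nonneg (qq p (x + 1) 0 - qq p x 0), sq_nonneg (qq p (x + 1) 1 - qq p x 1)]
        have a1 : (qq p (x + 1) 1 - qq p x 1) = 0 := by
          nlinarith [sq_nonneg (qq p (x + 1) 0 - qq p x 0), sq_nonneg (qq p (x + 1) 1 - qq p x 1)]
        exact hne (pl_ext (by linarith) (by linarith))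
      nlinarith
    have hends : ∀ w : Fin n, g (p w) = c → p w = qq p x ∨ p w = qq p (x + 1) := by
      intro w hw
      apply hc.adj_uniq hn hx h1 h2 w
      rw [hg, hw, sub_self]
    obtain ⟨w1, _, hw1, hw1'⟩ := exists_low hz g t c (fun w _ => hgP w) hzc
    obtain ⟨w2, _, hw2, hw2'⟩ := exists_low hz g (-t) c (fun w _ => hgP w) hzc
    simp only [LinearMap.neg_apply, neg_le_neg_iff] at hw2'
    have hz1 : t (qq p x) ≤ t z := by
      rcases hends w1 hw1 with h | h
      · rw [← h]; exact hw1'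
      · rw [h] at hw1'; linarith
    have hz2 : t z ≤ t (qq p (x + 1)) := by
      rcases hends w2 hw2 with h | h
      · rw [h] at hw2'; linarith
      · rw [← h]; exact hw2'
    apply mem_segment_of_tau hne
    · rw [hg, hzc, sub_self]
    · exact hz1
    · exact hz2

/-- The list of vertices. -/
theorem CycEnum.exists_sides (hc : CycEnum n p) (hn : 2 < n) {P : Finset Pl}
    (hP : Set.range p = (P : Set Pl))
    (hblank : ∀ a b, IsSideOf P a b → ∃ x ∈ P, x ∈ segment ℝ a b ∧ x ≠ a ∧ x ≠ b) :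
    ∃ (m : ℕ) (v : ℕ → ℕ), 0 < m ∧ Sides n m v ∧
      ∀ x, x < n → (IsVert p x ↔ ∃ i, i < m ∧ v i = x) := by
  classical
  -- adjacent vertices are impossible
  have hadj : ∀ x, x < n → IsVert p x → IsVert p (x + 1) → False := by
    intro x hx h1 h2
    obtain ⟨y, hyP, hy, hya, hyb⟩ := hblank _ _ (hc.isSide_adj hn hP hx h1 h2)
    have hyr : y ∈ Set.range p := by rw [hP]; exact hyP
    obtain ⟨w, rfl⟩ := hyr
    have hdet : det3 (qq p x) (qq p (x + 1)) (p w) = 0 := by
      obtain ⟨α, β, hα, hβ, hαβ, hz⟩ := hy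
      rw [← hz]
      have hβ' : β = 1 - α := by linarith
      subst hβ'
      unfold det3
      simp only [PiLp.add_apply, PiLp.smul_apply, smul_eq_mul]
      ring
    rcases hc.adj_uniq hn hx h1 h2 w hdet with h | h
    · exact hya h
    · exact hyb h
  set V : Finset ℕ := (Finset.range n).filter (fun x => IsVert p x) with hV
  have hVmem : ∀ x, x ∈ V ↔ x < n ∧ IsVert p x := by
    intro x
    rw [hV, Finset.mem_filter, Finset.mem_range]
  have h0V : 0 ∈ V := (hVmem 0).mpr ⟨by omega, hc.vert_zero⟩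
  have hmpos : 0 < V.card := Finset.card_pos.mpr ⟨0, h0V⟩
  set u := V.orderEmbOfFin rfl with hu
  have huV : ∀ i, u i ∈ V := fun i => Finset.orderEmbOfFin_mem V rfl i
  have hun : ∀ i, u i < n := fun i => ((hVmem _).mp (huV i)).1
  have huvert : ∀ i, IsVert p (u i) := fun i => ((hVmem _).mp (huV i)).2
  refine ⟨V.card, fun i => if h : i < V.card then u ⟨i, h⟩ else n, hmpos, ⟨?_, ?_, ?_⟩, ?_⟩
  · simp only [hmpos, dif_pos]
    have : 0 ∈ Set.range u := by
      rw [hu, Finset.range_orderEmbOfFin]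
      exact h0V
    obtain ⟨i, hi⟩ := this
    have hle : u ⟨0, hmpos⟩ ≤ u i := u.monotone (by show 0 ≤ i.val; omega)
    omega
  · simp
  · intro i hi
    have hui := hun ⟨i, hi⟩
    have hvi := huvert ⟨i, hi⟩
    by_cases hi1 : i + 1 < V.card
    · simp only [hi, hi1, dif_pos]
      have hlt : u ⟨i, hi⟩ < u ⟨i + 1, hi1⟩ := u.strictMono (by show i < i + 1; omega)
      by_contra hcon
      have heq : u ⟨i + 1, hi1⟩ = u ⟨i, hi⟩ + 1 := by omega
      have h2 := huvert ⟨i + 1, hi1⟩
      rw [heq] at h2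
      exact hadj _ hui hvi h2
    · simp only [hi, hi1, dif_pos, dif_neg, not_false_eq_true]
      by_contra hcon
      have heq : u ⟨i, hi⟩ + 1 = n := by omega
      apply hadj _ hui hvi
      rw [heq]
      exact hc.vert_n
  · intro x hx
    constructor
    · intro hv
      have hxV : x ∈ V := (hVmem x).mpr ⟨hx, hv⟩
      have : x ∈ Set.range u := by
        rw [hu, Finset.range_orderEmbOfFin]
        exact hxV
      obtain ⟨i, hi⟩ := this
      exact ⟨i.val, i.isLt, by simp only [i.isLt, dif_pos]; exact hi⟩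
    · rintro ⟨i, hi, hix⟩
      simp only [hi, dif_pos] at hix
      rw [← hix]
      exact huvert _

end Pool.Agent.H43
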