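import Mathlib
import Pool.Agent.H43.NCVert

/-!
The height function of the poset of relations with disjoint hulls.
-/

namespace Pool.Agent.H43

open Finset Function

variable {n : ℕ}

theorem numBlocks_le_of_le {r s : Setoid (Fin n)} (h : r ≤ s) : numBlocks s ≤ numBlocks r := by
  unfold numBlocks
  have hsurj : Surjective (Quotient.map' id (fun a b hab => h hab) : Quotient r → Quotient s) := by
    intro q
    induction q using Quotient.inductionOn with
    | _ x => exact ⟨Quotient.mk r x, rfl⟩
  exact Nat.card_le_card_of_surjective _ hsurj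

theorem numBlocks_lt_of_lt {r s : Setoid (Fin n)} (h : r < s) : numBlocks s < numBlocks r := by
  refine lt_of_le_of_ne (numBlocks_le_of_le h.le) ?_
  intro heq
  unfold numBlocks at heq
  have hsurj : Surjective
      (Quotient.map' id (fun a b hab => h.le hab) : Quotient r → Quotient s) := by
    intro q
    induction q using Quotient.inductionOn with
    | _ x => exact ⟨Quotient.mk r x, rfl⟩
  have hbij := hsurj.bijective_of_nat_card_le heq.symm.le
  apply h.not_ge
  intro a b hab
  have : (Quotient.map' id (fun a b hab => h.le hab) : Quotient r → Quotient s)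
      (Quotient.mk r a) = Quotient.map' id (fun a b hab => h.le hab) (Quotient.mk r b) :=
    Quotient.sound hab
  exact Quotient.exact (hbij.injective this)

/-- isolate the element `a` -/
def isolate (r : Setoid (Fin n)) (a : Fin n) : Setoid (Fin n) where
  r x y := x = y ∨ (r x y ∧ x ≠ a ∧ y ≠ a)
  iseqv :=
    { refl := fun x => Or.inl rfl
      symm := fun {x y} h => h.elim (fun h => Or.inl h.symm)
        (fun h => Or.inr ⟨r.symm h.1, h.2.2, h.2.1⟩)
      trans := fun {x y z} h1 h2 => by
        rcases h1 with h1 | h1
        · rw [h1]; exact h2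
        · rcases h2 with h2 | h2
          · rw [← h2]; exact Or.inr h1
          · exact Or.inr ⟨r.trans h1.1 h2.1, h1.2.1, h2.2.2⟩ }

theorem isolate_rel {r : Setoid (Fin n)} {a x y : Fin n} :
    isolate r a x y ↔ x = y ∨ (r x y ∧ x ≠ a ∧ y ≠ a) := Iff.rfl

theorem isolate_lt {r : Setoid (Fin n)} {a b : Fin n} (hab : a ≠ b) (h : r a b) :
    isolate r a < r := by
  refine lt_of_le_of_ne ?_ ?_
  · intro x y hxy
    rcases hxy with hxy | hxy
    · rw [hxy]
    · exact hxy.1
  · intro heq
    have : isolate r a a b := by rw [heq]; exact h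
    rcases this with h1 | h1
    · exact hab h1
    · exact h1.2.1 rfl

theorem numBlocks_isolate_le (r : Setoid (Fin n)) (a : Fin n) :
    numBlocks (isolate r a) ≤ numBlocks r + 1 := by
  classical
  let g : Fin n → Option (Quotient r) := fun x => if x = a then none else some (Quotient.mk r x)
  have hg : ∀ x y, isolate r a x y ↔ g x = g y := by
    intro x y
    simp only [g]
    rw [isolate_rel]
    by_cases hx : x = a
    · by_cases hy : y = a
      · simp [hx, hy]
      · have : ¬ a = y := fun h => hy h.symm
        simp [hx, hy, this]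
    · by_cases hy : y = a
      · simp [hx, hy]
      · simp only [hx, hy, if_false, Option.some.injEq]
        constructor
        · rintro (h | h)
          · rw [h]
          · exact Quotient.sound h.1
        · intro h
          exact Or.inr ⟨Quotient.exact h, hx, hy⟩
  let G : Quotient (isolate r a) → Option (Quotient r) :=
    Quotient.lift g (fun x y h => (hg x y).mp h)
  have hG : Injective G := by
    intro q1 q2 h
    induction q1 using Quotient.inductionOn with
    | _ x =>
      induction q2 using Quotient.inductionOn with
      | _ y => exact Quotient.sound ((hg x y).mpr h)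
  have := Nat.card_le_card_of_injective G hG
  unfold numBlocks
  rwa [Finite.card_option] at this

theorem phi_pos {v x : Pl} (h1 : x 0 ^ 2 + x 1 ^ 2 ≤ v 0 ^ 2 + v 1 ^ 2) (hne : x ≠ v) :
    0 < phi v x := by
  have h2 : 0 < (v 0 - x 0) ^ 2 + (v 1 - x 1) ^ 2 := by
    by_contra hcon
    push Not at hcon
    have a0 : (v 0 - x 0) = 0 := by nlinarith [sq_nonneg (v 0 - x 0), sq_nonneg (v 1 - x 1)]
    have a1 : (v 1 - x 1) = 0 := by nlinarith [sq_nonneg (v 0 - x 0), sq_nonneg (v 1 - x 1)]
    exact hne (pl_ext (by linarith) (by linarith))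
  unfold phi
  nlinarith

/-- every relation with a nontrivial block can be refined by isolating one element -/
theorem exists_isolate {p : Fin n → Pl} (hp : Injective p) {r : Setoid (Fin n)} (hr : GNC p r)
    {i j : Fin n} (hij : i ≠ j) (hrij : r i j) :
    ∃ a b : Fin n, a ≠ b ∧ r a b ∧ GNC p (isolate r a) := by
  classical
  have hne : (univ.filter fun x : Fin n => r i x).Nonempty := ⟨i, by simp⟩
  obtain ⟨a, ha, hmax⟩ := Finset.exists_max_image (univ.filter fun x : Fin n => r i x)
    (fun x => (p x) 0 ^ 2 + (p x) 1 ^ 2) hne
  rw [Finset.mem_filter] at ha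
  have hex : ∃ b, a ≠ b ∧ r a b := by
    by_cases h : a = i
    · exact ⟨j, by rw [h]; exact hij, by rw [h]; exact hrij⟩
    · exact ⟨i, h, r.symm ha.2⟩
  obtain ⟨b, hab, hrab⟩ := hex
  refine ⟨a, b, hab, hrab, ?_⟩
  -- `p a` is not in the hull of the others
  have hextr : p a ∉ convexHull ℝ (p '' {x | r a x ∧ x ≠ a}) := by
    intro hcon
    obtain ⟨g, c, hg⟩ : ∃ (g : Pl →ₗ[ℝ] ℝ) (c : ℝ), ∀ x, phi (p a) x = c - g x := by
      refine ⟨linf (p a 0) (p a 1), p a 0 * p a 0 + p a 1 * p a 1, fun x => ?_⟩
      rw [linf_apply]
      unfold phi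
      ring
    have hsub : p '' {x | r a x ∧ x ≠ a} ⊆ {y : Pl | g y < c} := by
      rintro _ ⟨x, ⟨hx, hxa⟩, rfl⟩
      have h1 := hmax x (by rw [Finset.mem_filter]; exact ⟨mem_univ _, r.trans ha.2 hx⟩)
      have h2 := phi_pos h1 (fun hh => hxa (hp hh))
      rw [hg] at h2
      show g (p x) < c
      linarith
    have hconv : Convex ℝ {y : Pl | g y < c} := convex_halfSpace_lt g.isLinear c
    have h3 := convexHull_min hsub hconv hcon
    have h4 : phi (p a) (p a) = 0 := by unfold phi; ring
    rw [hg] at h4
    have h5 : g (p a) < c := h3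
    linarith
  intro x y hxy
  rw [isolate_rel] at hxy
  push Not at hxy
  obtain ⟨hxy1, hxy2⟩ := hxy
  have hclass : ∀ z : Fin n, p '' {w | isolate r a z w} ⊆ p '' {w | r z w} := by
    intro z
    apply Set.image_mono
    intro w hw
    rcases hw with hw | hw
    · rw [hw]; exact r.refl w
    · exact hw.1
  have hsingle : p '' {w | isolate r a a w} = {p a} := by
    ext y
    constructor
    · rintro ⟨w, hw, rfl⟩
      rcases hw with hw | hw
      · rw [hw]; rfl
      · exact absurd rfl hw.2.1
    · rintro rfl
      exact ⟨a, Or.inl rfl, rfl⟩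
  have hother : ∀ z : Fin n, z ≠ a → r a z →
      p '' {w | isolate r a z w} ⊆ p '' {x | r a x ∧ x ≠ a} := by
    intro z hz haz
    apply Set.image_mono
    intro w hw
    rcases hw with hw | hw
    · rw [← hw]; exact ⟨haz, hz⟩
    · exact ⟨r.trans haz hw.1, hw.2.2⟩
  by_cases hrxy : r x y
  · by_cases hxa : x = a
    · subst hxa
      have hya : y ≠ x := fun h => hxy1 h.symm
      rw [hsingle, convexHull_singleton, Set.disjoint_singleton_left]
      intro hcon
      exact hextr (convexHull_mono (hother y hya hrxy) hcon)
    · have hya : y = a := hxy2 hrxy hxa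
      subst hya
      rw [hsingle, convexHull_singleton, Set.disjoint_singleton_right]
      intro hcon
      exact hextr (convexHull_mono (hother x hxa (r.symm hrxy)) hcon)
  · exact (hr x y hrxy).mono (convexHull_mono (hclass x)) (convexHull_mono (hclass y))

/-- the poset of relations with disjoint hulls -/
abbrev RNC (p : Fin n → Pl) : Type := {r : Setoid (Fin n) // GNC p r}

theorem height_RNC [NeZero n] {p : Fin n → Pl} (hp : Injective p) : ∀ (k : ℕ) (x : RNC p),
    n - numBlocks x.1 = k → Order.height x = k := by
  classical
  intro k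
  induction k using Nat.strong_induction_on with
  | _ k ih =>
    intro x hx
    have hle := numBlocks_le x.1
    apply le_antisymm
    · rw [Order.height_le_coe_iff]
      intro y hy
      have h1 : numBlocks x.1 < numBlocks y.1 := numBlocks_lt_of_lt hy
      have h2 := numBlocks_le y.1
      rw [ih (n - numBlocks y.1) (by omega) y rfl]
      exact_mod_cast (by omega : n - numBlocks y.1 < k)
    · rcases Nat.eq_zero_or_pos k with hk | hk
      · rw [hk]; simp
      · -- there is a nontrivial block
        have hex : ∃ i j : Fin n, i ≠ j ∧ x.1 i j := by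
          by_contra hcon
          push Not at hcon
          have h1 := numBlocks_add_nonfix x.1
          have h2 : (univ.filter fun a : Fin n => nextOf x.1 a ≠ a) = ∅ := by
            rw [Finset.filter_eq_empty_iff]
            intro a _
            push Not
            rw [nextOf_fix_iff]
            intro c hc
            exact hcon a c hc.ne
          rw [h2, Finset.card_empty] at h1
          omega
        obtain ⟨i, j, hij, hrij⟩ := hex
        obtain ⟨a, b, hab, hrab, hG⟩ := exists_isolate hp x.2 hij hrij
        let y : RNC p := ⟨isolate x.1 a, hG⟩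
        have hyx : y < x := isolate_lt hab hrab
        have h1 : numBlocks x.1 < numBlocks y.1 := numBlocks_lt_of_lt hyx
        have h2 : numBlocks y.1 ≤ numBlocks x.1 + 1 := numBlocks_isolate_le _ _
        have h3 := numBlocks_le y.1
        have h4 := ih (n - numBlocks y.1) (by omega) y rfl
        have h5 := Order.height_add_one_le hyx
        rw [h4] at h5
        have h6 : ((k : ℕ) : ℕ∞) = ((n - numBlocks y.1 : ℕ) : ℕ∞) + 1 := by
          have : k = n - numBlocks y.1 + 1 := by omega
          rw [this]
          push_cast
          rfl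
        rw [h6]
        exact h5

theorem height_RNC_eq [NeZero n] {p : Fin n → Pl} (hp : Injective p) (x : RNC p) :
    Order.height x = ((n - numBlocks x.1 : ℕ) : ℕ∞) := height_RNC hp _ x rfl

end Pool.Agent.H43
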